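import Pool.Agent.Lib.MP_dbb03c_co.Cone.Data

/-! # Certificate data (generated) -/

namespace Pool.Agent.Lib.MP_dbb03c_co.Cone

def c2P : List (List (ℕ × ℕ)) := [
  [(1, 9997440), (2, 2559)],
  [(2, 2559), (0, 9997440)],
  [(2, 100)],
  [(4, 100)],
  [(5, 100)],
  [(6, 100)],
  [(7, 100)],
  [(8, 100)],
  [(0, 40029), (4, 23), (7, 59946)]]

theorem ok2P : chkPs e2 L2 L2 c2P = true := by decide +kernel

theorem ok1P : chkP e2 L2 v1 [(3, 100)] = true := by decide +kernel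

theorem ok11 : chkMul eA LA 1 1 v1 v1 [(10, 100)] = true := by decide +kernel

def c12 : List (List (ℕ × ℕ)) := [
  [(4, 100)],
  [(6, 100)],
  [(5, 100)],
  [(3, 100)],
  [(9, 100)],
  [(1, 57), (3, 43)],
  [(8, 100)],
  [(1, 100)],
  [(7, 100)]]

theorem ok12 : chkRow eA LA 1 1 v1 L2 c12 = true := by decide +kernel

def cAP : List (List (ℕ × ℕ)) := [
  [(2, 2559), (1, 9997440)],
  [(2, 2559), (0, 9997440)],
  [(2, 100)],
  [(11, 100)],
  [(12, 100)],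
  [(0, 50), (13, 49)],
  [(13, 100)],
  [(13, 74), (15, 25)],
  [(14, 100)],
  [(15, 100)],
  [(16, 100)],
  [(17, 100)],
  [(4, 49), (1, 50)],
  [(18, 100)],
  [(6, 26), (18, 73)],
  [(6, 100)],
  [(6, 100)],
  [(19, 100)],
  [(0, 5), (13, 94)],
  [(20, 100)],
  [(21, 100)],
  [(22, 100)],
  [(23, 100)],
  [(1, 32408), (22, 67537), (11, 53)]]

theorem okAP : chkPs eA LA LA cAP = true := by decide +kernel

def c22 : List (List (List (ℕ × ℕ))) := [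
  [[(22, 3), (23, 8), (12, 49), (19, 939)], [(0, 1), (7, 99)], [(12, 48), (22, 2), (5, 48)], [(19, 100)], [(0, 5), (27, 1), (5, 992)], [(23, 5), (12, 157), (19, 836)], [(0, 8), (27, 3), (5, 988)], [(22, 1), (23, 9), (12, 371), (19, 617)], [(0, 1), (5, 99)]],
  [[(0, 12), (30, 87)], [(0, 6), (28, 1), (30, 46), (5, 46)], [(7, 100)], [(0, 7), (30, 92)], [(0, 2), (27, 1), (28, 1), (7, 994)], [(0, 9), (30, 90)], [(0, 3), (27, 2), (28, 2), (7, 990)], [(0, 11), (30, 88)]],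
  [[(3, 100)], [(33, 8), (5, 495), (12, 495)], [(0, 3), (30, 47), (5, 47)], [(22, 7), (33, 9), (5, 491), (12, 491)], [(0, 5), (30, 46), (5, 47)], [(22, 1), (33, 1), (5, 49), (12, 49)], [(0, 5), (30, 46), (5, 46)]],
  [[(9, 100)], [(6, 100)], [(11, 100)], [(5, 100)], [(12, 128), (23, 2), (11, 869)], [(5, 100)]],
  [[(31, 100)], [(5, 100)], [(0, 3), (24, 28), (31, 29), (29, 38)], [(7, 14), (5, 85)], [(0, 6), (30, 42), (29, 51)]],
  [[(12, 184), (23, 4), (11, 754), (19, 56)], [(5, 100)], [(19, 150), (23, 7), (12, 438), (11, 403)], [(7, 100)]],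
  [[(0, 7), (30, 91)], [(7, 77), (5, 21)], [(0, 8), (30, 91)]],
  [[(23, 1), (12, 69), (19, 29)], [(5, 100)]],
  [[(0, 10), (30, 89)]]]

theorem ok22 : chkTri eB LB 1 1 L2 c22 = true := by decide +kernel

def c1A : List (List (ℕ × ℕ)) := [
  [(5, 100)],
  [(24, 100)],
  [(0, 7), (5, 406), (30, 495), (18, 90)],
  [(30, 100)],
  [(0, 2), (30, 97)],
  [(0, 14), (35, 42), (30, 42)],
  [(0, 23), (35, 76)],
  [(0, 20), (35, 79)],
  [(0, 18), (35, 81)],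
  [(0, 13), (35, 86)],
  [(35, 100)],
  [(8, 100)],
  [(28, 3), (5, 995)],
  [(12, 96), (27, 1), (22, 1)],
  [(12, 97), (27, 1), (22, 1)],
  [(12, 97), (22, 1)],
  [(12, 67), (19, 11), (9, 21)],
  [(29, 100)],
  [(0, 32), (35, 67)],
  [(10, 100)],
  [(25, 100)],
  [(18, 100)],
  [(25, 100)],
  [(18, 100)]]

theorem ok1A : chkRow eB LB 1 1 v1 LA c1A = true := by decide +kernel

def c2A : List (List (List (ℕ × ℕ))) := [
  [[(22, 3), (23, 8), (12, 49), (19, 939)], [(0, 1), (7, 99)], [(12, 48), (22, 2), (5, 48)], [(5, 171), (27, 4), (7, 823), (22, 1)], [(0, 1), (27, 1), (7, 97)], [(0, 8), (28, 3), (30, 43), (5, 44)], [(0, 17), (30, 82)], [(0, 15), (30, 83)], [(0, 14), (30, 85)], [(0, 10), (30, 89)], [(0, 2), (30, 97)], [(22, 3), (23, 6), (12, 550), (19, 439)], [(22, 6), (23, 19), (12, 973)], [(23, 11), (1, 10), (34, 78)], [(23, 7), (1, 11), (34, 80)], [(23, 3), (1, 13), (34, 83)], [(1, 4), (32,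 95)], [(0, 5), (27, 6), (5, 987)], [(0, 17), (28, 11), (30, 70)], [(23, 1), (12, 98)], [(0, 7), (27, 6), (5, 985)], [(22, 1), (23, 14), (33, 1), (12, 982)], [(0, 8), (27, 6), (5, 984)], [(22, 1), (23, 14), (33, 1), (12, 981)]],
  [[(0, 1), (7, 99)], [(0, 12), (30, 87)], [(0, 6), (28, 1), (30, 46), (5, 46)], [(0, 4), (30, 94)], [(0, 17), (30, 82)], [(0, 100)], [(0, 100)], [(0, 100)], [(0, 100)], [(0, 100)], [(0, 23), (35, 76)], [(0, 1), (7, 99)], [(0, 1), (7, 96)], [(27, 11), (22, 2), (12, 85)], [(27, 8), (22, 3), (12, 87)], [(27, 5), (22, 4), (12, 89)], [(22, 4), (12, 95)], [(0, 8), (30, 90)], [(0, 100)], [(28, 1), (7, 99)], [(0, 10), (30, 89)], [(28, 1), (7, 98)], [(0, 11), (30, 88)], [(28, 1), (7, 98)]],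
  [[(12, 48), (22, 2), (5, 48)], [(0, 6), (28, 1), (30, 46), (5, 46)], [(3, 100)], [(0, 1), (28, 1), (30, 48), (5, 48)], [(0, 8), (28, 3), (30, 43), (5, 44)], [(24, 100)], [(0, 100)], [(0, 100)], [(0, 47), (35, 26), (30, 26)], [(0, 39), (35, 30), (30, 30)], [(0, 14), (35, 42), (30, 42)], [(22, 1), (5, 49), (12, 48)], [(22, 3), (5, 48), (12, 47)], [(22, 9), (23, 13), (19, 39), (34, 37)], [(22, 7), (23, 12), (19, 40), (34, 38)], [(22, 5), (23, 12), (19, 41), (34, 40)], [(23, 12), (19, 44), (34, 43)], [(0, 4), (28, 1), (30, 46), (5, 47)], [(0, 100)], [(12, 48), (22, 2), (5, 49)], [(0, 5), (28, 1), (30, 46), (5, 47)], [(12, 48), (22, 2), (5, 49)], [(0, 5), (28, 1), (30, 45), (5, 47)], [(12, 47), (22, 2), (5, 49)]],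
  [[(19, 100)], [(7, 100)], [(33, 8), (5, 495), (12, 495)], [(13, 100)], [(5, 171), (27, 4), (7, 823), (22, 1)], [(0, 1), (28, 1), (30, 48), (5, 48)], [(0, 4), (30, 94)], [(0, 4), (30, 95)], [(0, 3), (30, 96)], [(24, 100)], [(30, 100)], [(12, 50), (19, 49)], [(23, 1), (12, 98)], [(34, 75), (1, 8), (32, 15)], [(34, 57), (1, 6), (32, 36)], [(34, 38), (1, 4), (32, 56)], [(32, 100)], [(5, 100)], [(0, 3), (28, 8), (30, 88)], [(12, 468), (23, 3), (11, 527)], [(5, 100)], [(12, 394), (23, 3), (11, 600)], [(27, 2), (5, 996)], [(12, 396), (23, 4), (11, 598)]],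
  [[(0, 5), (27, 1), (5, 992)], [(0, 7), (30, 92)], [(0, 3), (30, 47), (5, 47)], [(24, 100)], [(0, 10), (30, 89)], [(0, 39), (35, 30), (30, 30)], [(0, 100)], [(0, 100)], [(0, 48), (35, 51)], [(0, 40), (35, 59)], [(0, 13), (35, 86)], [(0, 6), (5, 680), (18, 308), (16, 5)], [(0, 9), (7, 119), (28, 8), (5, 862)], [(27, 6), (12, 92)], [(27, 6), (12, 93)], [(12, 94), (27, 4)], [(22, 1), (12, 69), (21, 28)], [(0, 5), (30, 94)], [(0, 100)], [(0, 4), (5, 992), (28, 2)], [(0, 6), (30, 93)], [(28, 3), (5, 991), (0, 3)], [(0, 6), (30, 93)], [(28, 4), (5, 991), (0, 3)]],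
  [[(23, 5), (12, 157), (19, 836)], [(0, 2), (27, 1), (28, 1), (7, 994)], [(22, 7), (33, 9), (5, 491), (12, 491)], [(7, 48), (13, 51)], [(27, 1), (7, 98)], [(0, 3), (28, 2), (30, 46), (5, 46)], [(0, 9), (30, 90)], [(0, 8), (30, 91)], [(0, 7), (30, 92)], [(24, 100)], [(0, 8), (30, 991)], [(23, 4), (12, 662), (19, 332)], [(23, 1), (12, 98)], [(23, 2), (1, 12), (34, 85)], [(1, 12), (34, 87)], [(34, 50), (1, 9), (32, 39)], [(1, 1), (32, 98)], [(5, 100)], [(0, 8), (28, 10), (30, 81)], [(23, 1), (12, 99)], [(7, 100)], [(12, 98), (23, 1)], [(0, 2), (27, 4), (5, 992)], [(12, 98), (23, 1)]],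
  [[(0, 8), (27, 3), (5, 988)], [(0, 9), (30, 90)], [(0, 5), (30, 46), (5, 47)], [(24, 100)], [(0, 14), (30, 85)], [(0, 47), (35, 26), (30, 26)], [(0, 100)], [(0, 100)], [(0, 100)], [(0, 48), (35, 51)], [(0, 18), (35, 81)], [(5, 100)], [(7, 100)], [(27, 10), (12, 89)], [(12, 90), (27, 8)], [(12, 92), (27, 5), (22, 1)], [(19, 100)], [(0, 6), (30, 92)], [(0, 100)], [(0, 4), (7, 165), (28, 6), (5, 823)], [(0, 8), (30, 91)], [(7, 100)], [(0, 9), (30, 90)], [(7, 100)]],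
  [[(22, 1), (23, 9), (12, 371), (19, 617)], [(0, 3), (27, 2), (28, 2), (7, 990)], [(22, 1), (33, 1), (5, 49), (12, 49)], [(7, 100)], [(27, 1), (7, 98)], [(0, 5), (28, 3), (30, 45), (5, 45)], [(0, 12), (30, 87)], [(0, 11), (30, 88)], [(0, 10), (30, 89)], [(0, 7), (30, 92)], [(24, 100)], [(19, 100)], [(22, 3), (23, 17), (33, 1), (12, 977)], [(23, 5), (1, 12), (34, 82)], [(23, 2), (1, 13), (34, 84)], [(34, 77), (1, 12), (32, 9)], [(1, 2), (32, 97)], [(5, 100)], [(0, 11), (28, 10), (30, 77)], [(23, 1), (12, 98)], [(5, 100)], [(23, 1), (12, 98)], [(5, 100)], [(23, 1), (12, 98)]],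
  [[(0, 1), (5, 99)], [(0, 11), (30, 88)], [(0, 5), (30, 46), (5, 46)], [(0, 4), (30, 95)], [(0, 15), (30, 83)], [(0, 100)], [(0, 100)], [(0, 100)], [(0, 100)], [(0, 100)], [(0, 20), (35, 79)], [(5, 100)], [(7, 100)], [(12, 87), (27, 11)], [(27, 9), (22, 1), (12, 89)], [(19, 100)], [(11, 100)], [(0, 7), (30, 91)], [(0, 100)], [(5, 100)], [(0, 9), (30, 90)], [(7, 100)], [(0, 10), (30, 89)], [(7, 100)]]]

theorem ok2A : chkRect eB LB 1 1 LA L2 c2A = true := by decide +kernel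

def cAA : List (List (List (ℕ × ℕ))) := [
  [[(22, 3), (23, 8), (12, 49), (19, 939)], [(0, 1), (7, 99)], [(12, 48), (22, 2), (5, 48)], [(5, 171), (27, 4), (7, 823), (22, 1)], [(0, 1), (27, 1), (7, 97)], [(0, 8), (28, 3), (30, 43), (5, 44)], [(0, 17), (30, 82)], [(0, 15), (30, 83)], [(0, 14), (30, 85)], [(0, 10), (30, 89)], [(0, 2), (30, 97)], [(22, 3), (23, 6), (12, 550), (19, 439)], [(22, 6), (23, 19), (12, 973)], [(23, 11), (1, 10), (34, 78)], [(23, 7), (1, 11), (34, 80)], [(23, 3), (1, 13), (34, 83)], [(1, 4), (32, 95)], [(0, 5), (27, 6), (5, 987)], [(0, 17), (28, 11), (30, 70)], [(23, 1), (12, 98)], [(0, 7), (27, 6), (5, 985)], [(22, 1), (23, 14), (33, 1), (12, 982)], [(0, 8), (27, 6), (5, 984)], [(22, 1), (23, 14), (33, 1), (12, 981)]],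
  [[(0, 12), (30, 87)], [(0, 6), (28, 1), (30, 46), (5, 46)], [(0, 4), (30, 94)], [(0, 17), (30, 82)], [(0, 100)], [(0, 100)], [(0, 100)], [(0, 100)], [(0, 100)], [(0, 23), (35, 76)], [(0, 1), (7, 99)], [(0, 1), (7, 96)], [(27, 11), (22, 2), (12, 85)], [(27, 8), (22, 3), (12, 87)], [(27, 5), (22, 4), (12, 89)], [(22, 4), (12, 95)], [(0, 8), (30, 90)], [(0, 100)], [(28, 1), (7, 99)], [(0, 10), (30, 89)], [(28, 1), (7, 98)], [(0, 11), (30, 88)], [(28, 1), (7, 98)]],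
  [[(3, 100)], [(0, 1), (28, 1), (30, 48), (5, 48)], [(0, 8), (28, 3), (30, 43), (5, 44)], [(24, 100)], [(0, 100)], [(0, 100)], [(0, 47), (35, 26), (30, 26)], [(0, 39), (35, 30), (30, 30)], [(0, 14), (35, 42), (30, 42)], [(22, 1), (5, 49), (12, 48)], [(22, 3), (5, 48), (12, 47)], [(22, 9), (23, 13), (19, 39), (34, 37)], [(22, 7), (23, 12), (19, 40), (34, 38)], [(22, 5), (23, 12), (19, 41), (34, 40)], [(23, 12), (19, 44), (34, 43)], [(0, 4), (28, 1), (30, 46), (5, 47)], [(0, 100)], [(12, 48), (22, 2), (5, 49)], [(0, 5), (28, 1), (30, 46), (5, 47)], [(12, 48), (22, 2), (5, 49)], [(0, 5), (28, 1), (30, 45), (5, 47)], [(12, 47), (22, 2), (5, 49)]],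
  [[(24, 100)], [(0, 7), (30, 91)], [(0, 31), (35, 34), (30, 34)], [(0, 45), (35, 54)], [(0, 42), (35, 57)], [(0, 39), (35, 60)], [(0, 31), (35, 68)], [(0, 8), (35, 91)], [(7, 100)], [(7, 984), (27, 6), (28, 8)], [(12, 89), (22, 10)], [(22, 8), (12, 91)], [(22, 5), (12, 92)], [(22, 1), (23, 1), (12, 87), (19, 8)], [(24, 100)], [(0, 100)], [(7, 100)], [(0, 4), (30, 95)], [(7, 100)], [(0, 4), (30, 95)], [(28, 2), (26, 2), (7, 993)]],
  [[(0, 23), (30, 75)], [(0, 100)], [(0, 100)], [(0, 100)], [(0, 100)], [(0, 100)], [(0, 32), (35, 67)], [(0, 1), (7, 97)], [(0, 2), (27, 1), (7, 94)], [(27, 11), (22, 11), (12, 77)], [(27, 7), (22, 12), (12, 79)], [(27, 3), (22, 13), (12, 82)], [(22, 6), (23, 2), (12, 88), (19, 3)], [(0, 12), (30, 86)], [(0, 100)], [(27, 1), (7, 97)], [(0, 15), (30, 84)], [(27, 1), (28, 1), (7, 97)], [(0, 16), (30, 83)], [(27, 1), (28, 1), (7, 97)]],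
  [[(0, 100)], [(0, 100)], [(0, 100)], [(0, 100)], [(0, 100)], [(0, 100)], [(0, 8), (28, 2), (30, 44), (5, 44)], [(0, 15), (28, 3), (30, 40), (5, 39)], [(0, 28), (27, 13), (5, 30), (12, 28)], [(0, 23), (27, 13), (5, 32), (12, 31)], [(0, 17), (27, 13), (5, 35), (12, 34)], [(0, 1), (27, 13), (5, 42), (12, 41)], [(0, 44), (35, 27), (30, 27)], [(0, 100)], [(0, 7), (28, 2), (30, 45), (5, 44)], [(0, 100)], [(0, 7), (28, 3), (30, 45), (5, 44)], [(0, 100)], [(0, 7), (28, 3), (30, 45), (5, 43)]],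
  [[(0, 100)], [(0, 100)], [(0, 100)], [(0, 100)], [(0, 100)], [(0, 16), (30, 83)], [(0, 28), (30, 70)], [(0, 100)], [(0, 44), (27, 1), (7, 53)], [(0, 37), (27, 1), (7, 60)], [(0, 14), (27, 1), (7, 83)], [(0, 100)], [(0, 100)], [(0, 15), (30, 84)], [(0, 100)], [(0, 15), (30, 83)], [(0, 100)], [(0, 16), (30, 83)]],
  [[(0, 100)], [(0, 100)], [(0, 100)], [(0, 100)], [(24, 100)], [(0, 26), (30, 73)], [(0, 48), (7, 50)], [(0, 42), (7, 56)], [(0, 35), (7, 63)], [(7, 100)], [(0, 100)], [(0, 100)], [(0, 14), (30, 85)], [(0, 100)], [(0, 14), (30, 85)], [(0, 100)], [(0, 14), (30, 84)]],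
  [[(0, 100)], [(0, 100)], [(0, 100)], [(0, 13), (30, 86)], [(0, 24), (30, 75)], [(0, 45), (28, 1), (7, 53)], [(0, 39), (7, 59)], [(0, 32), (7, 66)], [(7, 100)], [(0, 100)], [(0, 100)], [(0, 12), (30, 87)], [(0, 100)], [(0, 12), (30, 86)], [(0, 100)], [(0, 13), (30, 86)]],
  [[(0, 100)], [(0, 100)], [(24, 100)], [(0, 18), (30, 80)], [(0, 37), (28, 1), (7, 60)], [(0, 32), (7, 66)], [(0, 26), (7, 72)], [(7, 100)], [(0, 45), (35, 54)], [(0, 100)], [(0, 9), (30, 90)], [(0, 100)], [(0, 9), (30, 90)], [(0, 100)], [(0, 10), (30, 89)]],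
  [[(37, 100)], [(24, 100)], [(0, 5), (30, 94)], [(0, 14), (28, 1), (5, 24), (7, 59)], [(0, 11), (28, 1), (7, 87)], [(7, 100)], [(7, 100)], [(0, 16), (35, 83)], [(0, 100)], [(24, 100)], [(0, 19), (35, 79)], [(0, 2), (30, 97)], [(0, 21), (35, 78)], [(0, 2), (30, 97)]],
  [[(22, 3), (23, 5), (12, 991)], [(23, 1), (12, 98)], [(23, 14), (1, 3), (34, 81)], [(23, 10), (1, 5), (34, 84)], [(23, 6), (1, 6), (34, 86)], [(34, 32), (1, 4), (32, 63)], [(5, 100)], [(0, 18), (28, 8), (30, 73)], [(19, 100)], [(5, 100)], [(22, 1), (23, 8), (33, 2), (12, 987)], [(5, 100)], [(23, 1), (12, 99)]],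
  [[(22, 1), (23, 2), (12, 96)], [(23, 25), (1, 4), (34, 69)], [(23, 19), (1, 7), (34, 72)], [(23, 12), (1, 10), (34, 76)], [(1, 9), (32, 90)], [(5, 100)], [(24, 100)], [(22, 5), (23, 15), (33, 2), (12, 976)], [(5, 100)], [(22, 5), (23, 16), (33, 3), (12, 974)], [(5, 100)], [(22, 5), (23, 17), (33, 4), (12, 973)]],
  [[(1, 100)], [(1, 100)], [(1, 100)], [(1, 21), (36, 78)], [(19, 100)], [(0, 100)], [(23, 10), (1, 8), (34, 80)], [(9, 100)], [(23, 9), (1, 9), (34, 80)], [(2, 100)], [(23, 10), (1, 10), (34, 79)]],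
  [[(1, 100)], [(1, 45), (36, 54)], [(1, 17), (36, 82)], [(11, 100)], [(0, 100)], [(23, 6), (1, 9), (34, 83)], [(9, 100)], [(23, 6), (1, 11), (34, 82)], [(9, 100)], [(23, 6), (1, 11), (34, 81)]],
  [[(1, 37), (36, 62)], [(1, 12), (36, 87)], [(11, 100)], [(5, 100)], [(23, 3), (1, 10), (34, 85)], [(9, 100)], [(23, 2), (1, 12), (34, 85)], [(9, 100)], [(23, 2), (1, 12), (34, 84)]],
  [[(36, 100)], [(9, 100)], [(5, 100)], [(1, 3), (32, 96)], [(9, 100)], [(1, 4), (32, 95)], [(9, 100)], [(1, 4), (32, 95)]],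
  [[(0, 6), (30, 93)], [(0, 100)], [(5, 100)], [(0, 7), (30, 92)], [(5, 100)], [(0, 8), (30, 91)], [(5, 100)]],
  [[(0, 100)], [(24, 100)], [(0, 100)], [(24, 100)], [(0, 100)], [(24, 100)]],
  [[(23, 1), (12, 99)], [(5, 100)], [(23, 1), (12, 98)], [(5, 100)], [(23, 1), (12, 98)]],
  [[(0, 9), (30, 90)], [(5, 100)], [(0, 9), (30, 89)], [(5, 100)]],
  [[(23, 1), (12, 98)], [(5, 100)], [(23, 12), (33, 4), (12, 982)]],
  [[(0, 10), (30, 89)], [(5, 100)]],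
  [[(23, 12), (33, 5), (12, 981)]]]

theorem okAA : chkTri eB LB 1 1 LA cAA = true := by decide +kernel

def cBP : List (List (ℕ × ℕ)) := [
  [(23, 100)],
  [(0, 54), (28, 45)],
  [(3, 9997441), (4, 2558)],
  [(2, 9997441), (4, 2558)],
  [(4, 100)],
  [(12, 100)],
  [(14, 100)],
  [(33, 2), (12, 997)],
  [(15, 100)],
  [(16, 100)],
  [(17, 100)],
  [(5, 19), (18, 15), (16, 64)],
  [(20, 100)],
  [(0, 3), (12, 862), (5, 7), (2, 9126)],
  [(5, 41), (3, 58)],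
  [(8, 33), (10, 22), (3, 44)],
  [(21, 100)],
  [(10, 50), (13, 1), (3, 47)],
  [(17, 100)],
  [(5, 100)],
  [(12, 4987), (5, 3), (2, 5009)],
  [(16, 315), (8, 506), (3, 179)],
  [(26, 100)],
  [(28, 100)],
  [(23, 148), (38, 4), (34, 9846)],
  [(23, 1), (34, 98)],
  [(4, 100)],
  [(33, 100)],
  [(2, 100)],
  [(23, 7), (34, 992)],
  [(34, 100)],
  [(23, 4), (34, 95)],
  [(24, 100)],
  [(3, 100)],
  [(0, 1), (30, 97)],
  [(38, 100)],
  [(0, 100)],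
  [(1, 100)],
  [(0, 38), (28, 3), (35, 57)],
  [(0, 100)],
  [(0, 100)],
  [(42, 100)],
  [(1, 100)],
  [(1, 100)]]

theorem okBP : chkPs eB LB LB cBP = true := by decide +kernel

end Pool.Agent.Lib.MP_dbb03c_co.Cone
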