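import Pool.Agent.Lib.MP_dbb03c_co.Cone.Data

/-! # Certificate data (generated) -/

namespace Pool.Agent.Lib.MP_dbb03c_co.Cone

def cFB : List (List (List (ℕ × ℕ))) := [
  [[(0, 100)], [(22, 100)], [(5, 100)], [(24, 100)], [(0, 7), (5, 406), (30, 495), (18, 90)], [(0, 2), (30, 97)], [(24, 100)], [(0, 4), (30, 94)], [(24, 100)], [(13, 100)], [(24, 100)], [(7, 483), (26, 1), (13, 514)], [(28, 3), (5, 995)], [(0, 1), (30, 98)], [(5, 100)], [(5, 100)], [(0, 1), (24, 38), (31, 60)], [(5, 100)], [(0, 2), (30, 97)], [(5, 171), (27, 4), (7, 823), (22, 1)], [(24, 100)], [(5, 100)], [(0, 100)], [(27, 100)], [(0, 23), (35, 76)], [(0, 19), (35, 79)], [(0, 100)], [(0, 100)], [(0, 100)], [(0, 16), (35, 83)], [(0, 8), (35, 91)], [(0, 40), (35, 59)], [(22, 1), (23, 1), (12, 87), (19, 8)], [(0, 100)], [(12, 98), (22, 1)], [(37, 100)], [(23, 24), (1, 10), (34, 65)], [(0, 100)], [(22, 7), (23, 10), (34,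 82)], [(1, 100)], [(1, 100)], [(0, 100)], [(43, 100)], [(0, 100)]],
  [[(0, 100)], [(1, 100)], [(23, 1), (12, 98)], [(0, 9), (27, 7), (5, 982)], [(12, 48), (22, 2), (5, 48)], [(0, 1), (27, 1), (7, 97)], [(0, 1), (27, 1), (7, 67), (5, 30)], [(0, 1), (27, 2), (7, 95)], [(0, 1), (7, 97)], [(23, 2), (11, 97)], [(27, 1), (7, 97)], [(12, 31), (23, 4), (11, 57), (19, 5)], [(22, 6), (23, 19), (12, 973)], [(7, 97), (27, 2)], [(23, 2), (12, 97)], [(19, 100)], [(0, 2), (7, 97)], [(9, 100)], [(27, 1), (28, 1), (7, 97)], [(23, 5), (12, 27), (19, 66)], [(27, 1), (5, 97)], [(23, 1), (19, 97)], [(0, 100)], [(1, 100)], [(0, 17), (30, 82)], [(0, 15), (30, 84)], [(0, 100)], [(0, 100)], [(0, 100)], [(0, 12), (30, 86)], [(0, 7), (30, 91)], [(0, 30), (30, 68)], [(1, 13), (32, 86)], [(1, 100)], [(34, 82), (1, 13), (32, 4)], [(0, 32), (35, 67)], [(1, 31), (36, 68)], [(0, 100)], [(1, 46), (36, 53)], [(1, 100)],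 [(1, 100)], [(0, 100)], [(1, 100)], [(0, 100)]],
  [[(0, 100)], [(0, 100)], [(28, 1), (7, 98)], [(0, 12), (30, 87)], [(0, 6), (28, 1), (30, 46), (5, 46)], [(0, 17), (30, 82)], [(0, 17), (30, 82)], [(0, 26), (30, 72)], [(0, 16), (30, 83)], [(7, 98), (27, 1)], [(0, 15), (30, 84)], [(27, 2), (7, 97)], [(0, 1), (7, 96)], [(0, 12), (30, 86)], [(0, 1), (7, 97)], [(7, 100)], [(0, 23), (30, 76)], [(5, 100)], [(0, 15), (30, 83)], [(0, 1), (27, 2), (7, 95)], [(0, 14), (30, 84)], [(0, 9), (27, 9), (7, 972), (5, 7)], [(0, 100)], [(0, 100)], [(0, 100)], [(0, 100)], [(0, 100)], [(0, 100)], [(0, 100)], [(0, 100)], [(0, 45), (35, 54)], [(0, 100)], [(22, 9), (23, 4), (12, 86)], [(0, 100)], [(27, 2), (22, 5), (12, 91)], [(0, 100)], [(1, 100)], [(0, 100)], [(22, 29), (23, 20), (34, 49)], [(1, 100)], [(0, 100)], [(0, 100)], [(0, 100)], [(0, 100)]],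
  [[(0, 100)], [(1, 100)], [(12, 47), (22, 2), (5, 49)], [(0, 6), (28, 1), (30, 45), (5, 46)], [(3, 100)], [(0, 8), (28, 3), (30, 43), (5, 44)], [(0, 8), (28, 2), (30, 44), (5, 44)], [(0, 13), (28, 5), (30, 40), (5, 40)], [(0, 8), (28, 2), (30, 44), (5, 44)], [(33, 3), (5, 47), (12, 48)], [(0, 7), (28, 2), (30, 45), (5, 44)], [(22, 1), (33, 4), (5, 46), (12, 47)], [(22, 3), (5, 48), (12, 47)], [(0, 3), (28, 7), (30, 44), (5, 44)], [(22, 4), (5, 48), (12, 47)], [(5, 48), (22, 3), (12, 47)], [(0, 13), (30, 42), (5, 42)], [(22, 3), (5, 48), (12, 47)], [(0, 7), (28, 3), (30, 45), (5, 44)], [(22, 5), (33, 4), (5, 44), (12, 45)], [(0, 7), (28, 2), (30, 44), (5, 45)], [(22, 2), (33, 1), (5, 47), (12, 48)], [(0, 100)], [(0, 100)], [(0, 100)], [(0, 100)], [(0, 100)], [(0, 100)], [(0, 100)], [(0, 44), (35, 27), (30, 27)], [(0, 31), (35, 34), (30, 34)], [(0, 100)], [(23, 31), (1, 3), (9, 32), (34,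 32)], [(0, 100)], [(22, 3), (23, 12), (19, 43), (34, 40)], [(0, 100)], [(1, 100)], [(0, 100)], [(1, 100)], [(1, 100)], [(1, 100)], [(0, 100)], [(22, 100)], [(0, 100)]],
  [[(0, 100)], [(1, 100)], [(19, 100)], [(5, 100)], [(33, 8), (5, 495), (12, 495)], [(5, 171), (27, 4), (7, 823), (22, 1)], [(7, 100)], [(7, 98), (27, 1)], [(7, 100)], [(11, 104), (1, 9), (9, 885)], [(7, 100)], [(1, 1), (11, 98)], [(23, 1), (12, 98)], [(7, 19), (26, 1), (5, 79)], [(19, 100)], [(9, 100)], [(5, 100)], [(9, 100)], [(28, 2), (26, 2), (7, 994)], [(23, 2), (11, 97)], [(5, 993), (27, 5)], [(11, 100)], [(22, 100)], [(1, 100)], [(0, 4), (30, 94)], [(0, 4), (30, 95)], [(22, 100)], [(0, 100)], [(0, 100)], [(0, 3), (30, 96)], [(0, 1), (30, 98)], [(0, 10), (30, 89)], [(1, 2), (32, 97)], [(23, 100)], [(34, 26), (1, 2), (32, 70)], [(0, 8), (35, 91)], [(1, 7), (36, 92)], [(0, 100)], [(38, 5), (1, 16), (36, 77)], [(1, 100)],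 [(1, 100)], [(0, 100)], [(23, 100)], [(27, 100)]],
  [[(0, 100)], [(22, 100)], [(28, 5), (5, 990), (0, 3)], [(0, 7), (30, 92)], [(0, 3), (30, 47), (5, 47)], [(0, 10), (30, 89)], [(0, 10), (30, 89)], [(0, 17), (30, 82)], [(24, 100)], [(7, 100)], [(0, 9), (30, 90)], [(0, 3), (27, 7), (7, 989)], [(0, 9), (7, 119), (28, 8), (5, 862)], [(0, 7), (30, 92)], [(7, 34), (5, 63)], [(5, 100)], [(24, 100)], [(5, 100)], [(0, 9), (30, 90)], [(0, 1), (27, 1), (7, 67), (5, 30)], [(0, 9), (30, 90)], [(5, 100)], [(0, 100)], [(0, 100)], [(0, 100)], [(0, 100)], [(0, 100)], [(0, 100)], [(0, 100)], [(0, 45), (35, 54)], [(0, 31), (35, 68)], [(0, 100)], [(22, 6), (23, 1), (12, 80), (19, 12)], [(0, 100)], [(12, 95), (27, 3), (22, 1)], [(0, 100)], [(22, 4), (23, 46), (34, 49)], [(0, 100)], [(22, 23), (23, 9), (34, 66)], [(1, 100)], [(1, 100)], [(0, 100)], [(28, 100)], [(0, 100)]],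
  [[(0, 100)], [(1, 100)], [(12, 98), (23, 1)], [(7, 100)], [(22, 7), (33, 9), (5, 491), (12, 491)], [(27, 1), (7, 98)], [(7, 100)], [(27, 2), (7, 97)], [(0, 1), (27, 4), (28, 4), (7, 988)], [(1, 1), (11, 98)], [(7, 99), (28, 1)], [(23, 1), (11, 97)], [(23, 1), (12, 98)], [(7, 98), (26, 1)], [(23, 1), (12, 98)], [(11, 100)], [(7, 100)], [(9, 100)], [(28, 1), (7, 98)], [(12, 31), (23, 4), (11, 57), (19, 5)], [(27, 1), (5, 98)], [(19, 100)], [(0, 100)], [(1, 100)], [(0, 9), (30, 90)], [(0, 7), (30, 91)], [(22, 100)], [(0, 100)], [(0, 100)], [(0, 6), (30, 93)], [(0, 3), (30, 96)], [(0, 18), (30, 81)], [(1, 6), (32, 93)], [(1, 100)], [(34, 24), (1, 6), (32, 68)], [(0, 17), (35, 82)], [(1, 16), (36, 83)], [(0, 100)], [(1, 29), (36, 70)], [(1, 100)], [(1, 100)], [(0, 100)], [(1, 100)], [(22, 100)]],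
  [[(0, 100)], [(0, 100)], [(7, 100)], [(0, 9), (30, 89)], [(0, 5), (30, 46), (5, 47)], [(0, 14), (30, 85)], [(0, 14), (30, 85)], [(0, 22), (30, 77)], [(0, 13), (30, 86)], [(27, 9), (7, 311), (5, 678)], [(0, 12), (30, 87)], [(27, 1), (7, 84), (5, 13)], [(7, 100)], [(0, 10), (30, 89)], [(7, 100)], [(5, 100)], [(24, 100)], [(5, 100)], [(0, 12), (30, 86)], [(0, 1), (27, 1), (7, 46), (5, 49)], [(0, 12), (30, 87)], [(5, 100)], [(0, 100)], [(0, 100)], [(0, 100)], [(0, 100)], [(0, 100)], [(0, 100)], [(0, 100)], [(0, 100)], [(0, 39), (35, 60)], [(0, 100)], [(22, 8), (23, 1), (12, 72), (19, 17)], [(0, 100)], [(27, 3), (22, 2), (12, 93)], [(0, 100)], [(23, 100)], [(0, 100)], [(22, 28), (23, 12), (34, 59)], [(1, 100)], [(0, 100)], [(0, 100)], [(0, 100)], [(0, 100)]],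
  [[(0, 100)], [(1, 100)], [(23, 1), (12, 98)], [(5, 100)], [(22, 1), (5, 49), (12, 48)], [(27, 1), (7, 98)], [(0, 6), (27, 8), (28, 1), (7, 983)], [(27, 2), (7, 96)], [(0, 4), (27, 5), (28, 6), (7, 983)], [(23, 1), (11, 97)], [(28, 1), (7, 98)], [(23, 2), (11, 96)], [(22, 3), (23, 17), (33, 1), (12, 977)], [(26, 1), (7, 97)], [(23, 1), (12, 97)], [(11, 100)], [(7, 100)], [(9, 100)], [(7, 97), (28, 1)], [(23, 5), (12, 58), (19, 36)], [(7, 100)], [(19, 100)], [(0, 100)], [(1, 100)], [(0, 12), (30, 87)], [(0, 10), (30, 88)], [(22, 100)], [(0, 100)], [(0, 100)], [(24, 100)], [(0, 4), (30, 94)], [(0, 23), (30, 76)], [(1, 9), (32, 90)], [(1, 100)], [(34, 40), (1, 9), (32, 50)], [(0, 23), (35, 76)], [(1, 22), (36, 77)], [(0, 100)], [(1, 37), (36, 62)], [(1, 100)], [(1, 100)], [(0, 100)], [(1, 100)], [(0, 100)]],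
  [[(0, 100)], [(0, 100)], [(7, 100)], [(0, 11), (30, 88)], [(0, 5), (30, 46), (5, 46)], [(0, 15), (30, 83)], [(0, 15), (30, 84)], [(0, 24), (30, 74)], [(24, 100)], [(27, 1), (5, 98)], [(0, 14), (30, 85)], [(27, 1), (7, 27), (5, 69)], [(7, 100)], [(0, 11), (30, 88)], [(7, 100)], [(5, 100)], [(24, 100)], [(5, 100)], [(0, 14), (30, 85)], [(0, 1), (27, 2), (5, 95)], [(0, 13), (30, 86)], [(7, 100)], [(0, 100)], [(0, 100)], [(0, 100)], [(0, 100)], [(0, 100)], [(0, 100)], [(0, 100)], [(0, 100)], [(0, 42), (35, 57)], [(0, 100)], [(22, 8), (23, 2), (12, 56), (19, 32)], [(0, 100)], [(19, 100)], [(0, 100)], [(23, 100)], [(0, 100)], [(22, 29), (23, 15), (34, 55)], [(1, 100)], [(0, 100)], [(0, 100)], [(0, 100)], [(0, 100)]],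
  [[(0, 100)], [(1, 100)], [(23, 1), (12, 98)], [(0, 9), (27, 7), (5, 982)], [(12, 48), (22, 2), (5, 48)], [(0, 1), (27, 1), (7, 97)], [(0, 1), (27, 1), (7, 67), (5, 30)], [(0, 1), (27, 2), (7, 95)], [(0, 1), (7, 97)], [(23, 2), (11, 97)], [(27, 1), (7, 97)], [(12, 31), (23, 4), (11, 57), (19, 5)], [(22, 6), (23, 19), (12, 973)], [(7, 97), (27, 2)], [(23, 2), (12, 97)], [(19, 100)], [(0, 2), (7, 97)], [(9, 100)], [(27, 1), (28, 1), (7, 97)], [(23, 5), (12, 27), (19, 66)], [(27, 1), (5, 97)], [(23, 1), (19, 97)], [(0, 100)], [(1, 100)], [(0, 17), (30, 82)], [(0, 15), (30, 84)], [(0, 100)], [(0, 100)], [(0, 100)], [(0, 12), (30, 86)], [(0, 7), (30, 91)], [(0, 30), (30, 68)], [(1, 13), (32, 86)], [(1, 100)], [(34, 82), (1, 13), (32, 4)], [(0, 32), (35, 67)], [(1, 31), (36, 68)], [(0, 100)], [(1, 46), (36, 53)], [(1, 100)], [(1, 100)], [(0, 100)], [(1, 100)], [(0, 100)]],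
  [[(0, 100)], [(0, 100)], [(28, 1), (7, 98)], [(0, 12), (30, 87)], [(0, 6), (28, 1), (30, 46), (5, 46)], [(0, 17), (30, 82)], [(0, 17), (30, 82)], [(0, 26), (30, 72)], [(0, 16), (30, 83)], [(7, 98), (27, 1)], [(0, 15), (30, 84)], [(27, 2), (7, 97)], [(0, 1), (7, 96)], [(0, 12), (30, 86)], [(0, 1), (7, 97)], [(7, 100)], [(0, 23), (30, 76)], [(5, 100)], [(0, 15), (30, 83)], [(0, 1), (27, 2), (7, 95)], [(0, 14), (30, 84)], [(0, 9), (27, 9), (7, 972), (5, 7)], [(0, 100)], [(0, 100)], [(0, 100)], [(0, 100)], [(0, 100)], [(0, 100)], [(0, 100)], [(0, 100)], [(0, 45), (35, 54)], [(0, 100)], [(22, 9), (23, 4), (12, 86)], [(0, 100)], [(27, 2), (22, 5), (12, 91)], [(0, 100)], [(1, 100)], [(0, 100)], [(22, 29), (23, 20), (34, 49)], [(1, 100)], [(0, 100)], [(0, 100)], [(0, 100)], [(0, 100)]],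
  [[(0, 100)], [(1, 100)], [(12, 47), (22, 2), (5, 49)], [(0, 6), (28, 1), (30, 45), (5, 46)], [(3, 100)], [(0, 8), (28, 3), (30, 43), (5, 44)], [(0, 8), (28, 2), (30, 44), (5, 44)], [(0, 13), (28, 5), (30, 40), (5, 40)], [(0, 8), (28, 2), (30, 44), (5, 44)], [(33, 3), (5, 47), (12, 48)], [(0, 7), (28, 2), (30, 45), (5, 44)], [(22, 1), (33, 4), (5, 46), (12, 47)], [(22, 3), (5, 48), (12, 47)], [(0, 3), (28, 7), (30, 44), (5, 44)], [(22, 4), (5, 48), (12, 47)], [(5, 48), (22, 3), (12, 47)], [(0, 13), (30, 42), (5, 42)], [(22, 3), (5, 48), (12, 47)], [(0, 7), (28, 3), (30, 45), (5, 44)], [(22, 5), (33, 4), (5, 44), (12, 45)], [(0, 7), (28, 2), (30, 44), (5, 45)], [(22, 2), (33, 1), (5, 47), (12, 48)], [(0, 100)], [(0, 100)], [(0, 100)], [(0, 100)], [(0, 100)], [(0, 100)], [(0, 100)], [(0, 44), (35, 27), (30, 27)], [(0, 31), (35, 34), (30, 34)], [(0, 100)], [(23, 31), (1, 3), (9, 32), (34,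 32)], [(0, 100)], [(22, 3), (23, 12), (19, 43), (34, 40)], [(0, 100)], [(1, 100)], [(0, 100)], [(1, 100)], [(1, 100)], [(1, 100)], [(0, 100)], [(22, 100)], [(0, 100)]],
  [[(0, 100)], [(22, 100)], [(7, 100)], [(0, 4), (30, 94)], [(0, 1), (28, 1), (30, 48), (5, 48)], [(0, 7), (30, 91)], [(0, 7), (30, 92)], [(0, 12), (30, 86)], [(0, 6), (30, 92)], [(7, 19), (26, 1), (5, 79)], [(0, 6), (30, 93)], [(7, 98), (26, 1)], [(7, 984), (27, 6), (28, 8)], [(0, 4), (28, 1), (30, 94)], [(7, 100)], [(5, 100)], [(0, 10), (30, 89)], [(5, 100)], [(0, 6), (30, 92)], [(7, 97), (27, 2)], [(0, 6), (30, 93)], [(7, 100)], [(0, 100)], [(0, 100)], [(0, 45), (35, 54)], [(0, 41), (35, 58)], [(0, 100)], [(0, 100)], [(0, 100)], [(0, 36), (35, 63)], [(0, 24), (35, 75)], [(0, 100)], [(22, 3), (23, 7), (12, 89)], [(0, 100)], [(22, 4), (23, 1), (12, 94)], [(0, 100)], [(1, 100)], [(0, 100)], [(22, 10), (23, 34), (34, 54)],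 [(1, 100)], [(1, 100)], [(0, 100)], [(27, 100)], [(0, 100)]],
  [[(0, 100)], [(0, 100)], [(27, 1), (28, 1), (7, 96)], [(0, 17), (30, 82)], [(0, 8), (28, 3), (30, 43), (5, 44)], [(0, 23), (30, 75)], [(0, 23), (30, 75)], [(0, 34), (28, 1), (30, 63)], [(0, 22), (30, 76)], [(7, 97), (27, 2)], [(0, 21), (30, 77)], [(7, 94), (27, 4)], [(0, 2), (27, 1), (7, 94)], [(0, 17), (28, 1), (30, 80)], [(0, 1), (27, 1), (7, 95)], [(7, 100)], [(0, 30), (30, 68)], [(5, 100)], [(0, 21), (30, 77)], [(0, 1), (27, 6), (7, 91)], [(0, 20), (30, 78)], [(0, 1), (27, 2), (7, 78), (5, 17)], [(0, 100)], [(0, 100)], [(0, 100)], [(0, 100)], [(0, 100)], [(0, 100)], [(0, 100)], [(0, 100)], [(0, 100)], [(0, 100)], [(22, 12), (23, 9), (12, 78)], [(0, 100)], [(12, 84), (22, 14)], [(0, 100)], [(1, 100)], [(0, 100)], [(23, 100)], [(0, 100)], [(0, 100)], [(0, 100)], [(0, 100)], [(0, 100)]],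
  [[(0, 100)], [(0, 100)], [(0, 8), (28, 3), (30, 44), (5, 43)], [(0, 100)], [(24, 100)], [(0, 100)], [(0, 100)], [(0, 100)], [(0, 100)], [(0, 3), (28, 7), (30, 44), (5, 44)], [(0, 100)], [(0, 7), (28, 10), (30, 40), (5, 41)], [(0, 15), (28, 3), (30, 40), (5, 39)], [(0, 100)], [(0, 13), (28, 4), (30, 41), (5, 40)], [(0, 12), (28, 3), (30, 41), (5, 41)], [(0, 100)], [(0, 13), (28, 3), (30, 41), (5, 41)], [(0, 100)], [(0, 16), (28, 11), (30, 35), (5, 36)], [(0, 100)], [(0, 9), (28, 5), (30, 42), (5, 42)], [(0, 100)], [(0, 100)], [(0, 100)], [(0, 100)], [(0, 100)], [(0, 100)], [(0, 100)], [(0, 100)], [(0, 100)], [(0, 100)], [(27, 31), (22, 4), (5, 32), (12, 32)], [(0, 100)], [(0, 12), (27, 13), (5, 38), (12, 36)], [(0, 100)], [(1, 100)], [(0, 100)], [(0, 100)], [(0, 100)], [(0, 100)], [(0, 100)], [(0, 100)], [(0, 100)]],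
  [[(0, 100)], [(0, 100)], [(0, 17), (30, 81)], [(0, 100)], [(0, 100)], [(0, 100)], [(0, 100)], [(0, 100)], [(0, 100)], [(0, 12), (30, 86)], [(0, 100)], [(0, 20), (28, 1), (30, 77)], [(0, 28), (30, 70)], [(0, 100)], [(0, 25), (30, 74)], [(0, 23), (30, 76)], [(0, 100)], [(24, 100)], [(0, 100)], [(0, 34), (28, 1), (30, 63)], [(0, 100)], [(0, 20), (30, 79)], [(0, 100)], [(0, 100)], [(0, 100)], [(0, 100)], [(0, 100)], [(0, 100)], [(0, 100)], [(0, 100)], [(0, 100)], [(0, 100)], [(0, 28), (27, 4), (7, 66)], [(0, 100)], [(0, 30), (28, 1), (7, 67)], [(0, 100)], [(0, 100)], [(0, 100)], [(0, 100)], [(0, 100)], [(0, 100)], [(0, 100)], [(0, 100)], [(0, 100)]],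
  [[(0, 100)], [(0, 100)], [(0, 15), (30, 83)], [(0, 100)], [(0, 100)], [(0, 100)], [(0, 100)], [(0, 100)], [(0, 100)], [(0, 11), (30, 88)], [(0, 100)], [(0, 19), (30, 79)], [(0, 26), (30, 73)], [(0, 100)], [(0, 23), (30, 76)], [(24, 100)], [(0, 100)], [(24, 100)], [(0, 100)], [(0, 32), (28, 1), (30, 66)], [(0, 100)], [(0, 18), (30, 80)], [(0, 100)], [(0, 100)], [(0, 100)], [(0, 100)], [(0, 100)], [(0, 100)], [(0, 100)], [(0, 100)], [(0, 100)], [(0, 100)], [(0, 26), (27, 3), (7, 69)], [(0, 100)], [(0, 27), (28, 1), (7, 69)], [(0, 100)], [(0, 100)], [(0, 100)], [(0, 100)], [(0, 100)], [(0, 100)], [(0, 100)], [(0, 100)], [(0, 100)]],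
  [[(0, 100)], [(0, 100)], [(0, 14), (30, 85)], [(0, 100)], [(0, 47), (35, 26), (30, 26)], [(0, 100)], [(0, 100)], [(0, 100)], [(0, 100)], [(0, 10), (30, 89)], [(0, 100)], [(0, 17), (30, 81)], [(0, 24), (30, 75)], [(0, 100)], [(0, 21), (30, 78)], [(24, 100)], [(0, 100)], [(24, 100)], [(0, 100)], [(0, 29), (30, 69)], [(0, 100)], [(0, 16), (30, 82)], [(0, 100)], [(0, 100)], [(0, 100)], [(0, 100)], [(0, 100)], [(0, 100)], [(0, 100)], [(0, 100)], [(0, 100)], [(0, 100)], [(0, 24), (27, 3), (7, 71)], [(0, 100)], [(0, 25), (28, 1), (7, 72)], [(0, 100)], [(0, 100)], [(0, 100)], [(0, 100)], [(0, 100)], [(0, 100)], [(0, 100)], [(0, 100)], [(0, 100)]],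
  [[(0, 100)], [(0, 100)], [(0, 10), (30, 88)], [(0, 100)], [(0, 39), (35, 30), (30, 30)], [(0, 100)], [(0, 100)], [(0, 100)], [(0, 100)], [(0, 7), (30, 92)], [(0, 100)], [(0, 13), (30, 86)], [(0, 18), (30, 80)], [(0, 100)], [(0, 16), (30, 83)], [(24, 100)], [(0, 100)], [(24, 100)], [(0, 100)], [(0, 23), (30, 75)], [(0, 100)], [(0, 12), (30, 86)], [(0, 100)], [(0, 100)], [(0, 100)], [(0, 100)], [(0, 100)], [(0, 100)], [(0, 100)], [(0, 100)], [(0, 100)], [(0, 100)], [(0, 19), (27, 2), (7, 77)], [(0, 100)], [(0, 20), (28, 2), (5, 32), (7, 45)], [(0, 100)], [(0, 14), (27, 42), (12, 43)], [(0, 100)], [(0, 100)], [(0, 100)], [(0, 100)], [(0, 100)], [(0, 100)], [(0, 100)]],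
  [[(0, 100)], [(0, 100)], [(0, 2), (30, 97)], [(0, 23), (35, 76)], [(0, 14), (35, 42), (30, 42)], [(0, 32), (35, 67)], [(0, 31), (35, 68)], [(0, 45), (35, 54)], [(0, 30), (35, 69)], [(0, 1), (30, 98)], [(0, 28), (35, 70)], [(0, 3), (30, 96)], [(0, 5), (30, 94)], [(0, 24), (35, 75)], [(0, 4), (30, 95)], [(24, 100)], [(0, 40), (35, 59)], [(24, 100)], [(0, 29), (35, 70)], [(0, 7), (30, 91)], [(0, 27), (35, 72)], [(24, 100)], [(0, 100)], [(0, 100)], [(0, 100)], [(0, 100)], [(0, 100)], [(0, 100)], [(0, 100)], [(0, 100)], [(0, 100)], [(0, 100)], [(0, 5), (27, 1), (7, 91)], [(0, 100)], [(7, 100)], [(0, 100)], [(27, 24), (22, 10), (12, 64)], [(0, 100)], [(0, 22), (27, 12), (12, 65)], [(0, 100)], [(0, 100)], [(0, 100)], [(0, 100)], [(0, 100)]],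
  [[(0, 100)], [(1, 100)], [(23, 1), (12, 99)], [(5, 100)], [(22, 1), (5, 49), (12, 48)], [(0, 1), (7, 97)], [(7, 100)], [(0, 1), (27, 1), (7, 95)], [(7, 100)], [(12, 31), (23, 2), (11, 66)], [(28, 1), (7, 97)], [(23, 3), (12, 87), (19, 8)], [(23, 1), (12, 98)], [(27, 1), (7, 97)], [(23, 1), (12, 98)], [(11, 100)], [(0, 2), (7, 24), (5, 72)], [(9, 100)], [(28, 1), (7, 97)], [(23, 4), (12, 75), (19, 19)], [(5, 100)], [(19, 100)], [(0, 100)], [(1, 100)], [(0, 16), (30, 83)], [(24, 100)], [(0, 100)], [(0, 100)], [(0, 100)], [(24, 100)], [(0, 6), (30, 92)], [(0, 29), (30, 70)], [(1, 12), (32, 87)], [(1, 100)], [(23, 2), (1, 7), (34, 89)], [(0, 30), (35, 69)], [(1, 29), (36, 70)], [(0, 100)], [(38, 4), (1, 44), (36, 50)], [(1, 100)], [(1, 100)], [(0, 100)], [(23, 100)], [(0, 100)]],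
  [[(0, 100)], [(1, 100)], [(22, 5), (23, 18), (33, 4), (12, 971)], [(5, 100)], [(22, 3), (5, 48), (12, 47)], [(0, 2), (27, 1), (7, 94)], [(0, 2), (27, 1), (7, 95)], [(0, 4), (27, 3), (28, 1), (7, 91)], [(0, 2), (28, 1), (7, 95)], [(12, 95), (23, 4)], [(0, 1), (27, 1), (28, 1), (7, 95)], [(23, 6), (12, 93)], [(22, 1), (23, 2), (12, 96)], [(7, 94), (27, 3)], [(22, 1), (23, 2), (12, 96)], [(22, 1), (23, 2), (12, 96)], [(0, 4), (7, 94)], [(11, 100)], [(0, 1), (27, 1), (28, 2), (7, 95)], [(22, 1), (23, 7), (12, 90)], [(5, 100)], [(23, 3), (12, 95)], [(0, 100)], [(1, 100)], [(0, 28), (30, 70)], [(24, 100)], [(0, 100)], [(0, 100)], [(0, 100)], [(0, 21), (30, 77)], [(0, 13), (30, 85)], [(0, 45), (30, 54)], [(1, 23), (32, 76)], [(0, 100)], [(23, 6), (1, 13), (34, 80)], [(0, 48), (35, 51)], [(1, 46), (36, 53)], [(0, 100)], [(1, 100)], [(1, 100)], [(1, 100)], [(0, 100)], [(1, 100)], [(0, 100)]],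
  [[(0, 100)], [(1, 100)], [(23, 11), (1, 10), (34, 78)], [(2, 100)], [(22, 9), (23, 13), (19, 39), (34, 37)], [(27, 11), (22, 11), (12, 77)], [(27, 14), (22, 6), (12, 79)], [(27, 15), (22, 18), (12, 66)], [(27, 14), (22, 4), (12, 80)], [(1, 21), (32, 78)], [(27, 10), (22, 9), (12, 79)], [(1, 33), (32, 66)], [(23, 25), (1, 4), (34, 69)], [(22, 20), (23, 3), (12, 74)], [(23, 20), (1, 7), (34, 71)], [(23, 17), (1, 9), (34, 73)], [(0, 6), (27, 11), (12, 81)], [(32, 100)], [(27, 10), (22, 10), (12, 78)], [(23, 8), (1, 38), (34, 53)], [(11, 100)], [(23, 8), (1, 19), (34, 72)], [(0, 100)], [(0, 100)], [(0, 100)], [(7, 100)], [(0, 100)], [(0, 100)], [(0, 100)], [(0, 41), (27, 1), (7, 56)], [(0, 29), (27, 1), (28, 1), (7, 67)], [(0, 100)], [(1, 43), (36, 56)], [(0, 100)], [(1, 44), (36, 55)], [(0, 100)], [(1, 100)], [(0, 100)], [(1, 100)], [(1, 100)], [(1, 100)], [(0, 100)], [(1, 100)], [(0, 100)]],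
  [[(0, 100)], [(1, 100)], [(23, 7), (1, 11), (34, 81)], [(9, 100)], [(22, 7), (23, 12), (19, 40), (34, 38)], [(27, 7), (22, 12), (12, 79)], [(27, 10), (22, 8), (12, 81)], [(27, 9), (22, 20), (12, 69)], [(27, 10), (22, 6), (12, 83)], [(1, 17), (32, 82)], [(27, 7), (22, 10), (12, 82)], [(1, 27), (32, 72)], [(23, 19), (1, 7), (34, 72)], [(22, 17), (23, 4), (12, 78)], [(23, 14), (1, 10), (34, 74)], [(23, 12), (1, 11), (34, 76)], [(0, 4), (27, 11), (12, 83)], [(32, 100)], [(27, 6), (22, 12), (12, 81)], [(23, 1), (1, 41), (34, 56)], [(9, 100)], [(23, 3), (1, 21), (34, 74)], [(0, 100)], [(0, 100)], [(0, 44), (27, 1), (7, 53)], [(5, 100)], [(0, 100)], [(0, 100)], [(0, 100)], [(7, 100)], [(0, 24), (27, 1), (28, 1), (7, 72)], [(0, 100)], [(1, 37), (36, 62)], [(0, 100)], [(1, 37), (36, 61)], [(0, 100)], [(1, 100)], [(0, 100)], [(1, 100)], [(1, 100)], [(1, 100)], [(0, 100)], [(1, 100)], [(0, 100)]],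
  [[(0, 100)], [(1, 100)], [(23, 3), (1, 12), (34, 83)], [(9, 100)], [(22, 5), (23, 12), (19, 41), (34, 40)], [(27, 3), (22, 13), (12, 82)], [(27, 5), (22, 9), (12, 84)], [(27, 3), (22, 22), (12, 73)], [(27, 6), (22, 7), (12, 85)], [(1, 12), (32, 87)], [(27, 3), (22, 11), (12, 84)], [(1, 21), (32, 78)], [(23, 12), (1, 10), (34, 76)], [(22, 12), (23, 5), (12, 81)], [(23, 8), (1, 13), (34, 78)], [(23, 6), (1, 13), (34, 79)], [(0, 2), (27, 10), (12, 86)], [(32, 100)], [(27, 2), (22, 13), (12, 84)], [(1, 36), (32, 63)], [(9, 100)], [(34, 64), (1, 21), (32, 14)], [(0, 100)], [(1, 100)], [(0, 37), (27, 1), (7, 60)], [(5, 100)], [(0, 100)], [(0, 100)], [(0, 100)], [(7, 100)], [(0, 19), (27, 1), (7, 78)], [(0, 100)], [(1, 30), (36, 69)], [(0, 100)], [(1, 30), (36, 69)], [(0, 100)], [(1, 100)], [(0, 100)], [(1, 100)], [(1, 100)], [(1, 100)], [(0, 100)], [(1, 100)], [(0, 100)]],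
  [[(0, 100)], [(1, 100)], [(1, 4), (32, 95)], [(9, 100)], [(23, 12), (19, 44), (34, 43)], [(22, 6), (23, 2), (12, 88), (19, 3)], [(22, 6), (23, 1), (12, 80), (19, 12)], [(22, 9), (23, 4), (12, 86)], [(22, 5), (23, 1), (12, 93)], [(1, 2), (32, 97)], [(22, 5), (23, 1), (12, 92)], [(1, 6), (32, 93)], [(1, 9), (32, 90)], [(22, 3), (23, 7), (12, 89)], [(1, 8), (32, 91)], [(32, 100)], [(27, 3), (22, 2), (12, 93)], [(32, 100)], [(22, 5), (23, 2), (12, 92)], [(1, 13), (32, 86)], [(9, 100)], [(1, 5), (32, 94)], [(0, 100)], [(1, 100)], [(0, 14), (27, 1), (7, 83)], [(5, 100)], [(0, 100)], [(0, 100)], [(0, 100)], [(5, 100)], [(0, 5), (27, 1), (7, 91)], [(0, 26), (7, 72)], [(1, 7), (36, 92)], [(1, 100)], [(1, 8), (36, 91)], [(0, 30), (30, 69)], [(39, 100)], [(0, 100)], [(40, 100)], [(1, 100)], [(1, 100)], [(0, 100)], [(1, 100)], [(0, 100)]],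
  [[(0, 100)], [(0, 100)], [(5, 100)], [(0, 8), (30, 90)], [(0, 4), (28, 1), (30, 46), (5, 47)], [(0, 12), (30, 86)], [(0, 12), (30, 86)], [(0, 20), (30, 79)], [(24, 100)], [(27, 1), (5, 99)], [(24, 100)], [(5, 97), (27, 2)], [(5, 100)], [(0, 8), (30, 90)], [(5, 100)], [(5, 100)], [(24, 100)], [(5, 100)], [(24, 100)], [(27, 3), (5, 95)], [(0, 10), (30, 88)], [(5, 100)], [(0, 100)], [(0, 100)], [(0, 100)], [(0, 100)], [(0, 100)], [(0, 100)], [(0, 100)], [(0, 100)], [(0, 36), (35, 63)], [(0, 100)], [(19, 100)], [(0, 100)], [(11, 100)], [(0, 100)], [(1, 100)], [(0, 100)], [(22, 21), (23, 23), (34, 54)], [(1, 100)], [(1, 100)], [(0, 100)], [(27, 100)], [(0, 100)]],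
  [[(0, 100)], [(0, 100)], [(24, 100)], [(0, 100)], [(0, 100)], [(0, 100)], [(0, 100)], [(0, 100)], [(0, 100)], [(0, 5), (28, 23), (30, 71)], [(0, 100)], [(0, 12), (28, 26), (30, 60)], [(24, 100)], [(0, 100)], [(24, 100)], [(0, 24), (28, 11), (30, 63)], [(0, 100)], [(24, 100)], [(0, 100)], [(0, 27), (28, 26), (30, 46)], [(0, 100)], [(0, 18), (28, 15), (30, 65)], [(0, 100)], [(0, 100)], [(0, 100)], [(0, 100)], [(0, 100)], [(0, 100)], [(0, 100)], [(0, 100)], [(0, 100)], [(0, 100)], [(22, 100)], [(0, 100)], [(5, 100)], [(0, 100)], [(0, 100)], [(0, 100)], [(0, 100)], [(0, 100)], [(0, 100)], [(0, 100)], [(0, 100)], [(0, 100)]],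
  [[(0, 100)], [(1, 100)], [(23, 1), (12, 98)], [(5, 100)], [(12, 48), (22, 2), (5, 49)], [(27, 1), (7, 97)], [(0, 8), (27, 6), (28, 7), (7, 977)], [(0, 1), (27, 2), (7, 95)], [(28, 1), (7, 97)], [(23, 1), (11, 97)], [(28, 1), (7, 97)], [(12, 45), (23, 4), (11, 50)], [(22, 5), (23, 15), (33, 2), (12, 976)], [(27, 1), (7, 97)], [(23, 1), (12, 97)], [(11, 100)], [(7, 100)], [(9, 100)], [(28, 1), (7, 97)], [(23, 5), (12, 93)], [(5, 100)], [(19, 100)], [(0, 100)], [(1, 100)], [(0, 15), (30, 84)], [(24, 100)], [(0, 100)], [(0, 100)], [(0, 100)], [(24, 100)], [(0, 6), (30, 93)], [(0, 28), (30, 71)], [(1, 11), (32, 88)], [(1, 100)], [(1, 11), (34, 88)], [(0, 28), (35, 70)], [(1, 27), (36, 72)], [(0, 100)], [(1, 43), (36, 56)], [(1, 100)], [(1, 100)], [(0, 100)], [(1, 100)], [(0, 100)]],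
  [[(0, 100)], [(0, 100)], [(5, 100)], [(0, 10), (30, 89)], [(0, 5), (28, 1), (30, 46), (5, 47)], [(0, 15), (30, 84)], [(0, 15), (30, 84)], [(0, 23), (30, 75)], [(24, 100)], [(5, 98), (27, 1)], [(24, 100)], [(27, 2), (5, 97)], [(5, 100)], [(0, 10), (30, 88)], [(5, 100)], [(5, 100)], [(24, 100)], [(5, 100)], [(24, 100)], [(0, 1), (27, 2), (5, 95)], [(0, 12), (30, 86)], [(7, 100)], [(0, 100)], [(0, 100)], [(0, 100)], [(0, 100)], [(0, 100)], [(0, 100)], [(0, 100)], [(0, 100)], [(0, 41), (35, 58)], [(0, 100)], [(11, 100)], [(0, 100)], [(2, 100)], [(0, 100)], [(23, 100)], [(0, 100)], [(32, 100)], [(1, 100)], [(0, 100)], [(0, 100)], [(0, 100)], [(0, 100)]],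
  [[(0, 100)], [(1, 100)], [(23, 1), (12, 98)], [(5, 100)], [(12, 48), (22, 2), (5, 49)], [(27, 1), (28, 1), (7, 97)], [(28, 1), (7, 97)], [(0, 1), (27, 2), (28, 1), (7, 95)], [(28, 1), (7, 97)], [(23, 1), (11, 97)], [(28, 1), (7, 97)], [(12, 11), (23, 4), (11, 83)], [(22, 5), (23, 16), (33, 3), (12, 974)], [(26, 1), (7, 97)], [(23, 1), (12, 97)], [(19, 100)], [(0, 1), (28, 1), (5, 75), (7, 21)], [(9, 100)], [(7, 97), (28, 2)], [(23, 6), (12, 93)], [(5, 100)], [(19, 100)], [(0, 100)], [(1, 100)], [(0, 15), (30, 83)], [(24, 100)], [(0, 100)], [(0, 100)], [(0, 100)], [(24, 100)], [(0, 6), (30, 92)], [(0, 28), (30, 71)], [(1, 11), (32, 87)], [(1, 100)], [(34, 77), (1, 12), (32, 10)], [(0, 29), (35, 70)], [(1, 28), (36, 71)], [(0, 100)], [(1, 43), (36, 56)], [(1, 100)], [(1, 100)], [(0, 100)], [(1, 100)], [(0, 100)]],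
  [[(0, 100)], [(0, 100)], [(5, 100)], [(0, 11), (30, 88)], [(0, 5), (28, 1), (30, 45), (5, 47)], [(0, 16), (30, 83)], [(0, 16), (30, 83)], [(0, 25), (30, 74)], [(24, 100)], [(5, 98), (27, 1)], [(24, 100)], [(27, 2), (5, 97)], [(5, 100)], [(0, 11), (30, 87)], [(5, 100)], [(5, 100)], [(24, 100)], [(5, 100)], [(24, 100)], [(0, 1), (27, 2), (5, 95)], [(0, 13), (30, 85)], [(27, 1), (5, 97)], [(0, 100)], [(0, 100)], [(0, 100)], [(0, 100)], [(0, 100)], [(0, 100)], [(0, 100)], [(0, 100)], [(0, 43), (35, 56)], [(0, 100)], [(19, 100)], [(0, 100)], [(2, 100)], [(0, 100)], [(23, 100)], [(0, 100)], [(32, 100)], [(1, 100)], [(0, 100)], [(0, 100)], [(0, 100)], [(0, 100)]],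
  [[(0, 100)], [(1, 100)], [(23, 13), (33, 5), (12, 980)], [(5, 100)], [(12, 47), (22, 2), (5, 49)], [(27, 1), (28, 1), (7, 97)], [(28, 1), (7, 97)], [(0, 1), (27, 2), (28, 1), (7, 94)], [(28, 1), (7, 97)], [(23, 2), (11, 97)], [(28, 2), (7, 97)], [(12, 11), (23, 4), (11, 83)], [(22, 5), (23, 17), (33, 4), (12, 973)], [(26, 1), (28, 1), (7, 96)], [(23, 2), (12, 97)], [(19, 100)], [(0, 1), (28, 1), (5, 96)], [(2, 100)], [(7, 96), (28, 2)], [(23, 6), (12, 93)], [(5, 100)], [(23, 2), (12, 97)], [(0, 100)], [(1, 100)], [(0, 16), (30, 83)], [(24, 100)], [(0, 100)], [(0, 100)], [(0, 100)], [(24, 100)], [(0, 6), (30, 92)], [(0, 29), (30, 70)], [(1, 12), (32, 87)], [(1, 100)], [(34, 76), (1, 12), (32, 11)], [(0, 30), (35, 69)], [(1, 29), (36, 70)], [(0, 100)], [(1, 44), (36, 54)], [(1, 100)], [(1, 100)], [(0, 100)], [(1, 100)], [(0, 100)]]]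

theorem okFB : chkRect eB LB 10001 10000 LB LF cFB = true := by decide +kernel

end Pool.Agent.Lib.MP_dbb03c_co.Cone
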