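import Pool.Agent.Lib.MP_dbb03c_co.Cone.Data

/-! # Certificate data (generated) -/

namespace Pool.Agent.Lib.MP_dbb03c_co.Cone

def cBB : List (List (List (ℕ × ℕ))) := [
  [[(0, 100)], [(0, 100)], [(0, 100)], [(0, 100)], [(0, 100)], [(0, 100)], [(0, 100)], [(0, 100)], [(0, 100)], [(0, 100)], [(0, 100)], [(0, 100)], [(0, 100)], [(0, 100)], [(0, 100)], [(0, 100)], [(0, 100)], [(0, 100)], [(0, 100)], [(0, 100)], [(0, 100)], [(0, 100)], [(0, 100)], [(0, 100)], [(0, 100)], [(0, 100)], [(0, 100)], [(0, 100)], [(0, 100)], [(0, 100)], [(0, 100)], [(0, 100)], [(0, 100)], [(0, 100)], [(0, 100)], [(0, 100)], [(0, 100)], [(0, 100)], [(0, 100)], [(0, 100)], [(0, 100)], [(0, 100)], [(0, 100)], [(0, 100)]],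
  [[(0, 100)], [(1, 100)], [(0, 100)], [(1, 100)], [(0, 100)], [(0, 100)], [(0, 100)], [(0, 100)], [(1, 100)], [(0, 100)], [(1, 100)], [(1, 100)], [(0, 100)], [(1, 100)], [(1, 100)], [(0, 100)], [(1, 100)], [(0, 100)], [(1, 100)], [(0, 100)], [(1, 100)], [(0, 100)], [(0, 100)], [(0, 100)], [(0, 100)], [(0, 100)], [(0, 100)], [(0, 100)], [(0, 100)], [(0, 100)], [(0, 100)], [(1, 100)], [(0, 100)], [(1, 100)], [(0, 100)], [(0, 100)], [(0, 100)], [(0, 100)], [(0, 100)], [(0, 100)], [(0, 100)], [(0, 100)], [(0, 100)]],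
  [[(23, 1), (12, 97)], [(5, 100)], [(12, 47), (22, 2), (5, 49)], [(27, 1), (28, 1), (7, 96)], [(28, 1), (7, 97)], [(0, 1), (27, 2), (28, 1), (7, 94)], [(28, 1), (7, 97)], [(23, 2), (11, 97)], [(28, 2), (7, 97)], [(12, 40), (23, 4), (11, 54)], [(22, 5), (23, 18), (33, 4), (12, 971)], [(26, 1), (28, 1), (7, 96)], [(23, 1), (12, 97)], [(19, 100)], [(7, 100)], [(2, 100)], [(28, 2), (7, 96)], [(23, 6), (12, 92)], [(5, 100)], [(19, 100)], [(0, 100)], [(1, 100)], [(0, 17), (30, 81)], [(24, 100)], [(0, 100)], [(0, 100)], [(0, 100)], [(24, 100)], [(0, 7), (30, 91)], [(0, 31), (30, 68)], [(1, 13), (32, 86)], [(1, 100)], [(34, 84), (1, 13), (32, 1)], [(0, 32), (35, 67)], [(1, 31), (36, 68)], [(0, 100)], [(1, 47), (36, 52)], [(1, 100)], [(1, 100)], [(0, 100)], [(1, 100)], [(0, 100)]],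
  [[(0, 12), (30, 87)], [(0, 6), (28, 1), (30, 45), (5, 46)], [(0, 17), (30, 82)], [(0, 17), (30, 82)], [(0, 26), (30, 72)], [(24, 100)], [(5, 98), (27, 1)], [(24, 100)], [(27, 2), (5, 96)], [(5, 100)], [(0, 12), (30, 86)], [(5, 100)], [(5, 100)], [(24, 100)], [(3, 100)], [(24, 100)], [(0, 1), (27, 3), (5, 94)], [(0, 14), (30, 84)], [(7, 100)], [(0, 100)], [(0, 100)], [(0, 100)], [(0, 100)], [(0, 100)], [(0, 100)], [(0, 100)], [(0, 100)], [(0, 45), (35, 54)], [(0, 100)], [(11, 100)], [(0, 100)], [(2, 100)], [(0, 100)], [(1, 100)], [(0, 100)], [(32, 100)], [(1, 100)], [(0, 100)], [(0, 100)], [(0, 100)], [(0, 100)]],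
  [[(3, 100)], [(0, 8), (28, 3), (30, 43), (5, 44)], [(0, 8), (28, 2), (30, 44), (5, 44)], [(0, 13), (28, 5), (30, 40), (5, 40)], [(0, 8), (28, 2), (30, 44), (5, 44)], [(33, 3), (5, 47), (12, 48)], [(0, 7), (28, 2), (30, 45), (5, 44)], [(22, 1), (33, 4), (5, 46), (12, 47)], [(22, 3), (5, 48), (12, 47)], [(0, 3), (28, 7), (30, 44), (5, 44)], [(22, 4), (5, 48), (12, 47)], [(5, 48), (22, 3), (12, 47)], [(0, 13), (30, 42), (5, 42)], [(4, 100)], [(0, 7), (28, 3), (30, 45), (5, 44)], [(22, 5), (33, 4), (5, 44), (12, 45)], [(0, 7), (28, 2), (30, 44), (5, 45)], [(22, 2), (33, 1), (5, 47), (12, 48)], [(0, 100)], [(0, 100)], [(0, 100)], [(0, 100)], [(0, 100)], [(0, 100)], [(0, 100)], [(0, 44), (35, 27), (30, 27)], [(0, 31), (35, 34), (30, 34)], [(0, 100)], [(23, 31), (1, 3), (9, 32), (34, 32)], [(0, 100)], [(22, 3), (23, 12), (19, 43), (34, 40)], [(0, 100)], [(1, 100)], [(0, 100)], [(1, 100)],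 [(1, 100)], [(1, 100)], [(0, 100)], [(22, 100)], [(0, 100)]],
  [[(0, 23), (30, 75)], [(0, 23), (30, 75)], [(0, 34), (28, 1), (30, 63)], [(0, 22), (30, 76)], [(7, 97), (27, 2)], [(0, 21), (30, 77)], [(7, 94), (27, 4)], [(0, 2), (27, 1), (7, 94)], [(0, 17), (28, 1), (30, 80)], [(0, 1), (27, 1), (7, 95)], [(7, 100)], [(0, 30), (30, 68)], [(5, 100)], [(0, 21), (30, 77)], [(0, 1), (27, 6), (7, 91)], [(0, 20), (30, 78)], [(0, 1), (27, 2), (7, 78), (5, 17)], [(0, 100)], [(0, 100)], [(0, 100)], [(0, 100)], [(0, 100)], [(0, 100)], [(0, 100)], [(0, 100)], [(0, 100)], [(0, 100)], [(22, 12), (23, 9), (12, 78)], [(0, 100)], [(12, 84), (22, 14)], [(0, 100)], [(1, 100)], [(0, 100)], [(23, 100)], [(0, 100)], [(0, 100)], [(0, 100)], [(0, 100)], [(0, 100)]],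
  [[(0, 23), (30, 75)], [(0, 34), (28, 1), (30, 64)], [(0, 22), (30, 76)], [(7, 97), (27, 2)], [(0, 21), (30, 78)], [(27, 3), (7, 95)], [(0, 2), (27, 1), (7, 95)], [(0, 17), (28, 1), (30, 81)], [(0, 2), (27, 1), (7, 95)], [(7, 100)], [(0, 30), (30, 69)], [(5, 100)], [(0, 21), (30, 77)], [(0, 2), (27, 5), (7, 92)], [(0, 20), (30, 78)], [(7, 100)], [(0, 100)], [(0, 100)], [(0, 100)], [(0, 100)], [(0, 100)], [(0, 100)], [(0, 100)], [(0, 100)], [(0, 100)], [(0, 100)], [(22, 12), (23, 6), (12, 80)], [(0, 100)], [(27, 2), (22, 10), (12, 86)], [(0, 100)], [(1, 100)], [(0, 100)], [(23, 100)], [(0, 100)], [(0, 100)], [(0, 100)], [(0, 100)], [(0, 100)]],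
  [[(0, 47), (28, 1), (30, 50)], [(0, 33), (30, 65)], [(7, 94), (27, 4), (26, 1)], [(0, 31), (28, 1), (30, 66)], [(27, 7), (7, 91)], [(0, 4), (27, 3), (28, 1), (7, 91)], [(0, 26), (28, 3), (30, 70)], [(0, 3), (27, 3), (7, 92)], [(0, 2), (27, 3), (7, 93)], [(0, 43), (30, 56)], [(7, 100)], [(0, 32), (28, 1), (30, 66)], [(0, 2), (27, 10), (7, 86)], [(0, 30), (28, 1), (30, 68)], [(0, 1), (27, 4), (7, 93)], [(0, 100)], [(0, 100)], [(0, 100)], [(0, 100)], [(0, 100)], [(0, 100)], [(0, 100)], [(0, 100)], [(0, 100)], [(0, 100)], [(22, 18), (23, 14), (12, 67)], [(0, 100)], [(22, 22), (12, 76)], [(0, 100)], [(1, 100)], [(0, 100)], [(1, 100)], [(0, 100)], [(0, 100)], [(0, 100)], [(0, 100)], [(0, 100)]],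
  [[(0, 21), (30, 78)], [(27, 1), (7, 97)], [(0, 20), (30, 79)], [(27, 3), (7, 95)], [(0, 2), (28, 1), (7, 95)], [(0, 16), (28, 1), (30, 82)], [(0, 1), (28, 1), (7, 96)], [(7, 100)], [(0, 29), (30, 70)], [(5, 100)], [(0, 20), (30, 78)], [(0, 2), (27, 4), (7, 92)], [(24, 100)], [(7, 100)], [(0, 100)], [(0, 100)], [(0, 100)], [(0, 100)], [(0, 100)], [(0, 100)], [(0, 100)], [(0, 100)], [(0, 100)], [(0, 100)], [(22, 12), (23, 5), (12, 81)], [(0, 100)], [(27, 3), (22, 8), (12, 87)], [(0, 100)], [(1, 100)], [(0, 100)], [(22, 33), (23, 25), (34, 41)], [(1, 100)], [(0, 100)], [(0, 100)], [(0, 100)], [(0, 100)]],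
  [[(1, 3), (9, 96)], [(27, 1), (7, 97)], [(1, 5), (11, 94)], [(12, 95), (23, 4)], [(22, 2), (26, 1), (5, 95)], [(12, 14), (23, 4), (11, 81)], [(19, 100)], [(0, 1), (7, 97)], [(9, 100)], [(26, 1), (7, 97)], [(23, 4), (1, 4), (11, 91)], [(27, 1), (5, 97)], [(23, 2), (1, 1), (11, 96)], [(0, 100)], [(1, 100)], [(0, 12), (30, 86)], [(0, 10), (30, 88)], [(1, 100)], [(0, 100)], [(0, 100)], [(0, 8), (30, 90)], [(0, 4), (28, 1), (30, 94)], [(0, 23), (30, 75)], [(1, 9), (32, 90)], [(1, 100)], [(1, 9), (32, 90)], [(0, 24), (35, 75)], [(1, 23), (36, 76)], [(0, 100)], [(1, 37), (36, 62)], [(1, 100)], [(1, 100)], [(0, 100)], [(1, 100)], [(0, 100)]],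
  [[(0, 19), (30, 79)], [(27, 3), (7, 95)], [(0, 1), (27, 1), (28, 1), (7, 95)], [(0, 15), (28, 1), (30, 82)], [(0, 1), (27, 1), (28, 1), (7, 95)], [(7, 100)], [(0, 27), (30, 71)], [(5, 100)], [(0, 19), (30, 79)], [(0, 1), (27, 5), (7, 92)], [(24, 100)], [(27, 1), (7, 96)], [(0, 100)], [(0, 100)], [(0, 100)], [(0, 100)], [(0, 100)], [(0, 100)], [(0, 100)], [(0, 100)], [(0, 100)], [(0, 100)], [(22, 11), (23, 7), (12, 80)], [(0, 100)], [(22, 12), (12, 86)], [(0, 100)], [(1, 100)], [(0, 100)], [(23, 100)], [(1, 100)], [(0, 100)], [(0, 100)], [(0, 100)], [(0, 100)]],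
  [[(23, 3), (1, 5), (11, 91)], [(23, 6), (12, 93)], [(22, 3), (26, 1), (7, 94)], [(23, 6), (12, 93)], [(23, 5), (12, 55), (19, 38)], [(0, 2), (27, 1), (7, 95)], [(11, 100)], [(27, 2), (28, 1), (7, 95)], [(23, 10), (1, 3), (11, 86)], [(5, 95), (27, 4)], [(23, 5), (1, 1), (11, 93)], [(0, 100)], [(1, 100)], [(0, 20), (28, 1), (30, 77)], [(0, 18), (28, 1), (30, 80)], [(0, 100)], [(0, 100)], [(0, 100)], [(0, 15), (28, 1), (30, 83)], [(0, 8), (28, 1), (30, 89)], [(0, 36), (30, 63)], [(1, 16), (32, 83)], [(1, 100)], [(1, 16), (32, 83)], [(0, 38), (35, 61)], [(1, 36), (36, 62)], [(0, 100)], [(1, 100)], [(1, 100)], [(1, 100)], [(0, 100)], [(1, 100)], [(0, 100)]],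
  [[(22, 1), (23, 2), (12, 96)], [(7, 94), (27, 3)], [(22, 1), (23, 2), (12, 96)], [(22, 1), (23, 2), (12, 96)], [(0, 4), (7, 94)], [(11, 100)], [(0, 1), (27, 1), (28, 2), (7, 95)], [(22, 1), (23, 7), (12, 90)], [(5, 100)], [(23, 3), (12, 95)], [(0, 100)], [(1, 100)], [(0, 28), (30, 70)], [(24, 100)], [(0, 100)], [(0, 100)], [(0, 100)], [(0, 21), (30, 77)], [(0, 13), (30, 85)], [(0, 45), (30, 54)], [(1, 23), (32, 76)], [(0, 100)], [(23, 6), (1, 13), (34, 80)], [(0, 48), (35, 51)], [(1, 46), (36, 53)], [(0, 100)], [(1, 100)], [(1, 100)], [(1, 100)], [(0, 100)], [(1, 100)], [(0, 100)]],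
  [[(0, 11), (28, 4), (30, 84)], [(27, 3), (7, 95)], [(7, 100)], [(0, 23), (30, 75)], [(5, 100)], [(0, 15), (28, 1), (30, 82)], [(27, 4), (22, 3), (26, 1), (7, 90)], [(0, 14), (28, 1), (30, 83)], [(27, 1), (22, 1), (7, 96)], [(0, 100)], [(0, 100)], [(0, 100)], [(0, 100)], [(0, 100)], [(0, 100)], [(0, 100)], [(0, 100)], [(0, 46), (35, 52)], [(0, 100)], [(22, 5), (23, 22), (12, 71)], [(0, 100)], [(22, 9), (23, 5), (12, 84)], [(0, 100)], [(1, 100)], [(0, 100)], [(1, 100)], [(1, 100)], [(0, 100)], [(0, 100)], [(0, 100)], [(0, 100)]],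
  [[(23, 2), (12, 96)], [(19, 100)], [(0, 3), (7, 95)], [(9, 100)], [(0, 1), (27, 1), (28, 1), (7, 95)], [(22, 1), (23, 7), (12, 91)], [(5, 100)], [(23, 3), (12, 92), (19, 3)], [(0, 100)], [(1, 100)], [(0, 25), (30, 74)], [(24, 100)], [(0, 100)], [(0, 100)], [(0, 100)], [(24, 100)], [(0, 11), (30, 87)], [(0, 41), (30, 58)], [(1, 20), (32, 79)], [(0, 100)], [(23, 3), (1, 14), (34, 81)], [(0, 43), (35, 55)], [(1, 42), (36, 57)], [(0, 100)], [(1, 100)], [(1, 100)], [(1, 100)], [(0, 100)], [(1, 100)], [(0, 100)]],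
  [[(9, 100)], [(5, 100)], [(9, 100)], [(7, 100)], [(23, 7), (12, 43), (19, 48)], [(5, 100)], [(9, 100)], [(0, 100)], [(1, 100)], [(0, 23), (30, 76)], [(24, 100)], [(0, 100)], [(0, 100)], [(0, 100)], [(24, 100)], [(24, 100)], [(24, 100)], [(1, 18), (32, 81)], [(0, 100)], [(23, 2), (1, 14), (34, 82)], [(0, 41), (35, 58)], [(1, 39), (36, 60)], [(0, 100)], [(1, 100)], [(1, 100)], [(1, 100)], [(0, 100)], [(1, 100)], [(0, 100)]],
  [[(0, 38), (30, 61)], [(5, 100)], [(0, 28), (30, 71)], [(0, 5), (27, 2), (7, 91)], [(0, 27), (30, 72)], [(7, 100)], [(0, 100)], [(0, 100)], [(0, 100)], [(0, 100)], [(0, 100)], [(0, 100)], [(0, 100)], [(0, 100)], [(0, 100)], [(0, 100)], [(27, 1), (22, 16), (12, 81)], [(0, 100)], [(0, 1), (27, 9), (12, 88)], [(0, 100)], [(23, 100)], [(0, 100)], [(22, 100)], [(0, 100)], [(0, 100)], [(0, 100)], [(0, 100)], [(0, 100)]],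
  [[(9, 100)], [(5, 100)], [(19, 100)], [(5, 100)], [(9, 100)], [(0, 100)], [(1, 100)], [(24, 100)], [(24, 100)], [(0, 100)], [(0, 100)], [(0, 100)], [(24, 100)], [(24, 100)], [(24, 100)], [(32, 100)], [(0, 100)], [(32, 100)], [(35, 100)], [(36, 100)], [(0, 100)], [(1, 100)], [(1, 100)], [(1, 100)], [(0, 100)], [(1, 100)], [(0, 100)]],
  [[(0, 20), (30, 79)], [(0, 1), (27, 5), (28, 1), (7, 92)], [(24, 100)], [(27, 2), (28, 1), (7, 96)], [(0, 100)], [(0, 100)], [(0, 100)], [(0, 100)], [(0, 100)], [(0, 100)], [(0, 100)], [(0, 100)], [(0, 100)], [(0, 100)], [(22, 11), (23, 8), (12, 79)], [(0, 100)], [(12, 86), (22, 13)], [(0, 100)], [(1, 100)], [(0, 100)], [(23, 100)], [(1, 100)], [(0, 100)], [(0, 100)], [(0, 100)], [(0, 100)]],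
  [[(23, 20), (12, 42), (19, 37)], [(0, 1), (27, 5), (5, 92)], [(23, 9), (12, 21), (19, 68)], [(0, 100)], [(1, 100)], [(0, 34), (28, 1), (30, 63)], [(0, 31), (28, 1), (30, 67)], [(0, 100)], [(0, 100)], [(0, 100)], [(0, 27), (28, 1), (30, 71)], [(0, 17), (28, 1), (30, 80)], [(0, 100)], [(1, 29), (32, 70)], [(0, 100)], [(1, 29), (32, 70)], [(0, 100)], [(1, 100)], [(0, 100)], [(1, 100)], [(1, 100)], [(1, 100)], [(0, 100)], [(1, 100)], [(0, 100)]],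
  [[(0, 17), (30, 81)], [(27, 2), (5, 96)], [(0, 100)], [(0, 100)], [(0, 100)], [(0, 100)], [(0, 100)], [(0, 100)], [(0, 100)], [(0, 100)], [(0, 100)], [(0, 100)], [(19, 100)], [(0, 100)], [(2, 100)], [(0, 100)], [(1, 100)], [(0, 100)], [(23, 100)], [(1, 100)], [(0, 100)], [(0, 100)], [(0, 100)], [(0, 100)]],
  [[(19, 100)], [(0, 100)], [(1, 100)], [(0, 20), (30, 79)], [(0, 17), (30, 81)], [(0, 100)], [(0, 100)], [(0, 100)], [(0, 15), (30, 84)], [(0, 8), (30, 90)], [(0, 34), (30, 64)], [(1, 15), (32, 84)], [(1, 100)], [(34, 3), (1, 16), (32, 80)], [(0, 36), (35, 63)], [(1, 35), (36, 64)], [(0, 100)], [(1, 100)], [(1, 100)], [(1, 100)], [(0, 100)], [(1, 100)], [(0, 100)]],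
  [[(0, 100)], [(0, 100)], [(0, 100)], [(0, 100)], [(0, 100)], [(0, 100)], [(0, 100)], [(0, 100)], [(0, 100)], [(0, 100)], [(0, 100)], [(0, 100)], [(0, 100)], [(0, 100)], [(0, 100)], [(0, 100)], [(0, 100)], [(0, 100)], [(0, 100)], [(0, 100)], [(0, 100)], [(0, 100)]],
  [[(0, 100)], [(0, 100)], [(0, 100)], [(0, 100)], [(0, 100)], [(0, 100)], [(0, 100)], [(0, 100)], [(0, 100)], [(1, 100)], [(0, 100)], [(1, 100)], [(0, 100)], [(0, 100)], [(0, 100)], [(0, 100)], [(0, 100)], [(0, 100)], [(0, 100)], [(0, 100)], [(0, 100)]],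
  [[(0, 100)], [(0, 100)], [(0, 100)], [(0, 100)], [(0, 100)], [(0, 100)], [(0, 100)], [(0, 100)], [(0, 28), (27, 4), (7, 66)], [(0, 100)], [(0, 30), (28, 1), (7, 67)], [(0, 100)], [(0, 100)], [(0, 100)], [(0, 100)], [(0, 100)], [(0, 100)], [(0, 100)], [(0, 100)], [(0, 100)]],
  [[(0, 100)], [(0, 100)], [(0, 100)], [(0, 100)], [(0, 100)], [(0, 100)], [(0, 100)], [(7, 100)], [(0, 100)], [(5, 100)], [(0, 100)], [(0, 100)], [(0, 100)], [(0, 100)], [(0, 100)], [(0, 100)], [(0, 100)], [(0, 100)], [(0, 100)]],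
  [[(0, 100)], [(0, 100)], [(0, 100)], [(0, 100)], [(0, 100)], [(0, 100)], [(0, 100)], [(0, 100)], [(0, 100)], [(0, 100)], [(0, 100)], [(0, 100)], [(0, 100)], [(0, 100)], [(0, 100)], [(0, 100)], [(0, 100)], [(0, 100)]],
  [[(0, 100)], [(0, 100)], [(0, 100)], [(0, 100)], [(0, 100)], [(0, 100)], [(0, 100)], [(0, 100)], [(0, 100)], [(0, 100)], [(0, 100)], [(0, 100)], [(0, 100)], [(0, 100)], [(0, 100)], [(0, 100)], [(0, 100)]],
  [[(0, 100)], [(0, 100)], [(0, 100)], [(0, 100)], [(0, 100)], [(0, 100)], [(0, 100)], [(0, 100)], [(0, 100)], [(0, 100)], [(0, 100)], [(0, 100)], [(0, 100)], [(0, 100)], [(0, 100)], [(0, 100)]],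
  [[(0, 100)], [(0, 100)], [(0, 100)], [(0, 21), (27, 5), (7, 73)], [(0, 100)], [(7, 100)], [(0, 100)], [(22, 100)], [(0, 100)], [(0, 100)], [(0, 100)], [(0, 100)], [(0, 100)], [(0, 100)], [(0, 100)]],
  [[(0, 100)], [(0, 100)], [(0, 11), (27, 7), (7, 80)], [(0, 100)], [(0, 14), (27, 1), (28, 2), (7, 82)], [(0, 100)], [(22, 100)], [(0, 100)], [(0, 100)], [(0, 100)], [(0, 100)], [(0, 100)], [(0, 100)], [(0, 100)]],
  [[(0, 100)], [(0, 46), (27, 2), (7, 50)], [(0, 100)], [(0, 47), (28, 1), (7, 50)], [(0, 100)], [(0, 100)], [(0, 100)], [(0, 100)], [(0, 100)], [(0, 100)], [(0, 100)], [(0, 100)], [(0, 100)]],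
  [[(1, 23), (36, 76)], [(0, 100)], [(1, 23), (36, 76)], [(0, 100)], [(1, 100)], [(0, 100)], [(1, 100)], [(1, 100)], [(1, 100)], [(0, 100)], [(1, 100)], [(0, 100)]],
  [[(0, 100)], [(0, 100)], [(0, 100)], [(0, 100)], [(0, 100)], [(0, 100)], [(0, 100)], [(0, 100)], [(0, 100)], [(0, 100)], [(0, 100)]],
  [[(1, 23), (36, 76)], [(0, 100)], [(1, 100)], [(0, 100)], [(1, 100)], [(1, 100)], [(1, 100)], [(0, 100)], [(1, 100)], [(0, 100)]],
  [[(0, 100)], [(0, 100)], [(0, 100)], [(0, 100)], [(0, 100)], [(0, 100)], [(0, 100)], [(0, 100)], [(0, 100)]],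
  [[(1, 100)], [(0, 100)], [(1, 100)], [(41, 100)], [(1, 100)], [(0, 100)], [(1, 100)], [(0, 100)]],
  [[(0, 100)], [(0, 100)], [(0, 100)], [(0, 100)], [(0, 100)], [(0, 100)], [(0, 100)]],
  [[(1, 100)], [(1, 100)], [(0, 100)], [(0, 100)], [(0, 100)], [(0, 100)]],
  [[(0, 100)], [(0, 100)], [(0, 100)], [(0, 100)], [(0, 100)]],
  [[(0, 100)], [(0, 100)], [(0, 100)], [(0, 100)]],
  [[(0, 100)], [(0, 100)], [(0, 100)]],
  [[(0, 100)], [(0, 100)]],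
  [[(0, 100)]]]

theorem okBB : chkTri eB LB 10001 10000 LB cBB = true := by decide +kernel

end Pool.Agent.Lib.MP_dbb03c_co.Cone
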