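import Pool.Agent.Lib.MP_dbb03c_co.Cone.PiCheck
import Pool.Agent.Lib.MP_dbb03c_co.Cone.Cert1
import Pool.Agent.Lib.MP_dbb03c_co.Cone.Cert2
import Pool.Agent.Lib.MP_dbb03c_co.Cone.Cert3

/-!
# Every rooted tree lies in the hull of its class

`K.size - 1 - K.ht` is the number of vertices off a longest path from the root.
-/

namespace Pool.Agent.Lib.MP_dbb03c_co.Cone

open RT Matrix

theorem ht_lt_size (K : RT) : K.ht < K.size := by
  induction K with
  | pt => exact Nat.zero_lt_one
  | graft t c iht ihc =>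
    simp only [RT.ht, RT.size]
    omega

private theorem ht_pos (K : RT) (h : 2 ≤ K.size) : 1 ≤ K.ht := by
  cases K with
  | pt => simp [RT.size] at h
  | graft t c =>
    simp only [RT.ht]
    omega

/-- counts graftings with at least one side having two vertices off its longest path -/
def gn : RT → ℕ
  | .pt => 0
  | .graft .pt c => gn c
  | .graft (.graft a b) c => gn (.graft a b) + gn c +
      (if (RT.graft a b).ht + 3 ≤ (RT.graft a b).size ∨ c.ht + 3 ≤ c.size then 1 else 0)

theorem gn_eq_zero (K : RT) (h : K.size ≤ K.ht + 2) : gn K = 0 := by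
  induction K with
  | pt => rfl
  | graft t c iht ihc =>
    cases t with
    | pt =>
      simp only [RT.ht, RT.size] at h
      rw [gn]
      exact ihc (by omega)
    | graft a b =>
      have h1 := one_le_size a
      have h2 := one_le_size b
      have h3 := one_le_size c
      have h4 := ht_lt_size (RT.graft a b)
      have h5 := ht_lt_size c
      have e1 : (RT.graft (RT.graft a b) c).size = (RT.graft a b).size + c.size := rfl
      have e2 : (RT.graft (RT.graft a b) c).ht = max (RT.graft a b).ht (c.ht + 1) := rfl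
      have e3 : (RT.graft a b).size = a.size + b.size := rfl
      rw [e1, e2] at h
      rw [gn, iht (by omega), ihc (by omega), if_neg (by omega)]

private theorem gn_graft (t c : RT) (h : 2 ≤ t.size) : gn (RT.graft t c) =
    gn t + gn c + (if t.ht + 3 ≤ t.size ∨ c.ht + 3 ≤ c.size then 1 else 0) := by
  cases t with
  | pt => simp [RT.size] at h
  | graft a b => rw [gn]

private theorem gn_up (c : RT) : gn (up c) = gn c := by
  rw [up, gn]

private theorem size_up (c : RT) : (up c).size = c.size + 1 := by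
  rw [up, RT.size, RT.size]
  omega

private theorem ht_up (c : RT) : (up c).ht = c.ht + 1 := by
  rw [up, RT.ht, RT.ht]
  omega

/-- the hull statement for the five classes -/
structure Cl (K : RT) : Prop where
  one : K.size = 1 → K = .pt
  two : K.size = 2 → InH [v1] 1 (xh K)
  path : 3 ≤ K.size → K.size = K.ht + 1 → InH L2 1 (xh K)
  off1 : K.size = K.ht + 2 → InH LA 1 (xh K)
  off2 : K.ht + 3 ≤ K.size → InH LB ((10001 / 10000) ^ gn K) (xh K)

/-- a new root: `xh (up c) = P xh c`.  For `c = pt` use `p1L_le` (`q v1 ≤ p1L`), for two vertices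
`ok1P` (`InH.map_P`), for the other classes `ok2P`, `okAP`, `okBP`; `|up c| = |c| + 1`,
`ht (up c) = ht c + 1`, so the class does not change except `pt → two → path`. -/
theorem Cl.up {c : RT} (h : Cl c) : Cl (up c) := by
  have hs := size_up c
  have hh := ht_up c
  have h1 := one_le_size c
  have h5 := ht_lt_size c
  refine ⟨fun e => by omega, fun e => ?_, fun e e' => ?_, fun e => ?_, fun e => ?_⟩
  · have hc : c = .pt := h.one (by omega)
    subst hc
    refine (InH.of_mem (E := [v1]) (e := v1) (by simp)).mono le_rfl fun i => ?_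
    refine le_trans ?_ (p1L_le i)
    fin_cases i <;> simp [q, v1, p1L] <;> norm_num
  · rw [xh_up]
    rcases Nat.lt_or_ge c.size 3 with h3 | h3
    · refine (h.two (by omega)).map_P fun e he => ?_
      have he' : e = v1 := by simpa using he
      subst he'
      exact chkP_sound e2_mem ok1P
    · exact (h.path h3 (by omega)).map_P (chkPs_sound e2_mem ok2P)
  · rw [xh_up]
    exact (h.off1 (by omega)).map_P (chkPs_sound eA_mem okAP)
  · rw [xh_up, gn_up]
    exact (h.off2 (by omega)).map_P (chkPs_sound eB_mem okBP)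

/-- the four classes with at least two vertices -/
private theorem Cl.cases {K : RT} (h : Cl K) (h2 : 2 ≤ K.size) :
    (K.size = 2 ∧ InH [v1] 1 (xh K)) ∨
    (3 ≤ K.size ∧ K.size = K.ht + 1 ∧ InH L2 1 (xh K)) ∨
    (K.size = K.ht + 2 ∧ InH LA 1 (xh K)) ∨
    (K.ht + 3 ≤ K.size ∧ InH LB ((10001 / 10000) ^ gn K) (xh K)) := by
  have h5 := ht_lt_size K
  rcases Nat.lt_or_ge K.size 3 with h3 | h3
  · have h4 : K.size = 2 := by omega
    exact Or.inl ⟨h4, h.two h4⟩
  · rcases Nat.lt_or_ge K.size (K.ht + 2) with h6 | h6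
    · have h7 : K.size = K.ht + 1 := by omega
      exact Or.inr (Or.inl ⟨h3, h7, h.path h3 h7⟩)
    · rcases Nat.lt_or_ge K.size (K.ht + 3) with h8 | h8
      · have h7 : K.size = K.ht + 2 := by omega
        exact Or.inr (Or.inr (Or.inl ⟨h7, h.off1 h7⟩))
      · exact Or.inr (Or.inr (Or.inr ⟨h8, h.off2 h8⟩))

private theorem v1F : ∀ e ∈ [v1], e ∈ LF := by
  intro e he
  have he' : e = v1 := by simpa using he
  subst he'
  exact List.mem_cons_self

private theorem L2F : ∀ e ∈ L2, e ∈ LF := fun _ he =>
  List.mem_cons_of_mem _ (List.mem_append_left _ he)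

private theorem LAF : ∀ e ∈ LA, e ∈ LF := fun _ he =>
  List.mem_cons_of_mem _ (List.mem_append_right _ he)

private theorem mul1 {E1 E2 E3 : List Q} {x y : Fin 4 → ℝ} (h1 : InH E1 1 x) (h2 : InH E2 1 y)
    (hc : ∀ e ∈ E1, ∀ f ∈ E2, InH E3 (((1 : ℕ) : ℝ) / ((1 : ℕ) : ℝ)) fun i => kap i * q e i * q f i) :
    InH E3 1 fun i => kap i * x i * y i := by
  have := InH.mul zero_le_one (by norm_num) h1 h2 hc
  simpa using this

private theorem mul1' {E1 E2 E3 : List Q} {x y : Fin 4 → ℝ} (h1 : InH E1 1 x) (h2 : InH E2 1 y)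
    (hc : ∀ f ∈ E2, ∀ e ∈ E1, InH E3 (((1 : ℕ) : ℝ) / ((1 : ℕ) : ℝ)) fun i => kap i * q f i * q e i) :
    InH E3 1 fun i => kap i * x i * y i := by
  refine (mul1 h2 h1 hc).mono le_rfl fun i => le_of_eq (by ring)

private theorem mulB {E : List Q} {n m : ℕ} {x y : Fin 4 → ℝ}
    (h1 : InH E ((10001 / 10000 : ℝ) ^ n) x) (h2 : InH LB ((10001 / 10000 : ℝ) ^ m) y)
    (hc : ∀ e ∈ E, ∀ f ∈ LB, InH LB (((10001 : ℕ) : ℝ) / ((10000 : ℕ) : ℝ))
      fun i => kap i * q e i * q f i) :
    InH LB ((10001 / 10000 : ℝ) ^ (n + m + 1)) fun i => kap i * x i * y i := by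
  have := InH.mul (by positivity) (by positivity) h1 h2 hc
  refine this.mono (le_of_eq ?_) fun i => le_rfl
  rw [pow_succ, pow_add]
  push_cast
  ring

private theorem mulF {E : List Q} {m : ℕ} {x y : Fin 4 → ℝ}
    (h1 : InH E 1 x) (h2 : InH LB ((10001 / 10000 : ℝ) ^ m) y) (hE : ∀ e ∈ E, e ∈ LF) :
    InH LB ((10001 / 10000 : ℝ) ^ (m + 1)) fun i => kap i * x i * y i := by
  have h3 : InH LF ((10001 / 10000 : ℝ) ^ 0) x := by simpa using h1.subset hE
  have := mulB h3 h2 (chkRect_sound eB_mem (by norm_num) okFB)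
  rwa [zero_add] at this

private theorem mulF' {E : List Q} {m : ℕ} {x y : Fin 4 → ℝ}
    (h2 : InH LB ((10001 / 10000 : ℝ) ^ m) x) (h1 : InH E 1 y) (hE : ∀ e ∈ E, e ∈ LF) :
    InH LB ((10001 / 10000 : ℝ) ^ (m + 1)) fun i => kap i * x i * y i :=
  (mulF h1 h2 hE).mono le_rfl fun i => le_of_eq (by ring)

private theorem memv1 {R : Q → Prop} (h : R v1) : ∀ e ∈ [v1], R e := by
  intro e he
  have he' : e = v1 := by simpa using he
  subst he'
  exact h

/-- grafting at a root with at least one child: `xh (graft t c) = kap * xh t * xh (up c)`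
(definition and `xh_up`), bilinear closure `InH.mul` with the certificates
* two, two: `ok11`; two, path: `ok12` (and symmetric) - the result has one vertex off;
* path, path: `ok22`; two, off1: `ok1A`; path, off1: `ok2A`; off1, off1: `okAA` (result `LB`, gain one);
* one side in `LB`: `okFB` (`LF = v1 :: (L2 ++ LA)`, use `InH.subset`), both sides: `okBB`, gain `10001/10000`.
For `t` of class two/path/off1/off2 and `up c` likewise; sizes and heights by `omega`. -/
theorem Cl.graft {t c : RT} (ht : Cl t) (hc : Cl c) (h2 : 2 ≤ t.size) : Cl (RT.graft t c) := by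
  have hz : xh (RT.graft t c) = fun i => kap i * xh t i * xh (RT.up c) i := by
    rw [xh_up]
    rfl
  have hu := hc.up
  have s1 := size_up c
  have s2 := ht_up c
  have s3 := one_le_size c
  have s4 := ht_lt_size c
  have s5 := ht_lt_size t
  have s6 := ht_pos t h2
  have e1 : (RT.graft t c).size = t.size + c.size := rfl
  have e2 : (RT.graft t c).ht = max t.ht (c.ht + 1) := rfl
  have e3 := gn_graft t c h2
  have e4 := gn_up c
  have key : ((RT.graft t c).size = (RT.graft t c).ht + 2 ∧ InH LA 1 (xh (RT.graft t c))) ∨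
      ((RT.graft t c).ht + 3 ≤ (RT.graft t c).size ∧
        InH LB ((10001 / 10000) ^ gn (RT.graft t c)) (xh (RT.graft t c))) := by
    rw [hz]
    rcases ht.cases h2 with ⟨a1, a2⟩ | ⟨a1, a2, a3⟩ | ⟨a1, a2⟩ | ⟨a1, a2⟩
    · rcases hu.cases (by omega) with ⟨b1, b2⟩ | ⟨b1, b2, b3⟩ | ⟨b1, b2⟩ | ⟨b1, b2⟩
      · refine Or.inl ⟨by omega, mul1 a2 b2 (memv1 (memv1 ?_))⟩
        exact chkMul_sound eA_mem (by norm_num) ok11
      · exact Or.inl ⟨by omega, mul1 a2 b3 (memv1 (chkRow_sound eA_mem (by norm_num) ok12))⟩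
      · refine Or.inr ⟨by omega, ?_⟩
        rw [e3, gn_eq_zero t (by omega), gn_eq_zero c (by omega), if_neg (by omega)]
        simpa using mul1 a2 b2 (memv1 (chkRow_sound eB_mem (by norm_num) ok1A))
      · refine Or.inr ⟨by omega, ?_⟩
        rw [e3, gn_eq_zero t (by omega), if_pos (by omega), ← e4, zero_add]
        exact mulF a2 b2 v1F
    · rcases hu.cases (by omega) with ⟨b1, b2⟩ | ⟨b1, b2, b3⟩ | ⟨b1, b2⟩ | ⟨b1, b2⟩
      · exact Or.inl ⟨by omega, mul1' a3 b2 (memv1 (chkRow_sound eA_mem (by norm_num) ok12))⟩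
      · refine Or.inr ⟨by omega, ?_⟩
        rw [e3, gn_eq_zero t (by omega), gn_eq_zero c (by omega), if_neg (by omega)]
        simpa using mul1 a3 b3 (chkTri_sound eB_mem (by norm_num) ok22)
      · refine Or.inr ⟨by omega, ?_⟩
        rw [e3, gn_eq_zero t (by omega), gn_eq_zero c (by omega), if_neg (by omega)]
        simpa using mul1 a3 b2 (chkRect_sound eB_mem (by norm_num) ok2A)
      · refine Or.inr ⟨by omega, ?_⟩
        rw [e3, gn_eq_zero t (by omega), if_pos (by omega), ← e4, zero_add]
        exact mulF a3 b2 L2F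
    · rcases hu.cases (by omega) with ⟨b1, b2⟩ | ⟨b1, b2, b3⟩ | ⟨b1, b2⟩ | ⟨b1, b2⟩
      · refine Or.inr ⟨by omega, ?_⟩
        rw [e3, gn_eq_zero t (by omega), gn_eq_zero c (by omega), if_neg (by omega)]
        simpa using mul1' a2 b2 (memv1 (chkRow_sound eB_mem (by norm_num) ok1A))
      · refine Or.inr ⟨by omega, ?_⟩
        rw [e3, gn_eq_zero t (by omega), gn_eq_zero c (by omega), if_neg (by omega)]
        simpa using mul1' a2 b3 (chkRect_sound eB_mem (by norm_num) ok2A)
      · refine Or.inr ⟨by omega, ?_⟩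
        rw [e3, gn_eq_zero t (by omega), gn_eq_zero c (by omega), if_neg (by omega)]
        simpa using mul1 a2 b2 (chkTri_sound eB_mem (by norm_num) okAA)
      · refine Or.inr ⟨by omega, ?_⟩
        rw [e3, gn_eq_zero t (by omega), if_pos (by omega), ← e4, zero_add]
        exact mulF a2 b2 LAF
    · rcases hu.cases (by omega) with ⟨b1, b2⟩ | ⟨b1, b2, b3⟩ | ⟨b1, b2⟩ | ⟨b1, b2⟩
      · refine Or.inr ⟨by omega, ?_⟩
        rw [e3, gn_eq_zero c (by omega), if_pos (by omega), add_zero]
        exact mulF' a2 b2 v1F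
      · refine Or.inr ⟨by omega, ?_⟩
        rw [e3, gn_eq_zero c (by omega), if_pos (by omega), add_zero]
        exact mulF' a2 b3 L2F
      · refine Or.inr ⟨by omega, ?_⟩
        rw [e3, gn_eq_zero c (by omega), if_pos (by omega), add_zero]
        exact mulF' a2 b2 LAF
      · refine Or.inr ⟨by omega, ?_⟩
        rw [e3, if_pos (by omega), ← e4]
        exact mulB a2 b2 (chkTri_sound eB_mem (by norm_num) okBB)
  refine ⟨fun e => by omega, fun e => by omega, fun e e' => ?_, fun e => ?_, fun e => ?_⟩
  · rcases key with ⟨k1, _⟩ | ⟨k1, _⟩ <;> omega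
  · rcases key with ⟨_, k2⟩ | ⟨k1, _⟩
    · exact k2
    · omega
  · rcases key with ⟨k1, _⟩ | ⟨_, k2⟩
    · omega
    · exact k2

theorem cl (K : RT) : Cl K := by
  induction K with
  | pt =>
    refine ⟨fun _ => rfl, fun e => ?_, fun e _ => ?_, fun e => ?_, fun e => ?_⟩
    · simp [RT.size] at e
    · simp [RT.size] at e
    · simp [RT.size, RT.ht] at e
    · simp [RT.size, RT.ht] at e
  | graft t c iht ihc =>
    cases t with
    | pt => exact ihc.up
    | graft a b =>
      refine iht.graft ihc ?_
      have h1 := one_le_size a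
      have h2 := one_le_size b
      rw [RT.size]
      omega

private theorem lv_aux (K : RT) : K.lv ≤ 4 * (gn K + 1) ∧ (K.size ≤ K.ht + 1 → K.lv ≤ 1) ∧
    (K.size ≤ K.ht + 2 → K.lv ≤ 2) := by
  induction K with
  | pt => simp [RT.lv, gn]
  | graft t c iht ihc =>
    cases t with
    | pt =>
      simp only [RT.lv, RT.size, RT.ht, gn]
      obtain ⟨h1, h2, h3⟩ := ihc
      exact ⟨h1, fun h => h2 (by omega), fun h => h3 (by omega)⟩
    | graft a b =>
      have h1 := one_le_size a
      have h2 := one_le_size b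
      have h3 := one_le_size c
      have h4 := ht_lt_size (RT.graft a b)
      have h5 := ht_lt_size c
      have e1 : (RT.graft (RT.graft a b) c).size = (RT.graft a b).size + c.size := rfl
      have e2 : (RT.graft (RT.graft a b) c).ht = max (RT.graft a b).ht (c.ht + 1) := rfl
      have e3 : (RT.graft a b).size = a.size + b.size := rfl
      have e4 : (RT.graft (RT.graft a b) c).lv = (RT.graft a b).lv + c.lv := rfl
      have h6 := ht_pos (RT.graft a b) (by omega)
      have e5 := gn_graft (RT.graft a b) c (by omega)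
      obtain ⟨t1, t2, t3⟩ := iht
      obtain ⟨c1, c2, c3⟩ := ihc
      rw [e1, e2, e4, e5]
      refine ⟨?_, fun h => ?_, fun h => ?_⟩
      · split_ifs with hif
        · rcases Nat.lt_or_ge (RT.graft a b).size ((RT.graft a b).ht + 3) with q1 | q1
          · have := t3 (by omega)
            omega
          · rcases Nat.lt_or_ge c.size (c.ht + 3) with q2 | q2
            · have := c3 (by omega)
              omega
            · omega
        · have := t3 (by omega)
          have := c3 (by omega)
          omega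
      · omega
      · have := t2 (by omega)
        have := c2 (by omega)
        omega

theorem lv_le (K : RT) : K.lv ≤ 4 * (gn K + 1) := by
  exact (lv_aux K).1

/-- all trees -/
theorem E_ge (K : RT) : 0.9991 ≤ ∑ i, sta i * xh K i := by
  have h := cl K
  have h1 := one_le_size K
  rcases Nat.lt_or_ge K.size 2 with h2 | h2
  · have hK := h.one (by omega)
    subst hK
    have : ∑ i, sta i * xh RT.pt i = 1 := sum_sta_div_kap
    rw [this]
    norm_num
  · rcases h.cases h2 with ⟨_, a⟩ | ⟨_, _, a⟩ | ⟨_, a⟩ | ⟨_, a⟩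
    · simpa using a.le_sta (by norm_num) pi1
    · simpa using a.le_sta (by norm_num) pi2
    · simpa using a.le_sta (by norm_num) piA
    · refine le_trans ?_ (a.le_sta (by norm_num) piB)
      have : (1 : ℝ) ≤ (10001 / 10000) ^ gn K := one_le_pow₀ (by norm_num)
      linarith

/-- trees with at least two vertices off the longest path from the root -/
theorem E_ge_off2 (K : RT) (h : K.ht + 3 ≤ K.size) :
    (10001 / 10000 : ℝ) ^ gn K * 1.0012 ≤ ∑ i, sta i * xh K i := by
  exact ((cl K).off2 h).le_sta (by norm_num) piB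

end Pool.Agent.Lib.MP_dbb03c_co.Cone
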