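import Pool.Agent.Lib.MP_dbb03c_co.Cone.GraphTree

/-!
# Colourings of a rooted tree by `H0`, counted by the level of the colour of the root
-/

namespace Pool.Agent.Lib.MP_dbb03c_co.Cone

open SimpleGraph RT

/-- level of a vertex of `T(x,y,z)` -/
def lev {x y z : ℕ} : TVert x y z → Fin 4
  | .root => 0
  | .child _ => 1
  | .grandchild _ _ => 2
  | .leaf _ _ _ => 3

/-- `TVert` as a sum type -/
def tvEquiv (x y z : ℕ) : TVert x y z ≃ Unit ⊕ Fin x ⊕ (Fin x × Fin y) ⊕ (Fin x × Fin y × Fin z) where
  toFun
    | .root => .inl ()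
    | .child i => .inr (.inl i)
    | .grandchild i j => .inr (.inr (.inl (i, j)))
    | .leaf i j k => .inr (.inr (.inr (i, j, k)))
  invFun
    | .inl _ => .root
    | .inr (.inl i) => .child i
    | .inr (.inr (.inl (i, j))) => .grandchild i j
    | .inr (.inr (.inr (i, j, k))) => .leaf i j k
  left_inv := by intro v; cases v <;> rfl
  right_inv := by
    intro v
    rcases v with v | v | v | v <;> rfl

noncomputable instance (x y z : ℕ) : Fintype (TVert x y z) := Fintype.ofEquiv _ (tvEquiv x y z).symm

/-- sums over the vertices -/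
private theorem sum_tv {x y z : ℕ} (f : TVert x y z → ℕ) :
    ∑ w, f w = f .root + ∑ i, f (.child i) + ∑ i, ∑ j, f (.grandchild i j) +
      ∑ i, ∑ j, ∑ k, f (.leaf i j k) := by
  rw [← (tvEquiv x y z).symm.sum_comp f, Fintype.sum_sum_type, Fintype.sum_sum_type,
    Fintype.sum_sum_type, Fintype.sum_prod_type, Fintype.sum_prod_type]
  simp only [Fintype.sum_prod_type, tvEquiv, Equiv.coe_fn_symm_mk, Finset.univ_unique,
    Finset.sum_singleton]
  ring

/-- sums of functions of the level over the vertices -/
private theorem sum_tv_lev (g : Fin 4 → ℕ) :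
    ∑ w : TVert 400 3 800, g (lev w) = ∑ i, N i * g i := by
  rw [sum_tv]
  simp only [lev, Finset.sum_const, Finset.card_univ, Fintype.card_fin, smul_eq_mul,
    Fin.sum_univ_four, N]
  simp
  ring

theorem card_lev (i : Fin 4) : Nat.card {v : TVert 400 3 800 // lev v = i} = N i := by
  classical
  rw [Nat.card_eq_fintype_card, Fintype.card_subtype, Finset.card_filter]
  have h := sum_tv_lev (fun j => if j = i then 1 else 0)
  rw [h]
  simp

/-- A sum over the neighbours of `v` of a function of the level. -/
theorem sum_nbr (v : TVert 400 3 800) (g : Fin 4 → ℕ) [DecidablePred fun w => H0 v w] :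
    ∑ w : TVert 400 3 800 with H0 v w, g (lev w) = ∑ j, W (lev v) j * g j := by
  classical
  rw [Finset.sum_filter, sum_tv]
  cases v with
  | root =>
    simp [H0, THat, TVert.parent, lev, W, Fin.sum_univ_four]
  | child i =>
    simp [H0, THat, TVert.parent, lev, W, Fin.sum_univ_four]
  | grandchild i j =>
    simp [H0, THat, TVert.parent, lev, W, Fin.sum_univ_four]
    simp [ite_and]
  | leaf i j k =>
    simp [H0, THat, TVert.parent, lev, W, Fin.sum_univ_four]
    simp [ite_and]

private theorem H0_symm {u v : TVert 400 3 800} (h : H0 u v) : H0 v u := by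
  rcases h with h | h | h
  · exact Or.inr (Or.inl h)
  · exact Or.inl h
  · exact Or.inr (Or.inr ⟨h.2, h.1⟩)

/-- the rooted colourings of a graft are pairs of rooted colourings -/
private def graftEquiv (t c : RT) (v : TVert 400 3 800) :
    {f : Ver (RT.graft t c) → TVert 400 3 800 //
      (∀ a b, (GK (RT.graft t c)).Adj a b → H0 (f a) (f b)) ∧ f (rt (RT.graft t c)) = v} ≃
    {f : Ver t → TVert 400 3 800 //
      (∀ a b, (GK t).Adj a b → H0 (f a) (f b)) ∧ f (rt t) = v} ×
    (Σ w : {w : TVert 400 3 800 // H0 v w}, {f : Ver c → TVert 400 3 800 //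
      (∀ a b, (GK c).Adj a b → H0 (f a) (f b)) ∧ f (rt c) = w.1}) where
  toFun f :=
    ⟨⟨fun a => f.1 (Sum.inl a), fun a b hab => f.2.1 _ _ (Or.inl (by simpa using hab)), f.2.2⟩,
      ⟨⟨f.1 (Sum.inr (rt c)), by
        have h := f.2.1 (Sum.inl (rt t)) (Sum.inr (rt c))
          (Or.inr (by simp [SimpleGraph.edge_adj]))
        have h2 : f.1 (Sum.inl (rt t)) = v := f.2.2
        rwa [h2] at h⟩,
      ⟨fun a => f.1 (Sum.inr a), fun a b hab => f.2.1 _ _ (Or.inl (by simpa using hab)), rfl⟩⟩⟩
  invFun p :=
    ⟨fun a => Sum.elim p.1.1 p.2.2.1 a, by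
      obtain ⟨⟨f1, h1, h1'⟩, ⟨⟨w, hw⟩, ⟨f2, h2, h2'⟩⟩⟩ := p
      have hj : H0 (f1 (rt t)) (f2 (rt c)) := by
        rw [h1', h2']
        exact hw
      refine ⟨?_, h1'⟩
      rintro (a | a) (b | b) hab
      · refine h1 a b ?_
        rcases hab with hab | hab
        · simpa using hab
        · simp [SimpleGraph.edge_adj] at hab
      · rcases hab with hab | hab
        · simp at hab
        · simp [SimpleGraph.edge_adj] at hab
          obtain ⟨ha, hb⟩ := hab
          obtain rfl := Sum.inl.inj ha
          obtain rfl := Sum.inr.inj hb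
          exact hj
      · rcases hab with hab | hab
        · simp at hab
        · simp [SimpleGraph.edge_adj] at hab
          obtain ⟨ha, hb⟩ := hab
          obtain rfl := Sum.inr.inj ha
          obtain rfl := Sum.inl.inj hb
          exact H0_symm hj
      · refine h2 a b ?_
        rcases hab with hab | hab
        · simpa using hab
        · simp [SimpleGraph.edge_adj] at hab⟩
  left_inv := by
    intro f
    apply Subtype.ext
    funext a
    rcases a with a | a <;> rfl
  right_inv := by
    rintro ⟨⟨f1, h1, h1'⟩, ⟨⟨w, hw⟩, ⟨f2, h2, h2'⟩⟩⟩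
    simp only at h2'
    subst h2'
    rfl

private theorem card_sig {α : Type} [Fintype α] (P : α → Prop) [DecidablePred P] (β : α → Type)
    [∀ a, Finite (β a)] :
    Nat.card (Σ w : {w : α // P w}, β w.1) = ∑ w with P w, Nat.card (β w) := by
  rw [Nat.card_sigma]
  exact (Finset.sum_subtype (Finset.univ.filter P) (p := P) (fun x => by simp)
    (fun w => Nat.card (β w))).symm

/-- rooted version: colourings with a prescribed colour of the root -/
theorem card_rooted (K : RT) (v : TVert 400 3 800) :
    Nat.card {f : Ver K → TVert 400 3 800 //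
      (∀ a b, (GK K).Adj a b → H0 (f a) (f b)) ∧ f (rt K) = v} = xv K (lev v) := by
  classical
  induction K generalizing v with
  | pt =>
    have hu : Unique {f : Ver RT.pt → TVert 400 3 800 //
        (∀ a b, (GK RT.pt).Adj a b → H0 (f a) (f b)) ∧ f (rt RT.pt) = v} :=
      { default := ⟨fun _ => v, fun _ _ h => h.elim, rfl⟩
        uniq := by
          rintro ⟨f, hf, hf'⟩
          apply Subtype.ext
          funext a
          cases a
          exact hf' }
    rw [Nat.card_unique]
    rfl
  | graft t c iht ihc =>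
    have h0 := Nat.card_congr (graftEquiv t c v)
    have h1 := card_sig (fun w => H0 v w) (fun w : TVert 400 3 800 =>
      {f : Ver c → TVert 400 3 800 // (∀ a b, (GK c).Adj a b → H0 (f a) (f b)) ∧ f (rt c) = w})
    rw [Nat.card_prod, iht v] at h0
    rw [h0, h1, xv, Finset.sum_congr rfl (fun w _ => ihc w), sum_nbr v (xv c)]

/-- colourings are rooted colourings for some colour of the root -/
private def homEquiv (K : RT) :
    {f : Ver K → TVert 400 3 800 // ∀ a b, (GK K).Adj a b → H0 (f a) (f b)} ≃
    (Σ v : TVert 400 3 800, {f : Ver K → TVert 400 3 800 //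
      (∀ a b, (GK K).Adj a b → H0 (f a) (f b)) ∧ f (rt K) = v}) where
  toFun f := ⟨f.1 (rt K), ⟨f.1, f.2, rfl⟩⟩
  invFun p := ⟨p.2.1, p.2.2.1⟩
  left_inv := fun _ => rfl
  right_inv := by
    rintro ⟨v, f, h, h'⟩
    subst h'
    rfl

/-- the number of colourings of the graph of `K` -/
theorem hom_GK (K : RT) : hom (GK K) H0 = homK K := by
  classical
  rw [hom, Nat.card_congr (homEquiv K), Nat.card_sigma,
    Finset.sum_congr rfl (fun v _ => card_rooted K v), sum_tv_lev, homK]

end Pool.Agent.Lib.MP_dbb03c_co.Cone
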