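import Mathlib

/-!
# Definitions for MP_dbb03c_co

`hom G H` is the number of `H`-colourings of `G`, `THat x y z` the target graph `T(x,y,z)` with a
loop at the root, `H0 = THat 400 3 800`.  `RT` is a combinatorial model of finite rooted trees.
-/

namespace Pool.Agent.Lib.MP_dbb03c_co.Cone

/-- Number of colourings of the graph `G` by the target graph with adjacency relation `H`
(loops allowed): the maps `f` with `H (f a) (f b)` for all edges `ab` of `G`. -/
noncomputable def hom {V S : Type} (G : SimpleGraph V) (H : S → S → Prop) : ℕ :=
  Nat.card {f : V → S // ∀ a b, G.Adj a b → H (f a) (f b)}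

/-- Vertices of the rooted tree `T(x,y,z)` of depth three. -/
inductive TVert (x y z : ℕ) : Type
  | root : TVert x y z
  | child (i : Fin x) : TVert x y z
  | grandchild (i : Fin x) (j : Fin y) : TVert x y z
  | leaf (i : Fin x) (j : Fin y) (k : Fin z) : TVert x y z

/-- The parent of a vertex of `T(x,y,z)`; the root has no parent. -/
def TVert.parent {x y z : ℕ} : TVert x y z → Option (TVert x y z)
  | .root => none
  | .child _ => some .root
  | .grandchild i _ => some (.child i)
  | .leaf i j _ => some (.grandchild i j)

/-- Adjacency in the target graph: `T(x,y,z)` with a loop added at the root. -/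
def THat (x y z : ℕ) (u v : TVert x y z) : Prop :=
  u.parent = some v ∨ v.parent = some u ∨ (u = .root ∧ v = .root)

/-- The target graph of the problem. -/
def H0 : TVert 400 3 800 → TVert 400 3 800 → Prop := THat 400 3 800

/-- `IsThreshold H n d`: `d` is the largest integer in `{2, ..., n-1}` such that every tree on `n`
vertices with diameter at most `d` has at least as many `H`-colourings as the path on `n`
vertices; in symbols `d = d_H(n)`. -/
def IsThreshold {S : Type} (H : S → S → Prop) (n d : ℕ) : Prop :=
  IsGreatest {d : ℕ | 2 ≤ d ∧ d ≤ n - 1 ∧ ∀ T : SimpleGraph (Fin n), T.IsTree → T.diam ≤ d →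
    hom (SimpleGraph.pathGraph n) H ≤ hom T H} d

/-! ### the combinatorial model -/

/-- Rooted trees built by grafting: `pt` is the tree with one vertex, `graft t c` is the tree `t`
with the tree `c` attached as one more child of the root of `t`. -/
inductive RT : Type
  | pt : RT
  | graft : RT → RT → RT

namespace RT

/-- number of vertices -/
def size : RT → ℕ
  | pt => 1
  | graft t c => t.size + c.size

/-- height: largest distance from the root -/
def ht : RT → ℕ
  | pt => 0
  | graft t c => max t.ht (c.ht + 1)

/-- diameter -/
def dm : RT → ℕ
  | pt => 0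
  | graft t c => max (max t.dm c.dm) (t.ht + c.ht + 1)

/-- number of leaves (the root is not counted, except for the one vertex tree) -/
def lv : RT → ℕ
  | pt => 1
  | graft pt c => c.lv
  | graft (graft a b) c => (graft a b).lv + c.lv

/-- a new root on top of the old one -/
def up (K : RT) : RT := graft pt K

/-- `m` new vertices on top -/
def ups : ℕ → RT → RT
  | 0, K => K
  | m + 1, K => up (ups m K)

end RT

open RT

/-- `W i j` is the number of neighbours on level `j` of a vertex of level `i` of `H0` -/
def W : Fin 4 → Fin 4 → ℕ :=
  ![![1, 400, 0, 0], ![1, 0, 3, 0], ![0, 1, 0, 800], ![0, 0, 1, 0]]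

/-- number of vertices of level `i` -/
def N : Fin 4 → ℕ := ![1, 400, 1200, 960000]

/-- number of colourings of `K` whose root has a given colour of level `i` -/
def xv : RT → Fin 4 → ℕ
  | .pt => fun _ => 1
  | .graft t c => fun i => xv t i * ∑ j, W i j * xv c j

/-- number of colourings of `K` -/
def homK (K : RT) : ℕ := ∑ i, N i * xv K i

/-! ### the graph of a rooted tree -/

/-- vertices of the rooted tree `K` -/
def Ver : RT → Type
  | .pt => Unit
  | .graft t c => Ver t ⊕ Ver c

/-- the root of `K` -/
def rt : (K : RT) → Ver K
  | .pt => ()
  | .graft t _ => Sum.inl (rt t)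

/-- the graph of `K` -/
def GK : (K : RT) → SimpleGraph (Ver K)
  | .pt => ⊥
  | .graft t c => (SimpleGraph.sum (GK t) (GK c)) ⊔ SimpleGraph.edge (Sum.inl (rt t)) (Sum.inr (rt c))

end Pool.Agent.Lib.MP_dbb03c_co.Cone
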