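import Pool.Agent.Lib.MP_dbb03c_co.Cone.Perron

/-!
# Convergence of the powers of `P`
-/

namespace Pool.Agent.Lib.MP_dbb03c_co.Cone

open RT Matrix Filter

private theorem Pm_nonneg (m : ℕ) (i j : Fin 4) : 0 ≤ (P ^ m) i j := by
  induction m generalizing i j with
  | zero =>
    rw [pow_zero, Matrix.one_apply]
    split_ifs <;> norm_num
  | succ m ih =>
    rw [pow_succ, Matrix.mul_apply]
    exact Finset.sum_nonneg fun k _ => mul_nonneg (ih i k) (P_nonneg k j)

private theorem Pm_one (m : ℕ) : P ^ m *ᵥ (fun _ => 1) = fun _ => (1 : ℝ) := by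
  induction m with
  | zero => rw [pow_zero, Matrix.one_mulVec]
  | succ m ih => rw [pow_succ, ← Matrix.mulVec_mulVec, P_one, ih]

private theorem Pm_mono (m : ℕ) {u v : Fin 4 → ℝ} (h : ∀ i, u i ≤ v i) (i : Fin 4) :
    (P ^ m *ᵥ u) i ≤ (P ^ m *ᵥ v) i := by
  rw [Matrix.mulVec, Matrix.mulVec]
  exact Finset.sum_le_sum fun j _ => mul_le_mul_of_nonneg_left (h j) (Pm_nonneg m i j)

private theorem Pm_const (m : ℕ) (c : ℝ) (i : Fin 4) : (P ^ m *ᵥ fun _ => c) i = c := by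
  have h : (fun _ : Fin 4 => c) = c • (fun _ : Fin 4 => (1 : ℝ)) := by
    funext j
    simp
  rw [h, Matrix.mulVec_smul, Pm_one]
  simp

private theorem sta_Pm (m : ℕ) (z : Fin 4 → ℝ) :
    ∑ i, sta i * (P ^ m *ᵥ z) i = ∑ i, sta i * z i := by
  induction m generalizing z with
  | zero => rw [pow_zero, Matrix.one_mulVec]
  | succ m ih => rw [pow_succ, ← Matrix.mulVec_mulVec, ih, sta_P]

private def mulW (v : Fin 4 → ℕ) : Fin 4 → ℕ := fun j =>
  v 0 * W 0 j + v 1 * W 1 j + v 2 * W 2 j + v 3 * W 3 j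

private theorem pow_row (m : ℕ) (i j : Fin 4) :
    ((Matrix.of W : Matrix (Fin 4) (Fin 4) ℕ) ^ (m + 1)) i j
      = mulW (((Matrix.of W : Matrix (Fin 4) (Fin 4) ℕ) ^ m) i) j := by
  rw [pow_succ, Matrix.mul_apply, Fin.sum_univ_four]
  rfl

private theorem pow_row' (m : ℕ) (i : Fin 4) :
    ((Matrix.of W : Matrix (Fin 4) (Fin 4) ℕ) ^ (m + 1)) i
      = mulW (((Matrix.of W : Matrix (Fin 4) (Fin 4) ℕ) ^ m) i) := by
  funext j
  exact pow_row m i j

private theorem chk : ∀ i j : Fin 4, 1 ≤ mulW (mulW (mulW (mulW (mulW (mulW (W i)))))) j := by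
  decide

theorem W7_pos (i j : Fin 4) : 1 ≤ ((Matrix.of W : Matrix (Fin 4) (Fin 4) ℕ) ^ 7) i j := by
  have h1 : ((Matrix.of W : Matrix (Fin 4) (Fin 4) ℕ) ^ 1) i = W i := by
    rw [pow_one]
    rfl
  rw [pow_row 6, pow_row' 5, pow_row' 4, pow_row' 3, pow_row' 2, pow_row' 1, h1]
  exact chk i j

/-- `(P ^ m) i j = (W ^ m) i j * psi j / (lam ^ m * psi i)` -/
theorem P_pow (m : ℕ) (i j : Fin 4) :
    (P ^ m) i j = (((Matrix.of W : Matrix (Fin 4) (Fin 4) ℕ) ^ m) i j : ℝ) * psi j / (lam ^ m * psi i) := by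
  have hl : lam ≠ 0 := lam_pos.ne'
  induction m generalizing i j with
  | zero =>
    have hp : psi i ≠ 0 := (psi_pos i).ne'
    rw [pow_zero, pow_zero, pow_zero, Matrix.one_apply, Matrix.one_apply, one_mul]
    split_ifs with h
    · rw [← h, Nat.cast_one, one_mul, div_self hp]
    · rw [Nat.cast_zero, zero_mul, zero_div]
  | succ m ih =>
    have hp : psi i ≠ 0 := (psi_pos i).ne'
    rw [pow_succ, pow_succ, Matrix.mul_apply, Matrix.mul_apply]
    push_cast
    rw [Finset.sum_mul, Finset.sum_div]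
    refine Finset.sum_congr rfl fun k _ => ?_
    have hk : psi k ≠ 0 := (psi_pos k).ne'
    rw [ih i k]
    have h1 : P k j = (W k j : ℝ) * psi j / (lam * psi k) := rfl
    have h2 : (Matrix.of W : Matrix (Fin 4) (Fin 4) ℕ) k j = W k j := rfl
    rw [h1, h2, pow_succ]
    field_simp

theorem exists_minor : ∃ θ : ℝ, 0 < θ ∧ θ < 1 ∧ ∀ i j, θ * sta j ≤ (P ^ 7) i j := by
  obtain ⟨⟨i0, j0⟩, h⟩ := Finite.exists_min (fun p : Fin 4 × Fin 4 => (P ^ 7) p.1 p.2)
  have hpos : 0 < (P ^ 7) i0 j0 := by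
    rw [P_pow]
    have h1 : (1 : ℝ) ≤ (((Matrix.of W : Matrix (Fin 4) (Fin 4) ℕ) ^ 7) i0 j0 : ℝ) := by
      exact_mod_cast W7_pos i0 j0
    have h2 := psi_pos j0
    have h3 := psi_pos i0
    have h4 := lam_pos
    positivity
  refine ⟨min (1 / 2) ((P ^ 7) i0 j0), lt_min (by norm_num) hpos,
    lt_of_le_of_lt (min_le_left _ _) (by norm_num), fun i j => ?_⟩
  have h5 : sta j ≤ 1 := by
    rw [← sum_sta]
    exact Finset.single_le_sum (f := sta) (fun k _ => (sta_pos k).le) (Finset.mem_univ j)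
  have h6 : min (1 / 2) ((P ^ 7) i0 j0) ≤ (P ^ 7) i j := le_trans (min_le_right _ _) (h (i, j))
  have h7 : 0 < min (1 / 2) ((P ^ 7) i0 j0) := lt_min (by norm_num) hpos
  calc min (1 / 2) ((P ^ 7) i0 j0) * sta j ≤ min (1 / 2) ((P ^ 7) i0 j0) * 1 :=
        mul_le_mul_of_nonneg_left h5 h7.le
    _ = min (1 / 2) ((P ^ 7) i0 j0) := mul_one _
    _ ≤ (P ^ 7) i j := h6

/-- `P ^ (7 k) = (1 - (1 - θ) ^ k) 1 sta^T + (1 - θ) ^ k Q ^ k` with `Q` stochastic -/
theorem doeblin_lower {η : ℝ} (hη : 0 < η) : ∃ M0 : ℕ, ∀ m, M0 ≤ m → ∀ z : Fin 4 → ℝ, (∀ i, 0 ≤ z i) →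
    ∀ i, (1 - η) * ∑ j, sta j * z j ≤ (P ^ m *ᵥ z) i := by
  obtain ⟨θ, h0, h1, hθ⟩ := exists_minor
  have key : ∀ k : ℕ, ∀ z : Fin 4 → ℝ, (∀ i, 0 ≤ z i) → ∀ i,
      (1 - (1 - θ) ^ k) * ∑ j, sta j * z j ≤ (P ^ (7 * k) *ᵥ z) i := by
    intro k
    induction k with
    | zero =>
      intro z hz i
      rw [pow_zero, mul_zero, pow_zero, Matrix.one_mulVec, sub_self, zero_mul]
      exact hz i
    | succ k ih =>
      intro z hz i
      set c : ℝ := ∑ j, sta j * z j with hc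
      have hz1 : ∀ i, θ * c ≤ (P ^ 7 *ᵥ z) i := by
        intro i
        rw [hc, Finset.mul_sum, Matrix.mulVec]
        refine Finset.sum_le_sum fun j _ => ?_
        rw [← mul_assoc]
        exact mul_le_mul_of_nonneg_right (hθ i j) (hz j)
      have h2 := ih (fun i => (P ^ 7 *ᵥ z) i - θ * c) (fun i => by linarith [hz1 i]) i
      have h3 : ∑ j, sta j * ((P ^ 7 *ᵥ z) j - θ * c) = (1 - θ) * c := by
        have : ∑ j, sta j * ((P ^ 7 *ᵥ z) j - θ * c)
            = ∑ j, sta j * (P ^ 7 *ᵥ z) j - (∑ j, sta j) * (θ * c) := by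
          rw [Finset.sum_mul, ← Finset.sum_sub_distrib]
          exact Finset.sum_congr rfl fun j _ => by ring
        rw [this, sta_Pm, sum_sta, ← hc]
        ring
      have h4 : (P ^ (7 * k) *ᵥ fun i => (P ^ 7 *ᵥ z) i - θ * c) i
          = (P ^ (7 * (k + 1)) *ᵥ z) i - θ * c := by
        have h5 : (fun i => (P ^ 7 *ᵥ z) i - θ * c) = (P ^ 7 *ᵥ z) - fun _ => θ * c := by
          funext i
          rfl
        rw [h5, Matrix.mulVec_sub, Pi.sub_apply, Pm_const, Matrix.mulVec_mulVec, ← pow_add]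
        rfl
      rw [h3, h4] at h2
      have h6 : (1 - (1 - θ) ^ (k + 1)) * c = (1 - (1 - θ) ^ k) * ((1 - θ) * c) + θ * c := by
        ring
      rw [h6]
      linarith
  obtain ⟨K, hK⟩ := exists_pow_lt_of_lt_one hη (by linarith : 1 - θ < 1)
  refine ⟨7 * K, fun m hm z hz i => ?_⟩
  have hc0 : 0 ≤ ∑ j, sta j * z j := Finset.sum_nonneg fun j _ => mul_nonneg (sta_pos j).le (hz j)
  have h2 : P ^ m *ᵥ z = P ^ (m - 7 * K) *ᵥ (P ^ (7 * K) *ᵥ z) := by
    rw [Matrix.mulVec_mulVec, ← pow_add]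
    congr 2
    omega
  rw [h2]
  refine le_trans ?_ (Pm_mono (m - 7 * K) (u := fun _ => (1 - η) * ∑ j, sta j * z j) ?_ i)
  · rw [Pm_const]
  · intro i
    refine le_trans (mul_le_mul_of_nonneg_right ?_ hc0) (key K z hz i)
    linarith

theorem doeblin_tendsto (z : Fin 4 → ℝ) (i : Fin 4) :
    Tendsto (fun m => (P ^ m *ᵥ z) i) atTop (nhds (∑ j, sta j * z j)) := by
  set C : ℝ := ∑ j, |z j| with hC
  have hC0 : 0 ≤ C := Finset.sum_nonneg fun j _ => abs_nonneg _
  have hzC : ∀ j, |z j| ≤ C := fun j =>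
    Finset.single_le_sum (f := fun j => |z j|) (fun k _ => abs_nonneg _) (Finset.mem_univ j)
  set c : ℝ := ∑ j, sta j * z j with hc
  have hcC : |c| ≤ C := by
    rw [hc]
    refine le_trans (Finset.abs_sum_le_sum_abs _ _) ?_
    have : ∀ j ∈ Finset.univ, |sta j * z j| ≤ sta j * C := by
      intro j _
      rw [abs_mul, abs_of_pos (sta_pos j)]
      exact mul_le_mul_of_nonneg_left (hzC j) (sta_pos j).le
    refine le_trans (Finset.sum_le_sum this) ?_
    rw [← Finset.sum_mul, sum_sta, one_mul]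
  rw [Metric.tendsto_atTop]
  intro ε hε
  have hη : 0 < ε / (2 * C + 1) := div_pos hε (by linarith)
  obtain ⟨M0, hM⟩ := doeblin_lower hη
  refine ⟨M0, fun m hm => ?_⟩
  have h1 := hM m hm (fun j => z j + C) (fun j => by linarith [(abs_le.mp (hzC j)).1]) i
  have h2 := hM m hm (fun j => C - z j) (fun j => by linarith [(abs_le.mp (hzC j)).2]) i
  have h3 : (P ^ m *ᵥ fun j => z j + C) i = (P ^ m *ᵥ z) i + C := by
    have h5 : (fun j => z j + C) = z + fun _ => C := by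
      funext j
      rfl
    rw [h5, Matrix.mulVec_add, Pi.add_apply, Pm_const]
  have h4 : (P ^ m *ᵥ fun j => C - z j) i = C - (P ^ m *ᵥ z) i := by
    have h5 : (fun j => C - z j) = (fun _ => C) - z := by
      funext j
      rfl
    rw [h5, Matrix.mulVec_sub, Pi.sub_apply, Pm_const]
  have h5 : ∑ j, sta j * (z j + C) = c + C := by
    have : ∑ j, sta j * (z j + C) = ∑ j, sta j * z j + (∑ j, sta j) * C := by
      rw [Finset.sum_mul, ← Finset.sum_add_distrib]
      exact Finset.sum_congr rfl fun j _ => by ring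
    rw [this, sum_sta, one_mul]
  have h6 : ∑ j, sta j * (C - z j) = C - c := by
    have : ∑ j, sta j * (C - z j) = (∑ j, sta j) * C - ∑ j, sta j * z j := by
      rw [Finset.sum_mul, ← Finset.sum_sub_distrib]
      exact Finset.sum_congr rfl fun j _ => by ring
    rw [this, sum_sta, one_mul]
  rw [h3, h5] at h1
  rw [h4, h6] at h2
  set η : ℝ := ε / (2 * C + 1) with hη'
  have h7 : η * (2 * C) < ε := by
    have h8 : η * (2 * C + 1) = ε := div_mul_cancel₀ _ (by linarith)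
    linarith
  have h9 := abs_le.mp hcC
  have h10 : η * (c + C) ≤ η * (2 * C) := mul_le_mul_of_nonneg_left (by linarith) hη.le
  have h11 : η * (C - c) ≤ η * (2 * C) := mul_le_mul_of_nonneg_left (by linarith) hη.le
  rw [Real.dist_eq, abs_lt]
  constructor
  · nlinarith
  · nlinarith

end Pool.Agent.Lib.MP_dbb03c_co.Cone
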