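import Pool.Agent.Lib.MP_dbb03c_co.Cone.GraphTree

/-!
# Distances in the graph of a rooted tree
-/

namespace Pool.Agent.Lib.MP_dbb03c_co.Cone

open SimpleGraph RT

private theorem GraphDiam_ediam {V V' : Type} {G : SimpleGraph V} {G' : SimpleGraph V'}
    (e : G ≃g G') : G'.ediam ≤ G.ediam := by
  refine ediam_le_of_edist_le fun x y => ?_
  have h : G'.edist (e (e.symm x)) (e (e.symm y)) ≤ G.edist (e.symm x) (e.symm y) :=
    le_iInf fun w => (edist_le (w.map e.toHom)).trans_eq (by rw [Walk.length_map])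
  rw [RelIso.apply_symm_apply, RelIso.apply_symm_apply] at h
  exact h.trans edist_le_ediam

/-- isomorphic graphs have equal diameter -/
theorem diam_iso {V V' : Type} {G : SimpleGraph V} {G' : SimpleGraph V'} (e : G ≃g G') :
    G.diam = G'.diam := by
  unfold SimpleGraph.diam
  rw [le_antisymm (GraphDiam_ediam e.symm) (GraphDiam_ediam e)]

/-- maps that send edges to edges or to vertices do not increase distances -/
private theorem GraphDiam_proj {V V' : Type} {G : SimpleGraph V} {G' : SimpleGraph V'}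
    (hG' : G'.Connected) (f : V → V') (h : ∀ x y, G.Adj x y → f x = f y ∨ G'.Adj (f x) (f y))
    {u v : V} (p : G.Walk u v) : G'.dist (f u) (f v) ≤ p.length := by
  induction p with
  | nil => simp
  | @cons u w v hadj p ih =>
    have h1 := hG'.dist_triangle (u := f u) (v := f w) (w := f v)
    have h2 : G'.dist (f u) (f w) ≤ 1 := by
      rcases h _ _ hadj with h3 | h3
      · rw [h3, dist_self]
        exact zero_le_one
      · exact (dist_eq_one_iff_adj.2 h3).le
    rw [Walk.length_cons]
    omega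

private theorem GraphDiam_pot {V : Type} {G : SimpleGraph V} (f : V → ℤ)
    (h : ∀ x y, G.Adj x y → |f x - f y| ≤ 1) {u v : V} (p : G.Walk u v) :
    |f u - f v| ≤ p.length := by
  induction p with
  | nil => simp
  | @cons u w v hadj p ih =>
    have h1 := h _ _ hadj
    have h2 := abs_sub_le (f u) (f w) (f v)
    rw [Walk.length_cons]
    push_cast
    omega

section

variable {V W : Type} {G : SimpleGraph V} {H : SimpleGraph W} {a : V} {b : W}

/-- two graphs joined by one edge -/
private def GraphDiam_J (G : SimpleGraph V) (H : SimpleGraph W) (a : V) (b : W) :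
    SimpleGraph (V ⊕ W) :=
  (SimpleGraph.sum G H) ⊔ SimpleGraph.edge (Sum.inl a) (Sum.inr b)

private theorem GraphDiam_ll {u v : V} :
    (GraphDiam_J G H a b).Adj (Sum.inl u) (Sum.inl v) ↔ G.Adj u v := by
  simp [GraphDiam_J, edge_adj]

private theorem GraphDiam_rr {u v : W} :
    (GraphDiam_J G H a b).Adj (Sum.inr u) (Sum.inr v) ↔ H.Adj u v := by
  simp [GraphDiam_J, edge_adj]

private theorem GraphDiam_lr {u : V} {v : W} :
    (GraphDiam_J G H a b).Adj (Sum.inl u) (Sum.inr v) ↔ u = a ∧ v = b := by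
  simp [GraphDiam_J, edge_adj, SimpleGraph.sum, eq_comm]

private theorem GraphDiam_dll (hG : G.Connected) (hJ : (GraphDiam_J G H a b).Connected) (u v : V) :
    (GraphDiam_J G H a b).dist (Sum.inl u) (Sum.inl v) = G.dist u v := by
  apply le_antisymm
  · obtain ⟨p, hp⟩ := hG.exists_walk_length_eq_dist u v
    let f : G →g GraphDiam_J G H a b := ⟨Sum.inl, fun h => GraphDiam_ll.2 h⟩
    rw [← hp, ← Walk.length_map f p]
    exact dist_le _
  · obtain ⟨p, hp⟩ := hJ.exists_walk_length_eq_dist (Sum.inl u) (Sum.inl v)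
    rw [← hp]
    refine GraphDiam_proj hG (Sum.elim id fun _ => a) ?_ p
    rintro (x | x) (y | y) hxy
    · exact Or.inr (GraphDiam_ll.1 hxy)
    · exact Or.inl (GraphDiam_lr.1 hxy).1
    · exact Or.inl (GraphDiam_lr.1 hxy.symm).1.symm
    · exact Or.inl rfl

private theorem GraphDiam_drr (hH : H.Connected) (hJ : (GraphDiam_J G H a b).Connected) (u v : W) :
    (GraphDiam_J G H a b).dist (Sum.inr u) (Sum.inr v) = H.dist u v := by
  apply le_antisymm
  · obtain ⟨p, hp⟩ := hH.exists_walk_length_eq_dist u v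
    let f : H →g GraphDiam_J G H a b := ⟨Sum.inr, fun h => GraphDiam_rr.2 h⟩
    rw [← hp, ← Walk.length_map f p]
    exact dist_le _
  · obtain ⟨p, hp⟩ := hJ.exists_walk_length_eq_dist (Sum.inr u) (Sum.inr v)
    rw [← hp]
    refine GraphDiam_proj hH (Sum.elim (fun _ => b) id) ?_ p
    rintro (x | x) (y | y) hxy
    · exact Or.inl rfl
    · exact Or.inl (GraphDiam_lr.1 hxy).2.symm
    · exact Or.inl (GraphDiam_lr.1 hxy.symm).2
    · exact Or.inr (GraphDiam_rr.1 hxy)

private theorem GraphDiam_step {V : Type} {G : SimpleGraph V} (hG : G.Connected) {a x y : V}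
    (h : G.Adj x y) : |((G.dist a x : ℕ) : ℤ) - G.dist a y| ≤ 1 := by
  have h1 := hG.dist_triangle (u := a) (v := x) (w := y)
  have h2 := hG.dist_triangle (u := a) (v := y) (w := x)
  have h3 : G.dist x y = 1 := dist_eq_one_iff_adj.2 h
  have h4 : G.dist y x = 1 := dist_eq_one_iff_adj.2 h.symm
  rw [abs_le]
  constructor <;> omega

private theorem GraphDiam_dlr (hG : G.Connected) (hH : H.Connected)
    (hJ : (GraphDiam_J G H a b).Connected) (u : V) (v : W) :
    (GraphDiam_J G H a b).dist (Sum.inl u) (Sum.inr v) = G.dist a u + 1 + H.dist b v := by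
  apply le_antisymm
  · have h1 := hJ.dist_triangle (u := Sum.inl u) (v := Sum.inl a) (w := Sum.inr v)
    have h2 := hJ.dist_triangle (u := Sum.inl a) (v := Sum.inr b) (w := Sum.inr v)
    have h3 : (GraphDiam_J G H a b).dist (Sum.inl a) (Sum.inr b) = 1 :=
      dist_eq_one_iff_adj.2 (GraphDiam_lr.2 ⟨rfl, rfl⟩)
    rw [GraphDiam_drr hH hJ, h3] at h2
    have h5 : G.dist u a = G.dist a u := dist_comm
    rw [GraphDiam_dll hG hJ] at h1
    omega
  · obtain ⟨p, hp⟩ := hJ.exists_walk_length_eq_dist (Sum.inl u) (Sum.inr v)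
    rw [← hp]
    have h := GraphDiam_pot (G := GraphDiam_J G H a b)
      (Sum.elim (fun x => -((G.dist a x : ℕ) : ℤ)) fun y => 1 + ((H.dist b y : ℕ) : ℤ)) ?_ p
    · simp only [Sum.elim_inl, Sum.elim_inr] at h
      rw [abs_le] at h
      omega
    · rintro (x | x) (y | y) hxy
      · have := GraphDiam_step hG (a := a) (GraphDiam_ll.1 hxy)
        simp only [Sum.elim_inl]
        rw [abs_le] at this ⊢
        omega
      · obtain ⟨rfl, rfl⟩ := GraphDiam_lr.1 hxy
        simp
      · obtain ⟨rfl, rfl⟩ := GraphDiam_lr.1 hxy.symm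
        simp
      · have := GraphDiam_step hH (a := b) (GraphDiam_rr.1 hxy)
        simp only [Sum.elim_inr]
        rw [abs_le] at this ⊢
        omega

end

private theorem GraphDiam_conn (K : RT) : (GK K).Connected := (isTree_GK K).1

private theorem GraphDiam_tl (t c : RT) (u v : Ver t) :
    (GK (.graft t c)).dist (Sum.inl u : Ver t ⊕ Ver c) (Sum.inl v : Ver t ⊕ Ver c) =
      (GK t).dist u v :=
  GraphDiam_dll (GraphDiam_conn t) (GraphDiam_conn (.graft t c)) u v

private theorem GraphDiam_tr (t c : RT) (u v : Ver c) :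
    (GK (.graft t c)).dist (Sum.inr u : Ver t ⊕ Ver c) (Sum.inr v : Ver t ⊕ Ver c) =
      (GK c).dist u v :=
  GraphDiam_drr (GraphDiam_conn c) (GraphDiam_conn (.graft t c)) u v

private theorem GraphDiam_tm (t c : RT) (u : Ver t) (v : Ver c) :
    (GK (.graft t c)).dist (Sum.inl u : Ver t ⊕ Ver c) (Sum.inr v : Ver t ⊕ Ver c) =
      (GK t).dist (rt t) u + 1 + (GK c).dist (rt c) v :=
  GraphDiam_dlr (GraphDiam_conn t) (GraphDiam_conn c) (GraphDiam_conn (.graft t c)) u v

/-- upper bound for the distance from the root (induction, explicit walks) -/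
theorem dist_rt_le (K : RT) (v : Ver K) : (GK K).dist (rt K) v ≤ K.ht := by
  induction K with
  | pt =>
    have h : v = rt .pt := rfl
    rw [h, dist_self]
    exact Nat.zero_le _
  | graft t c iht ihc =>
    show (GK (.graft t c)).dist (Sum.inl (rt t) : Ver t ⊕ Ver c) v ≤ max t.ht (c.ht + 1)
    rcases v with v | v
    · rw [GraphDiam_tl]
      exact (iht v).trans (le_max_left _ _)
    · rw [GraphDiam_tm, dist_self]
      have := ihc v
      have h2 := le_max_right t.ht (c.ht + 1)
      omega

/-- upper bound for all distances (induction, explicit walks) -/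
theorem dist_le_dm (K : RT) (u v : Ver K) : (GK K).dist u v ≤ K.dm := by
  induction K with
  | pt =>
    have h : u = v := rfl
    rw [h, dist_self]
    exact Nat.zero_le _
  | graft t c iht ihc =>
    show (GK (.graft t c)).dist u v ≤ max (max t.dm c.dm) (t.ht + c.ht + 1)
    have h1 := le_max_left (max t.dm c.dm) (t.ht + c.ht + 1)
    have h2 := le_max_right (max t.dm c.dm) (t.ht + c.ht + 1)
    have h3 := le_max_left t.dm c.dm
    have h4 := le_max_right t.dm c.dm
    rcases u with u | u <;> rcases v with v | v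
    · rw [GraphDiam_tl]
      have := iht u v
      omega
    · rw [GraphDiam_tm]
      have a1 := dist_rt_le t u
      have a2 := dist_rt_le c v
      omega
    · refine le_trans (le_of_eq (dist_comm.trans (GraphDiam_tm t c v u))) ?_
      have a1 := dist_rt_le t v
      have a2 := dist_rt_le c u
      omega
    · rw [GraphDiam_tr]
      have := ihc u v
      omega

/-- some vertex is at distance `ht K` from the root (in a tree the length of a path is the
distance of its ends; for `graft t c` use the path `rt t, rt c, ...`) -/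
theorem exists_dist_rt (K : RT) : ∃ v, (GK K).dist (rt K) v = K.ht := by
  induction K with
  | pt => exact ⟨rt .pt, dist_self⟩
  | graft t c iht ihc =>
    obtain ⟨v, hv⟩ := iht
    obtain ⟨w, hw⟩ := ihc
    rcases le_total (c.ht + 1) t.ht with h | h
    · refine ⟨(Sum.inl v : Ver t ⊕ Ver c), ?_⟩
      show (GK (.graft t c)).dist (Sum.inl (rt t) : Ver t ⊕ Ver c) (Sum.inl v : Ver t ⊕ Ver c) =
        max t.ht (c.ht + 1)
      rw [GraphDiam_tl, hv, max_eq_left h]
    · refine ⟨(Sum.inr w : Ver t ⊕ Ver c), ?_⟩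
      show (GK (.graft t c)).dist (Sum.inl (rt t) : Ver t ⊕ Ver c) (Sum.inr w : Ver t ⊕ Ver c) =
        max t.ht (c.ht + 1)
      rw [GraphDiam_tm, hw, max_eq_right h, dist_self]
      omega

private theorem GraphDiam_exists (K : RT) : ∃ u v, (GK K).dist u v = K.dm := by
  induction K with
  | pt => exact ⟨rt .pt, rt .pt, dist_self⟩
  | graft t c iht ihc =>
    obtain ⟨u, v, huv⟩ := iht
    obtain ⟨x, y, hxy⟩ := ihc
    obtain ⟨p, hp⟩ := exists_dist_rt t
    obtain ⟨q, hq⟩ := exists_dist_rt c
    have hdm : (RT.graft t c).dm = max (max t.dm c.dm) (t.ht + c.ht + 1) := rfl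
    rcases le_total (t.ht + c.ht + 1) (max t.dm c.dm) with h | h
    · rw [max_eq_left h] at hdm
      rcases le_total c.dm t.dm with h' | h'
      · rw [max_eq_left h'] at hdm
        refine ⟨(Sum.inl u : Ver t ⊕ Ver c), (Sum.inl v : Ver t ⊕ Ver c), ?_⟩
        rw [GraphDiam_tl, huv, hdm]
      · rw [max_eq_right h'] at hdm
        refine ⟨(Sum.inr x : Ver t ⊕ Ver c), (Sum.inr y : Ver t ⊕ Ver c), ?_⟩
        rw [GraphDiam_tr, hxy, hdm]
    · rw [max_eq_right h] at hdm
      refine ⟨(Sum.inl p : Ver t ⊕ Ver c), (Sum.inr q : Ver t ⊕ Ver c), ?_⟩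
      rw [GraphDiam_tm, hp, hq, hdm]
      omega

theorem diam_le_dm (K : RT) : (GK K).diam ≤ K.dm := by
  have : Nonempty (Ver K) := ⟨rt K⟩
  obtain ⟨u, v, h⟩ := (GK K).exists_dist_eq_diam
  rw [← h]
  exact dist_le_dm K u v

theorem dm_le_diam (K : RT) : K.dm ≤ (GK K).diam := by
  have : Nonempty (Ver K) := ⟨rt K⟩
  have : Finite (Ver K) := Finite.of_fintype _
  obtain ⟨u, v, h⟩ := GraphDiam_exists K
  rw [← h]
  exact dist_le_diam (connected_iff_ediam_ne_top.1 (GraphDiam_conn K))

end Pool.Agent.Lib.MP_dbb03c_co.Cone
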