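import Pool.Agent.Lib.MP_dbb03c_co.Cone.GraphTree

/-!
# Every finite tree is the graph of a rooted tree
-/

namespace Pool.Agent.Lib.MP_dbb03c_co.Cone

open SimpleGraph RT

private theorem exists_iso_aux (n : ℕ) : ∀ {V : Type} [Fintype V] (T : SimpleGraph V), T.IsTree →
    ∀ r : V, Fintype.card V ≤ n → ∃ K : RT, ∃ e : T ≃g GK K, e r = rt K := by
  induction n with
  | zero =>
    intro V _ T hT r hn
    exact absurd (Fintype.card_pos_iff.mpr ⟨r⟩) (by omega)
  | succ n ih =>
    intro V _ T hT r hn
    by_cases hs : ∃ c, T.Adj r c
    · obtain ⟨c, hrc⟩ := hs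
      classical
      set T' : SimpleGraph V := T.deleteEdges {s(r, c)} with hT'
      have hbr : ¬ T'.Reachable r c :=
        (isAcyclic_iff_forall_adj_isBridge.mp hT.isAcyclic) hrc
      have hadj' : ∀ a b, T'.Adj a b ↔ T.Adj a b ∧ s(a, b) ≠ s(r, c) := by
        intro a b
        simp [hT', SimpleGraph.deleteEdges_adj]
      have hac : T'.IsAcyclic := hT.isAcyclic.anti (T.deleteEdges_le _)
      set c1 := T'.connectedComponentMk r with hc1
      set c2 := T'.connectedComponentMk c with hc2
      have hr1 : r ∈ c1 := rfl
      have hc2' : c ∈ c2 := rfl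
      have hcov : ∀ v, v ∈ c1 ∨ v ∈ c2 := by
        intro v
        obtain ⟨p⟩ := hT.connected.preconnected v r
        have key : ∀ (v w : V) (p : T.Walk v w), w = r → (v ∈ c1 ∨ v ∈ c2) := by
          intro v w p
          induction p with
          | nil => intro h; subst h; exact Or.inl rfl
          | @cons a b d h p ihp =>
            intro hd
            have hb := ihp hd
            by_cases hE : s(a, b) = s(r, c)
            · rcases Sym2.eq_iff.mp hE with ⟨h1, _⟩ | ⟨h1, _⟩
              · subst h1; exact Or.inl hr1
              · subst h1; exact Or.inr hc2'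
            · have hab : T'.Adj a b := (hadj' a b).mpr ⟨h, hE⟩
              rcases hb with hb | hb
              · left
                have h2 : T'.connectedComponentMk b = c1 := hb
                change T'.connectedComponentMk a = c1
                rw [← h2]
                exact ConnectedComponent.sound hab.reachable
              · right
                have h2 : T'.connectedComponentMk b = c2 := hb
                change T'.connectedComponentMk a = c2
                rw [← h2]
                exact ConnectedComponent.sound hab.reachable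
        exact key v r p rfl
      have hne : c1 ≠ c2 := by
        intro h
        exact hbr (ConnectedComponent.exact h)
      have hdisj : ∀ v, v ∈ c1 → v ∈ c2 → False := by
        intro v h1 h2
        exact hne ((show T'.connectedComponentMk v = c1 from h1).symm.trans h2)
      have hsame : ∀ a b (d : T'.ConnectedComponent), T'.Adj a b → a ∈ d → b ∈ d := by
        intro a b d hab ha
        have h2 : T'.connectedComponentMk a = d := ha
        change T'.connectedComponentMk b = d
        rw [← h2]
        exact ConnectedComponent.sound hab.symm.reachable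
      have hcard1 : Fintype.card c1 ≤ n := by
        have : Fintype.card c1 < Fintype.card V :=
          Fintype.card_subtype_lt (x := c) (fun h => hdisj c h hc2')
        omega
      have hcard2 : Fintype.card c2 ≤ n := by
        have : Fintype.card c2 < Fintype.card V :=
          Fintype.card_subtype_lt (x := r) (fun h => hdisj r hr1 h)
        omega
      obtain ⟨K1, e1, he1⟩ := ih c1.toSimpleGraph (hac.isTree_connectedComponent c1) ⟨r, hr1⟩ hcard1
      obtain ⟨K2, e2, he2⟩ := ih c2.toSimpleGraph (hac.isTree_connectedComponent c2) ⟨c, hc2'⟩ hcard2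
      let f : Ver K1 ⊕ Ver K2 → V := fun x =>
        match x with
        | Sum.inl a => (e1.symm a).1
        | Sum.inr b => (e2.symm b).1
      have finj : Function.Injective f := by
        rintro (a | a) (b | b) h
        · have : e1.symm a = e1.symm b := Subtype.ext h
          rw [e1.symm.injective this]
        · have h2 : (e1.symm a).1 = (e2.symm b).1 := h
          exact (hdisj _ (e1.symm a).2 (h2 ▸ (e2.symm b).2)).elim
        · have h2 : (e2.symm a).1 = (e1.symm b).1 := h
          exact (hdisj _ (e1.symm b).2 (h2 ▸ (e2.symm a).2)).elim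
        · have : e2.symm a = e2.symm b := Subtype.ext h
          rw [e2.symm.injective this]
      have fsurj : Function.Surjective f := by
        intro v
        rcases hcov v with h | h
        · exact ⟨Sum.inl (e1 ⟨v, h⟩), congrArg Subtype.val (e1.symm_apply_apply ⟨v, h⟩)⟩
        · exact ⟨Sum.inr (e2 ⟨v, h⟩), congrArg Subtype.val (e2.symm_apply_apply ⟨v, h⟩)⟩
      have hf1 : e1.symm (rt K1) = ⟨r, hr1⟩ := by rw [← he1]; exact e1.symm_apply_apply _
      have hf2 : e2.symm (rt K2) = ⟨c, hc2'⟩ := by rw [← he2]; exact e2.symm_apply_apply _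
      have hcross : ∀ (a : c1) (b : c2), T.Adj a.1 b.1 ↔ (a = ⟨r, hr1⟩ ∧ b = ⟨c, hc2'⟩) := by
        intro a b
        constructor
        · intro h
          by_cases hE : s(a.1, b.1) = s(r, c)
          · rcases Sym2.eq_iff.mp hE with ⟨h1, h2⟩ | ⟨h1, h2⟩
            · exact ⟨Subtype.ext h1, Subtype.ext h2⟩
            · exact (hdisj c (h1 ▸ a.2) hc2').elim
          · exact (hdisj b.1 (hsame _ _ c1 ((hadj' _ _).mpr ⟨h, hE⟩) a.2) b.2).elim
        · rintro ⟨h1, h2⟩
          rw [h1, h2]
          exact hrc
      have hin1 : ∀ a b : c1, T.Adj a.1 b.1 ↔ c1.toSimpleGraph.Adj a b := by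
        intro a b
        have h0 : c1.toSimpleGraph.Adj a b ↔ T'.Adj a.1 b.1 := c1.toSimpleGraph_adj a.2 b.2
        rw [h0, hadj']
        refine ⟨fun h => ⟨h, fun hE => ?_⟩, fun h => h.1⟩
        rcases Sym2.eq_iff.mp hE with ⟨h1, h2⟩ | ⟨h1, h2⟩
        · exact hdisj c (h2 ▸ b.2) hc2'
        · exact hdisj c (h1 ▸ a.2) hc2'
      have hin2 : ∀ a b : c2, T.Adj a.1 b.1 ↔ c2.toSimpleGraph.Adj a b := by
        intro a b
        have h0 : c2.toSimpleGraph.Adj a b ↔ T'.Adj a.1 b.1 := c2.toSimpleGraph_adj a.2 b.2
        rw [h0, hadj']
        refine ⟨fun h => ⟨h, fun hE => ?_⟩, fun h => h.1⟩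
        rcases Sym2.eq_iff.mp hE with ⟨h1, h2⟩ | ⟨h1, h2⟩
        · exact hdisj r hr1 (h1 ▸ a.2)
        · exact hdisj r hr1 (h2 ▸ b.2)
      have hedge : ∀ x y, (edge (Sum.inl (rt K1) : Ver K1 ⊕ Ver K2) (Sum.inr (rt K2))).Adj x y ↔
          (x = Sum.inl (rt K1) ∧ y = Sum.inr (rt K2) ∨ x = Sum.inr (rt K2) ∧ y = Sum.inl (rt K1)) := by
        intro x y
        rw [edge_adj]
        constructor
        · rintro ⟨h | h, _⟩
          · exact Or.inl h
          · exact Or.inr h
        · rintro (⟨rfl, rfl⟩ | ⟨rfl, rfl⟩) <;> simp
      have hadjf : ∀ x y : Ver K1 ⊕ Ver K2, T.Adj (f x) (f y) ↔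
          ((SimpleGraph.sum (GK K1) (GK K2)) ⊔
          SimpleGraph.edge (Sum.inl (rt K1)) (Sum.inr (rt K2))).Adj x y := by
        intro x y
        rw [sup_adj, hedge]
        rcases x with a | a <;> rcases y with b | b
        · change T.Adj (e1.symm a).1 (e1.symm b).1 ↔ _
          rw [hin1, sum_adj_inl, e1.symm.map_adj_iff]
          simp
        · change T.Adj (e1.symm a).1 (e2.symm b).1 ↔ _
          rw [hcross, ← hf1, ← hf2, e1.symm.injective.eq_iff, e2.symm.injective.eq_iff]
          simp
        · change T.Adj (e2.symm a).1 (e1.symm b).1 ↔ _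
          rw [T.adj_comm, hcross, ← hf1, ← hf2, e1.symm.injective.eq_iff, e2.symm.injective.eq_iff]
          simp [and_comm]
        · change T.Adj (e2.symm a).1 (e2.symm b).1 ↔ _
          rw [hin2, sum_adj_inr, e2.symm.map_adj_iff]
          simp
      have hfr : f (rt (RT.graft K1 K2)) = r := by
        change (e1.symm (rt K1)).1 = r
        rw [hf1]
      let g : Ver (RT.graft K1 K2) ≃ V := Equiv.ofBijective f ⟨finj, fsurj⟩
      let G : GK (RT.graft K1 K2) ≃g T := ⟨g, fun {x y} => hadjf x y⟩
      refine ⟨RT.graft K1 K2, G.symm, ?_⟩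
      have : G (rt (RT.graft K1 K2)) = r := hfr
      rw [← this]
      exact G.symm_apply_apply _
    · push Not at hs
      have hsub : ∀ v, v = r := by
        intro v
        obtain ⟨p⟩ := hT.connected.preconnected r v
        cases p with
        | nil => rfl
        | cons h _ => exact absurd h (hs _)
      refine ⟨RT.pt, ⟨⟨fun _ => (), fun _ => r, fun v => (hsub v).symm, fun _ => rfl⟩, ?_⟩, rfl⟩
      intro a b
      rw [hsub a, hsub b]
      constructor
      · intro h
        exact absurd h (by simp [GK])
      · intro h
        exact absurd h (T.irrefl)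

/-- Every finite tree with a chosen root is the graph of a rooted tree.

Proof: strong induction on the number of vertices.  If there is one vertex take `pt`.  Otherwise
choose a vertex `l ≠ r` of degree one (`IsTree.exists_ne_and_degree_eq_one` or the like), let `u`
be its neighbour and `T' = T.induce {l}ᶜ` (a tree by `Connected.induce_compl_singleton_of_degree_eq_one`
and `IsAcyclic.induce`).  By induction `e : T' ≃g GK K'` with `e r = rt K'`.  Now attach a new
leaf at the vertex `e u` of `K'` (`attach` below).  Alternatively: take a neighbour `c` of `r`,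
delete the edge `rc`, and use the two components (both are trees). -/
theorem exists_iso {V : Type} [Fintype V] (T : SimpleGraph V) (hT : T.IsTree) (r : V) :
    ∃ K : RT, ∃ e : T ≃g GK K, e r = rt K := by
  exact exists_iso_aux (Fintype.card V) T hT r le_rfl

end Pool.Agent.Lib.MP_dbb03c_co.Cone
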