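import Pool.Agent.Lib.MP_dbb03c_co.Cone.GraphTree

/-!
# The path as a rooted tree; colourings of isomorphic graphs
-/

namespace Pool.Agent.Lib.MP_dbb03c_co.Cone

open SimpleGraph RT

/-- isomorphic graphs have the same number of colourings -/
theorem hom_iso {V V' S : Type} {G : SimpleGraph V} {G' : SimpleGraph V'} (e : G ≃g G')
    (H : S → S → Prop) : hom G H = hom G' H := by
  unfold hom
  refine Nat.card_congr
    { toFun := fun f => ⟨fun v => f.1 (e.symm v), fun a b hab => f.2 _ _ (e.symm.map_rel_iff.2 hab)⟩
      invFun := fun f => ⟨fun v => f.1 (e v), fun a b hab => f.2 _ _ (e.map_rel_iff.2 hab)⟩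
      left_inv := fun f => by
        apply Subtype.ext
        funext v
        simp
      right_inv := fun f => by
        apply Subtype.ext
        funext v
        simp }

private theorem PathIso_step {V : Type} {n : ℕ} (G : SimpleGraph V) (r : V)
    (e : pathGraph (n + 1) ≃g G) (he : e 0 = r) :
    ∃ e' : pathGraph (n + 1 + 1) ≃g (SimpleGraph.sum (⊥ : SimpleGraph Unit) G ⊔
      SimpleGraph.edge (Sum.inl ()) (Sum.inr r)), e' 0 = Sum.inl () := by
  let F : Fin (n + 1 + 1) → Unit ⊕ V := fun i =>
    Fin.cases (motive := fun _ => Unit ⊕ V) (Sum.inl ()) (fun i => Sum.inr (e i)) i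
  have hF0 : F 0 = Sum.inl () := rfl
  have hFs : ∀ i : Fin (n + 1), F i.succ = Sum.inr (e i) := fun i => rfl
  let E : Fin (n + 1 + 1) ≃ Unit ⊕ V :=
    { toFun := F
      invFun := Sum.elim (fun _ => 0) (fun v => (e.symm v).succ)
      left_inv := by
        intro i
        refine Fin.cases ?_ (fun j => ?_) i
        · rfl
        · rw [hFs, Sum.elim_inr, RelIso.symm_apply_apply]
      right_inv := by
        intro v
        rcases v with v | v
        · rfl
        · rw [Sum.elim_inr, hFs, RelIso.apply_symm_apply] }
  have hE0 : E 0 = Sum.inl () := rfl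
  have hEs : ∀ i : Fin (n + 1), E i.succ = Sum.inr (e i) := fun i => rfl
  refine ⟨{ toEquiv := E
            map_rel_iff' := ?_ }, rfl⟩
  intro a b
  refine Fin.cases ?_ (fun i => ?_) a <;> refine Fin.cases ?_ (fun j => ?_) b
  · constructor
    · intro h
      exact absurd h (SimpleGraph.irrefl _)
    · intro h
      exact absurd h (SimpleGraph.irrefl _)
  · rw [hE0, hEs, SimpleGraph.sup_adj, SimpleGraph.edge_adj, pathGraph_adj]
    constructor
    · rintro (h | ⟨h, -⟩)
      · cases h
      · rcases h with ⟨-, h⟩ | ⟨h, -⟩
        · have h1 : e j = r := Sum.inr.inj h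
          have h2 : j = 0 := e.injective (h1.trans he.symm)
          subst h2
          left
          simp
        · cases h
    · rintro (h | h)
      · have h2 : j = 0 := by
          simp at h
          exact h
        subst h2
        right
        exact ⟨Or.inl ⟨rfl, by rw [he]⟩, by simp⟩
      · simp at h
  · rw [hE0, hEs, SimpleGraph.sup_adj, SimpleGraph.edge_adj, pathGraph_adj]
    constructor
    · rintro (h | ⟨h, -⟩)
      · cases h
      · rcases h with ⟨h, -⟩ | ⟨h, -⟩
        · cases h
        · have h1 : e i = r := Sum.inr.inj h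
          have h2 : i = 0 := e.injective (h1.trans he.symm)
          subst h2
          right
          simp
    · rintro (h | h)
      · simp at h
      · have h2 : i = 0 := by
          simp at h
          exact h
        subst h2
        right
        exact ⟨Or.inr ⟨by rw [he], rfl⟩, by simp⟩
  · rw [hEs, hEs, SimpleGraph.sup_adj, SimpleGraph.edge_adj, pathGraph_adj]
    have h1 : (pathGraph (n + 1)).Adj i j ↔ G.Adj (e i) (e j) :=
      e.map_rel_iff.symm
    rw [pathGraph_adj] at h1
    constructor
    · rintro (h | ⟨h, -⟩)
      · have h2 := h1.2 h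
        simpa using h2
      · rcases h with ⟨h, -⟩ | ⟨-, h⟩
        · cases h
        · cases h
    · intro h
      left
      have h2 : (i : ℕ) + 1 = j ∨ (j : ℕ) + 1 = i := by simpa using h
      exact h1.1 h2

/-- The path on `n + 1` vertices is the graph of `ups n pt`, by an isomorphism that sends the
vertex `0` to the root (induction on `n`, `Fin.cases`). -/
theorem exists_pathIso (n : ℕ) : ∃ e : pathGraph (n + 1) ≃g GK (ups n .pt), e 0 = rt _ := by
  induction n with
  | zero =>
    have h1 : ∀ i j : Fin (0 + 1), i = j := fun i j => by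
      apply Fin.ext
      omega
    refine ⟨{ toFun := fun _ => (() : Unit)
              invFun := fun _ => 0
              left_inv := fun i => h1 _ _
              right_inv := fun _ => rfl
              map_rel_iff' := ?_ }, rfl⟩
    intro a b
    constructor
    · intro h
      exact h.elim
    · intro h
      rw [h1 a b] at h
      exact absurd h (SimpleGraph.irrefl _)
  | succ n ih =>
    obtain ⟨e, he⟩ := ih
    exact PathIso_step (GK (ups n .pt)) (rt _) e he

theorem hom_pathGraph {S : Type} (n : ℕ) (H : S → S → Prop) :
    hom (pathGraph (n + 1)) H = hom (GK (ups n .pt)) H := by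
  obtain ⟨e, -⟩ := exists_pathIso n
  exact hom_iso e H

end Pool.Agent.Lib.MP_dbb03c_co.Cone
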