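import Pool.Agent.Lib.MP_dbb03c_co.Cone.Lower
import Pool.Agent.Lib.MP_dbb03c_co.Cone.GraphIso
import Pool.Agent.Lib.MP_dbb03c_co.Cone.GraphDiam
import Pool.Agent.Lib.MP_dbb03c_co.Cone.PathIso
import Pool.Agent.Lib.MP_dbb03c_co.Cone.Count

/-!
# The threshold for `H0`
-/

namespace Pool.Agent.Lib.MP_dbb03c_co.Cone

open SimpleGraph RT

/-- every tree on `Fin n` is a rooted tree in disguise -/
theorem exists_model {n : ℕ} (hn : 0 < n) (T : SimpleGraph (Fin n)) (hT : T.IsTree) :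
    ∃ K : RT, K.size = n ∧ K.dm = T.diam ∧ hom T H0 = homK K := by
  obtain ⟨K, e, -⟩ := exists_iso T hT ⟨0, hn⟩
  refine ⟨K, ?_, ?_, ?_⟩
  · rw [← card_ver K, ← Fintype.card_congr e.toEquiv, Fintype.card_fin]
  · rw [diam_iso e]
    exact le_antisymm (dm_le_diam K) (diam_le_dm K)
  · rw [hom_iso e H0, hom_GK]

/-- every rooted tree gives a tree on `Fin n` -/
theorem exists_graph (K : RT) : ∃ T : SimpleGraph (Fin K.size), T.IsTree ∧ T.diam = K.dm ∧
    hom T H0 = homK K := by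
  let e0 : Ver K ≃ Fin K.size := Fintype.equivFinOfCardEq (card_ver K)
  let T : SimpleGraph (Fin K.size) := (GK K).map e0.toEmbedding
  let e : GK K ≃g T := SimpleGraph.Iso.map e0 (GK K)
  refine ⟨T, ?_, ?_, ?_⟩
  · have h := isTree_GK K
    exact e.isTree_iff.1 h
  · rw [← diam_iso e]
    exact le_antisymm (diam_le_dm K) (dm_le_diam K)
  · rw [← hom_iso e H0, hom_GK]

theorem hom_path_eq {n : ℕ} (hn : 0 < n) : hom (pathGraph n) H0 = homK (ups (n - 1) .pt) := by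
  obtain ⟨m, rfl⟩ : ∃ m, n = m + 1 := ⟨n - 1, by omega⟩
  rw [hom_pathGraph, hom_GK]
  rfl

/-- `d_{H0}(n) = n - 4` for all large `n` -/
theorem threshold : ∃ n0 : ℕ, ∀ n, n0 ≤ n → IsThreshold H0 n (n - 4) := by
  obtain ⟨n1, h1⟩ := lower
  obtain ⟨m0, h2⟩ := upper
  refine ⟨n1 + m0 + 8, fun n hn => ⟨⟨by omega, by omega, ?_⟩, ?_⟩⟩
  · intro T hT hd
    obtain ⟨K, hs, hdm, hh⟩ := exists_model (by omega) T hT
    rw [hom_path_eq (by omega), hh, ← hs]
    exact h1 K (by omega) (by omega)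
  · rintro d ⟨hd2, hdn, hd⟩
    by_contra hlt
    push Not at hlt
    obtain ⟨m, rfl⟩ : ∃ m, n = m + 8 := ⟨n - 8, by omega⟩
    have h3 := exists_graph (DE m)
    rw [size_DE] at h3
    obtain ⟨T, hT, hdi, hh⟩ := h3
    have h4 := hd T hT (by rw [hdi, dm_DE]; omega)
    rw [hom_path_eq (by omega), hh] at h4
    have h5 := h2 m (by omega)
    have h6 : m + 8 - 1 = m + 7 := by omega
    rw [h6] at h4
    omega

end Pool.Agent.Lib.MP_dbb03c_co.Cone
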