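import Pool.Agent.Lib.MP_dbb03c_co.Cone.Defs

/-!
# The graph of a rooted tree is a tree
-/

namespace Pool.Agent.Lib.MP_dbb03c_co.Cone

open SimpleGraph RT

instance fintypeVer : (K : RT) → Fintype (Ver K)
  | .pt => inferInstanceAs (Fintype Unit)
  | .graft t c => @instFintypeSum (Ver t) (Ver c) (fintypeVer t) (fintypeVer c)

theorem card_ver (K : RT) : Fintype.card (Ver K) = K.size := by
  induction K with
  | pt => exact Fintype.card_unit
  | graft t c iht ihc =>
    have h : Fintype.card (Ver (RT.graft t c)) = Fintype.card (Ver t) + Fintype.card (Ver c) :=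
      @Fintype.card_sum (Ver t) (Ver c) (fintypeVer t) (fintypeVer c)
    rw [h, iht, ihc]
    rfl

/-- Joining two trees by an edge gives a tree (edge count). -/
private theorem isTree_join {V W : Type} [Finite V] [Finite W] {G : SimpleGraph V}
    {H : SimpleGraph W} (hG : G.IsTree) (hH : H.IsTree) (v : V) (w : W) :
    ((SimpleGraph.sum G H) ⊔ SimpleGraph.edge (Sum.inl v) (Sum.inr w)).IsTree := by
  rw [isTree_iff_connected_and_card] at hG hH ⊢
  refine ⟨hG.1.sum_sup_edge hH.1, ?_⟩
  have hne : (Sum.inl v : V ⊕ W) ≠ Sum.inr w := Sum.inl_ne_inr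
  have hn : s((Sum.inl v : V ⊕ W), Sum.inr w) ∉ (SimpleGraph.sum G H).edgeSet := by
    rw [mem_edgeSet]
    exact not_adj_sum_inl_inr v w
  have h1 : ((SimpleGraph.sum G H) ⊔ SimpleGraph.edge (Sum.inl v) (Sum.inr w)).edgeSet =
      insert s((Sum.inl v : V ⊕ W), Sum.inr w) (SimpleGraph.sum G H).edgeSet := by
    rw [edgeSet_sup, edgeSet_edge_of_ne hne, Set.union_comm]
    rfl
  have h2 : Nat.card (SimpleGraph.sum G H).edgeSet = Nat.card G.edgeSet + Nat.card H.edgeSet := by
    rw [Nat.card_congr (edgeSetSumEquiv (G := G) (H := H)), Nat.card_sum]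
  have h3 : Nat.card ((SimpleGraph.sum G H) ⊔
      SimpleGraph.edge (Sum.inl v) (Sum.inr w)).edgeSet =
      Nat.card (SimpleGraph.sum G H).edgeSet + 1 := by
    rw [h1, Nat.card_coe_set_eq, Nat.card_coe_set_eq, Set.ncard_insert_of_notMem hn]
  rw [h3, h2, Nat.card_sum]
  have := hG.2
  have := hH.2
  omega

/-- Induction on `K`: `Connected.sum_sup_edge` for connectedness; acyclic:
`IsAcyclic.sup_edge_of_not_reachable` with `not_reachable_sum_inl_inr` (a disjoint union of
acyclic graphs is acyclic: a cycle lives in one part). -/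
theorem isTree_GK (K : RT) : (GK K).IsTree := by
  induction K with
  | pt =>
    have : Nonempty (Ver RT.pt) := ⟨()⟩
    have : Subsingleton (Ver RT.pt) := inferInstanceAs (Subsingleton Unit)
    exact IsTree.of_subsingleton
  | graft t c iht ihc => exact isTree_join iht ihc (rt t) (rt c)

end Pool.Agent.Lib.MP_dbb03c_co.Cone
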