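import Pool.Agent.Lib.MP_dbb03c_co.Cone.Numeric

/-!
# Upward closed hulls of finitely many vectors and the certificate checker
-/

namespace Pool.Agent.Lib.MP_dbb03c_co.Cone

open RT Matrix

/-- a vector with coordinates in units of `10^-10` -/
abbrev Q := ℕ × ℕ × ℕ × ℕ

/-- the real vector of a `Q` -/
noncomputable def q (v : Q) : Fin 4 → ℝ :=
  ![(v.1 : ℝ) / 10 ^ 10, (v.2.1 : ℝ) / 10 ^ 10, (v.2.2.1 : ℝ) / 10 ^ 10, (v.2.2.2 : ℝ) / 10 ^ 10]

theorem q_nonneg (v : Q) (i : Fin 4) : 0 ≤ q v i := by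
  fin_cases i <;> simp [q] <;> positivity

/-- `InH E c z`: some nonnegative combination, of total weight at least `c`, of the vectors of
the list `E` is at most `z` in every coordinate. -/
inductive InH (E : List Q) : ℝ → (Fin 4 → ℝ) → Prop
  | zero : InH E 0 0
  | add {c t : ℝ} {z : Fin 4 → ℝ} {e : Q} : InH E c z → e ∈ E → 0 ≤ t → InH E (c + t) (z + t • q e)
  | mono {c c' : ℝ} {z z' : Fin 4 → ℝ} : InH E c z → c' ≤ c → (∀ i, z i ≤ z' i) → InH E c' z'

namespace InH

variable {E E1 E2 E3 : List Q}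

theorem nonneg {c : ℝ} {z : Fin 4 → ℝ} (h : InH E c z) (i : Fin 4) : 0 ≤ z i := by
  induction h with
  | zero => exact le_rfl
  | @add c t z e _ _ ht ih =>
    simp only [Pi.add_apply, Pi.smul_apply, smul_eq_mul]
    have := mul_nonneg ht (q_nonneg e i)
    linarith
  | mono _ _ hz ih => exact ih.trans (hz i)

theorem smul {c : ℝ} {z : Fin 4 → ℝ} (h : InH E c z) {t : ℝ} (ht : 0 ≤ t) :
    InH E (t * c) (t • z) := by
  induction h with
  | zero => simpa using InH.zero
  | @add c s z e _ he hs ih =>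
    have := InH.add ih he (mul_nonneg ht hs)
    rw [mul_add, smul_add, smul_smul]
    exact this
  | mono _ hc hz ih =>
    refine ih.mono (mul_le_mul_of_nonneg_left hc ht) fun i => ?_
    simpa using mul_le_mul_of_nonneg_left (hz i) ht

theorem add' {c c' : ℝ} {z z' : Fin 4 → ℝ} (h : InH E c z) (h' : InH E c' z') :
    InH E (c + c') (z + z') := by
  induction h' with
  | zero => simpa using h
  | @add c' s z' e _ he hs ih =>
    have := InH.add ih he hs
    rw [← add_assoc, ← add_assoc]
    exact this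
  | mono _ hc hz ih =>
    refine ih.mono (by linarith) fun i => ?_
    simpa using hz i

theorem subset {c : ℝ} {z : Fin 4 → ℝ} (h : InH E c z) (hE : ∀ e ∈ E, e ∈ E1) : InH E1 c z := by
  induction h with
  | zero => exact .zero
  | add _ he hs ih => exact .add ih (hE _ he) hs
  | mono _ hc hz ih => exact ih.mono hc hz

theorem of_mem {e : Q} (he : e ∈ E) : InH E 1 (q e) := by
  simpa using InH.add .zero he (zero_le_one)

/-- linear closure -/
theorem map_P {c : ℝ} {z : Fin 4 → ℝ} (h : InH E c z) (hc : ∀ e ∈ E, InH E1 1 (P *ᵥ q e)) :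
    InH E1 c (P *ᵥ z) := by
  induction h with
  | zero => simpa using InH.zero
  | @add c t z e _ he ht ih =>
    have h1 := ih.add' ((hc e he).smul ht)
    rw [mul_one] at h1
    rw [Matrix.mulVec_add, Matrix.mulVec_smul]
    exact h1
  | mono _ hc' hz ih =>
    refine ih.mono hc' fun i => ?_
    simp only [Matrix.mulVec, dotProduct]
    exact Finset.sum_le_sum fun j _ => mul_le_mul_of_nonneg_left (hz j) (P_nonneg i j)

theorem mul_right {c g : ℝ} {x y : Fin 4 → ℝ} (hg : 0 ≤ g) (hy : ∀ i, 0 ≤ y i) (h : InH E c x)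
    (hc : ∀ e ∈ E, InH E3 g fun i => kap i * q e i * y i) :
    InH E3 (c * g) fun i => kap i * x i * y i := by
  induction h with
  | zero => simpa using InH.zero.mono (le_refl 0) (fun i => le_refl (0 : ℝ))
  | @add c t z e _ he ht ih =>
    have h1 := ih.add' ((hc e he).smul ht)
    refine h1.mono (by linarith) fun i => le_of_eq ?_
    simp only [Pi.add_apply, Pi.smul_apply, smul_eq_mul]
    ring
  | mono _ hc' hz ih =>
    refine ih.mono (mul_le_mul_of_nonneg_right hc' hg) fun i => ?_
    have := kap_pos i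
    have := hy i
    have := hz i
    gcongr

/-- bilinear closure -/
theorem mul {a b g : ℝ} {x y : Fin 4 → ℝ} (ha : 0 ≤ a) (hg : 0 ≤ g) (h1 : InH E1 a x)
    (h2 : InH E2 b y) (hc : ∀ e ∈ E1, ∀ f ∈ E2, InH E3 g fun i => kap i * q e i * q f i) :
    InH E3 (a * b * g) fun i => kap i * x i * y i := by
  have key : ∀ f ∈ E2, InH E3 (a * g) fun i => kap i * q f i * x i := by
    intro f hf
    refine (mul_right hg (q_nonneg f) h1 fun e he => hc e he f hf).mono le_rfl fun i => ?_
    exact le_of_eq (by ring)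
  have h3 := mul_right (mul_nonneg ha hg) h1.nonneg h2 key
  refine h3.mono (le_of_eq (by ring)) fun i => le_of_eq (by ring)

/-- lower bound for a functional -/
theorem le_sta {c m : ℝ} {z : Fin 4 → ℝ} (hm : 0 ≤ m) (h : InH E c z)
    (hE : ∀ e ∈ E, m ≤ ∑ i, sta i * q e i) : c * m ≤ ∑ i, sta i * z i := by
  induction h with
  | zero => simp
  | @add c t z e _ he ht ih =>
    have h1 := mul_le_mul_of_nonneg_left (hE e he) ht
    have h2 : ∑ i, sta i * (z + t • q e) i = ∑ i, sta i * z i + t * ∑ i, sta i * q e i := by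
      rw [Finset.mul_sum, ← Finset.sum_add_distrib]
      refine Finset.sum_congr rfl fun i _ => ?_
      simp only [Pi.add_apply, Pi.smul_apply, smul_eq_mul]
      ring
    rw [h2]
    linarith
  | @mono c c' z z' _ hc' hz ih =>
    have h1 := mul_le_mul_of_nonneg_right hc' hm
    have h2 : ∑ i, sta i * z i ≤ ∑ i, sta i * z' i :=
      Finset.sum_le_sum fun i _ => mul_le_mul_of_nonneg_left (hz i) (sta_pos i).le
    linarith

end InH

/-! ### the checker -/

/-- index look up with a default inside the list -/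
def look (e0 : Q) (E : List Q) (i : ℕ) : Q := (E.getD i e0)

/-- total weight and weighted sum of a combination -/
def comb (e0 : Q) (E : List Q) : List (ℕ × ℕ) → ℕ × ℕ × ℕ × ℕ × ℕ
  | [] => (0, 0, 0, 0, 0)
  | (i, w) :: l =>
    match look e0 E i, comb e0 E l with
    | (a, b, c, d), (t, x, y, z, u) => (t + w, x + w * a, y + w * b, z + w * c, u + w * d)

/-- check of `kap e f` against the combination `l`, gain `gN / gD` -/
def chkMul (e0 : Q) (E : List Q) (gN gD : ℕ) (e f : Q) (l : List (ℕ × ℕ)) : Bool :=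
  match comb e0 E l with
  | (t, x, y, z, u) =>
    Nat.blt 0 t &&
    Nat.ble (x * (gN * 100000000000000000000)) (t * gD * (460760154451 * (e.1 * f.1))) &&
    Nat.ble (y * (gN * 100000000000000000000)) (t * gD * (31554290781 * (e.2.1 * f.2.1))) &&
    Nat.ble (z * (gN * 100000000000000000000)) (t * gD * (145056196608 * (e.2.2.1 * f.2.2.1))) &&
    Nat.ble (u * (gN * 100000000000000000000)) (t * gD * (5108827500 * (e.2.2.2 * f.2.2.2)))

/-- the coordinate `(1 - p) a + p b`, `pl ≤ p ≤ pu`, against `x / t` -/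
def chkLin (t x a b pl pu : ℕ) : Bool :=
  match Nat.ble a b with
  | true => Nat.ble (10000000000 * x + t * (pl * a)) (t * (10000000000 * a) + t * (pl * b))
  | false => Nat.ble (10000000000 * x + t * (pu * a)) (t * (10000000000 * a) + t * (pu * b))

/-- check of `P e` against the combination `l` -/
def chkP (e0 : Q) (E : List Q) (e : Q) (l : List (ℕ × ℕ)) : Bool :=
  match comb e0 E l with
  | (t, x, y, z, u) =>
    Nat.blt 0 t &&
    chkLin t x e.2.1 e.1 352196432 352196433 &&
    chkLin t y e.2.2.1 e.1 5142821428 5142821429 &&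
    chkLin t z e.2.2.2 e.2.1 76613815 76613816 &&
    Nat.ble u (t * e.2.2.1)

def chkPs (e0 : Q) (E : List Q) : List Q → List (List (ℕ × ℕ)) → Bool
  | [], _ => true
  | _ :: _, [] => false
  | e :: es, l :: ls => chkP e0 E e l && chkPs e0 E es ls

def chkRow (e0 : Q) (E : List Q) (gN gD : ℕ) (e : Q) : List Q → List (List (ℕ × ℕ)) → Bool
  | [], _ => true
  | _ :: _, [] => false
  | f :: fs, l :: ls => chkMul e0 E gN gD e f l && chkRow e0 E gN gD e fs ls

def chkRect (e0 : Q) (E : List Q) (gN gD : ℕ) (F : List Q) : List Q → List (List (List (ℕ × ℕ))) → Bool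
  | [], _ => true
  | _ :: _, [] => false
  | e :: es, l :: ls => chkRow e0 E gN gD e F l && chkRect e0 E gN gD F es ls

def chkTri (e0 : Q) (E : List Q) (gN gD : ℕ) : List Q → List (List (List (ℕ × ℕ))) → Bool
  | [], _ => true
  | _ :: _, [] => false
  | e :: es, l :: ls => chkRow e0 E gN gD e (e :: es) l && chkTri e0 E gN gD es ls

/-! ### soundness -/

theorem look_mem {e0 : Q} {E : List Q} (h0 : e0 ∈ E) (i : ℕ) : look e0 E i ∈ E := by
  unfold look
  rw [List.getD_eq_getElem?_getD]
  rcases h : E[i]? with _ | x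
  · simpa using h0
  · simpa using List.mem_of_getElem? h

theorem comb_inH {e0 : Q} {E : List Q} (h0 : e0 ∈ E) (l : List (ℕ × ℕ)) :
    InH E ((comb e0 E l).1 : ℝ) (q (comb e0 E l).2) := by
  induction l with
  | nil =>
    refine InH.zero.mono ?_ fun i => ?_
    · simp [comb]
    · fin_cases i <;> simp [comb, q]
  | cons p l ih =>
    obtain ⟨i, w⟩ := p
    have h1 := InH.add ih (look_mem h0 i) (Nat.cast_nonneg (α := ℝ) w)
    refine h1.mono ?_ fun k => le_of_eq ?_
    · simp only [comb]
      push_cast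
      exact le_rfl
    · simp only [comb, Pi.add_apply, Pi.smul_apply, smul_eq_mul]
      fin_cases k <;> simp [q] <;> ring

theorem mul_aux {t x gN gD k a b : ℕ} {K : ℝ} (ht : 0 < t) (hD : 0 < gD)
    (hK : (k : ℝ) / 10 ^ 10 ≤ K)
    (h : x * (gN * 100000000000000000000) ≤ t * gD * (k * (a * b))) :
    (gN : ℝ) / gD / t * ((x : ℝ) / 10 ^ 10) ≤ K * ((a : ℝ) / 10 ^ 10) * ((b : ℝ) / 10 ^ 10) := by
  have ht' : (0 : ℝ) < t := by exact_mod_cast ht
  have hD' : (0 : ℝ) < gD := by exact_mod_cast hD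
  have h' : (x : ℝ) * (gN * 10 ^ 20) ≤ t * gD * (k * (a * b)) := by
    have : ((x * (gN * 100000000000000000000) : ℕ) : ℝ) ≤ ((t * gD * (k * (a * b)) : ℕ) : ℝ) := by
      exact_mod_cast h
    push_cast at this
    linarith
  have h1 : (gN : ℝ) / gD / t * ((x : ℝ) / 10 ^ 10) ≤
      (k : ℝ) / 10 ^ 10 * ((a : ℝ) / 10 ^ 10) * ((b : ℝ) / 10 ^ 10) := by
    have e1 : (gN : ℝ) / gD / t * ((x : ℝ) / 10 ^ 10) = (x * (gN * 10 ^ 20)) / (t * gD * 10 ^ 30) := by
      field_simp
    have e2 : (k : ℝ) / 10 ^ 10 * ((a : ℝ) / 10 ^ 10) * ((b : ℝ) / 10 ^ 10) =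
        (t * gD * (k * (a * b))) / (t * gD * 10 ^ 30) := by
      field_simp
    rw [e1, e2]
    gcongr
  refine h1.trans ?_
  gcongr

theorem chkMul_sound {e0 : Q} {E : List Q} (h0 : e0 ∈ E) {gN gD : ℕ} (hD : 0 < gD) {e f : Q}
    {l : List (ℕ × ℕ)} (h : chkMul e0 E gN gD e f l = true) :
    InH E ((gN : ℝ) / gD) fun i => kap i * q e i * q f i := by
  have hc := comb_inH h0 l
  unfold chkMul at h
  rcases hcomb : comb e0 E l with ⟨t, x, y, z, u⟩
  rw [hcomb] at h hc
  simp only [Bool.and_eq_true, Nat.blt_eq, Nat.ble_eq] at h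
  obtain ⟨⟨⟨⟨ht, hx⟩, hy⟩, hz⟩, hu⟩ := h
  have ht' : (0 : ℝ) < t := by exact_mod_cast ht
  have hD' : (0 : ℝ) < gD := by exact_mod_cast hD
  have hs : 0 ≤ (gN : ℝ) / gD / t := by positivity
  refine (hc.smul hs).mono (le_of_eq ?_) fun i => ?_
  · simp only
    field_simp
  · have hk := kapL_le
    fin_cases i
    · simpa [q] using mul_aux ht hD (by have := hk 0; simp [kapL] at this; norm_num at this ⊢; linarith) hx
    · simpa [q] using mul_aux ht hD (by have := hk 1; simp [kapL] at this; norm_num at this ⊢; linarith) hy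
    · simpa [q] using mul_aux ht hD (by have := hk 2; simp [kapL] at this; norm_num at this ⊢; linarith) hz
    · simpa [q] using mul_aux ht hD (by have := hk 3; simp [kapL] at this; norm_num at this ⊢; linarith) hu

theorem lin_aux {t x a b pl pu : ℕ} {p : ℝ} (ht : 0 < t) (h1 : (pl : ℝ) / 10 ^ 10 ≤ p)
    (h2 : p ≤ (pu : ℝ) / 10 ^ 10) (h : chkLin t x a b pl pu = true) :
    1 / (t : ℝ) * ((x : ℝ) / 10 ^ 10) ≤ p * ((b : ℝ) / 10 ^ 10) + (1 - p) * ((a : ℝ) / 10 ^ 10) := by
  have ht' : (0 : ℝ) < t := by exact_mod_cast ht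
  have key : ∀ r : ℕ, 10000000000 * x + t * (r * a) ≤ t * (10000000000 * a) + t * (r * b) →
      1 / (t : ℝ) * ((x : ℝ) / 10 ^ 10) ≤
        (r : ℝ) / 10 ^ 10 * ((b : ℝ) / 10 ^ 10) + (1 - (r : ℝ) / 10 ^ 10) * ((a : ℝ) / 10 ^ 10) := by
    intro r hr
    have hr' : (10 : ℝ) ^ 10 * x + t * (r * a) ≤ t * (10 ^ 10 * a) + t * (r * b) := by
      have : ((10000000000 * x + t * (r * a) : ℕ) : ℝ) ≤
          ((t * (10000000000 * a) + t * (r * b) : ℕ) : ℝ) := by exact_mod_cast hr
      push_cast at this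
      linarith
    have e1 : 1 / (t : ℝ) * ((x : ℝ) / 10 ^ 10) = (10 ^ 10 * x) / (t * 10 ^ 20) := by
      field_simp
    have e2 : (r : ℝ) / 10 ^ 10 * ((b : ℝ) / 10 ^ 10) + (1 - (r : ℝ) / 10 ^ 10) * ((a : ℝ) / 10 ^ 10) =
        (t * (10 ^ 10 * a) + t * (r * b) - t * (r * a)) / (t * 10 ^ 20) := by
      field_simp
      ring
    rw [e1, e2]
    gcongr
    linarith
  unfold chkLin at h
  rcases hab : Nat.ble a b with _ | _
  · rw [hab] at h
    have hba : b ≤ a := by
      rw [← Bool.not_eq_true, Nat.ble_eq] at hab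
      omega
    have hba' : (b : ℝ) / 10 ^ 10 ≤ (a : ℝ) / 10 ^ 10 := by
      have : (b : ℝ) ≤ a := by exact_mod_cast hba
      gcongr
    have h3 := key pu (by simpa using h)
    nlinarith
  · rw [hab] at h
    have hba : a ≤ b := by simpa using hab
    have hba' : (a : ℝ) / 10 ^ 10 ≤ (b : ℝ) / 10 ^ 10 := by
      have : (a : ℝ) ≤ b := by exact_mod_cast hba
      gcongr
    have h3 := key pl (by simpa using h)
    nlinarith

theorem chkP_sound {e0 : Q} {E : List Q} (h0 : e0 ∈ E) {e : Q} {l : List (ℕ × ℕ)}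
    (h : chkP e0 E e l = true) : InH E 1 (P *ᵥ q e) := by
  have hc := comb_inH h0 l
  unfold chkP at h
  rcases hcomb : comb e0 E l with ⟨t, x, y, z, u⟩
  rw [hcomb] at h hc
  simp only [Bool.and_eq_true, Nat.blt_eq, Nat.ble_eq] at h
  obtain ⟨⟨⟨⟨ht, hx⟩, hy⟩, hz⟩, hu⟩ := h
  have ht' : (0 : ℝ) < t := by exact_mod_cast ht
  have hs : 0 ≤ 1 / (t : ℝ) := by positivity
  refine (hc.smul hs).mono (le_of_eq ?_) fun i => ?_
  · simp only
    field_simp
  · fin_cases i
    · have := lin_aux (p := P 0 0) ht (by have := P00_lo; norm_num at this ⊢; linarith)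
        (by have := P00_hi; norm_num at this ⊢; linarith) hx
      have e := P_mulVec0 (q e)
      simp only [Fin.zero_eta, Pi.smul_apply, smul_eq_mul] at *
      rw [e]
      simpa [q] using this
    · have := lin_aux (p := P 1 0) ht (by have := P10_lo; norm_num at this ⊢; linarith)
        (by have := P10_hi; norm_num at this ⊢; linarith) hy
      have e := P_mulVec1 (q e)
      simp only [Fin.mk_one, Pi.smul_apply, smul_eq_mul] at *
      rw [e]
      simpa [q] using this
    · have := lin_aux (p := P 2 1) ht (by have := P21_lo; norm_num at this ⊢; linarith)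
        (by have := P21_hi; norm_num at this ⊢; linarith) hz
      have e := P_mulVec2 (q e)
      simp only [Fin.reduceFinMk, Pi.smul_apply, smul_eq_mul] at *
      rw [e]
      simpa [q] using this
    · have e' := P_mulVec3 (q e)
      simp only [Fin.reduceFinMk, Pi.smul_apply, smul_eq_mul] at *
      rw [e']
      have hu' : (u : ℝ) ≤ t * e.2.2.1 := by exact_mod_cast hu
      simp only [q, Matrix.cons_val]
      rw [one_div, inv_mul_le_iff₀ ht', ← mul_div_assoc]
      gcongr

theorem chkPs_sound {e0 : Q} {E : List Q} (h0 : e0 ∈ E) {es : List Q} {ls : List (List (ℕ × ℕ))}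
    (h : chkPs e0 E es ls = true) : ∀ e ∈ es, InH E 1 (P *ᵥ q e) := by
  induction es generalizing ls with
  | nil => simp
  | cons e es ih =>
    cases ls with
    | nil => simp [chkPs] at h
    | cons l ls =>
      simp only [chkPs, Bool.and_eq_true] at h
      intro e' he'
      rcases List.mem_cons.1 he' with rfl | he'
      · exact chkP_sound h0 h.1
      · exact ih h.2 e' he'

theorem chkRow_sound {e0 : Q} {E : List Q} (h0 : e0 ∈ E) {gN gD : ℕ} (hD : 0 < gD) {e : Q}
    {fs : List Q} {ls : List (List (ℕ × ℕ))} (h : chkRow e0 E gN gD e fs ls = true) :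
    ∀ f ∈ fs, InH E ((gN : ℝ) / gD) fun i => kap i * q e i * q f i := by
  induction fs generalizing ls with
  | nil => simp
  | cons f fs ih =>
    cases ls with
    | nil => simp [chkRow] at h
    | cons l ls =>
      simp only [chkRow, Bool.and_eq_true] at h
      intro f' hf'
      rcases List.mem_cons.1 hf' with rfl | hf'
      · exact chkMul_sound h0 hD h.1
      · exact ih h.2 f' hf'

theorem chkRect_sound {e0 : Q} {E : List Q} (h0 : e0 ∈ E) {gN gD : ℕ} (hD : 0 < gD) {F es : List Q}
    {ls : List (List (List (ℕ × ℕ)))} (h : chkRect e0 E gN gD F es ls = true) :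
    ∀ e ∈ es, ∀ f ∈ F, InH E ((gN : ℝ) / gD) fun i => kap i * q e i * q f i := by
  induction es generalizing ls with
  | nil => simp
  | cons e es ih =>
    cases ls with
    | nil => simp [chkRect] at h
    | cons l ls =>
      simp only [chkRect, Bool.and_eq_true] at h
      intro e' he'
      rcases List.mem_cons.1 he' with rfl | he'
      · exact chkRow_sound h0 hD h.1
      · exact ih h.2 e' he'

theorem chkTri_sound {e0 : Q} {E : List Q} (h0 : e0 ∈ E) {gN gD : ℕ} (hD : 0 < gD) {es : List Q}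
    {ls : List (List (List (ℕ × ℕ)))} (h : chkTri e0 E gN gD es ls = true) :
    ∀ e ∈ es, ∀ f ∈ es, InH E ((gN : ℝ) / gD) fun i => kap i * q e i * q f i := by
  induction es generalizing ls with
  | nil => simp
  | cons e es ih =>
    cases ls with
    | nil => simp [chkTri] at h
    | cons l ls =>
      simp only [chkTri, Bool.and_eq_true] at h
      have hrow := chkRow_sound h0 hD h.1
      intro e' he' f' hf'
      rcases List.mem_cons.1 he' with rfl | he''
      · exact hrow f' hf'
      · rcases List.mem_cons.1 hf' with rfl | hf''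
        · refine (hrow e' he').mono le_rfl fun i => le_of_eq (by ring)
        · exact ih h.2 e' he'' f' hf''

end Pool.Agent.Lib.MP_dbb03c_co.Cone
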