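import Pool.Agent.Lib.MP_dbb03c_co.Cone.Class
import Pool.Agent.Lib.MP_dbb03c_co.Cone.Doeblin

/-!
# Comparison with the path in the combinatorial model
-/

namespace Pool.Agent.Lib.MP_dbb03c_co.Cone

open RT Matrix Filter

/-- the normalised number of colourings of the path tends to one: `doeblin_tendsto` for
`z = (kap i)⁻¹` and `sum_sta_div_kap` -/
theorem path_tendsto : Tendsto
    (fun n => ∑ i, sta i * (kap i)⁻¹ * (P ^ n *ᵥ fun i => (kap i)⁻¹) i) atTop (nhds 1) := by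
  have h : Tendsto (fun n => ∑ i, sta i * (kap i)⁻¹ * (P ^ n *ᵥ fun i => (kap i)⁻¹) i) atTop
      (nhds (∑ i, sta i * (kap i)⁻¹ * ∑ j, sta j * (kap j)⁻¹)) :=
    tendsto_finsetSum _ fun i _ => (doeblin_tendsto (fun i => (kap i)⁻¹) i).const_mul _
  rw [sum_sta_div_kap] at h
  simpa only [mul_one, sum_sta_div_kap] using h

private theorem Lower_xh_nonneg (K : RT) (i : Fin 4) : 0 ≤ xh K i := by
  have h := xv_eq K i
  have h1 : 0 < kap i * lam ^ (K.size - 1) := mul_pos (kap_pos i) (pow_pos lam_pos _)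
  have h2 : (0 : ℝ) ≤ xv K i := Nat.cast_nonneg _
  rw [h] at h2
  exact nonneg_of_mul_nonneg_right h2 h1

private theorem Lower_psi_le (i : Fin 4) : psi i ≤ 91 := by
  have h0 := psi0_hi
  have h1 := psi1_hi
  have h2 := lam_hi
  fin_cases i
  · exact h0.trans (by norm_num)
  · exact h1.trans (by norm_num)
  · exact h2.trans (by norm_num)
  · exact (by norm_num : (1 : ℝ) ≤ 91)

private theorem Lower_kap_le (i : Fin 4) : kap i ≤ 47 := by
  rw [kap, div_le_iff₀ S2_pos]
  have h1 : psi i * S1 ≤ 91 * 996632.6544339 :=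
    mul_le_mul (Lower_psi_le i) S1_hi S1_pos.le (by norm_num)
  have h2 := S2_lo
  have h3 : (91 * 996632.6544339 : ℝ) ≤ 47 * 1950805.0610161 := by norm_num
  linarith

private theorem Lower_sum_ge (K : RT) :
    1 / 47 * ∑ i, sta i * xh K i ≤ ∑ i, sta i * (kap i)⁻¹ * xh K i := by
  rw [Finset.mul_sum]
  refine Finset.sum_le_sum fun i _ => ?_
  have h1 : (1 / 47 : ℝ) ≤ (kap i)⁻¹ := by
    rw [one_div]
    exact inv_anti₀ (kap_pos i) (Lower_kap_le i)
  have h2 : 0 ≤ sta i * xh K i := mul_nonneg (sta_pos i).le (Lower_xh_nonneg K i)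
  calc 1 / 47 * (sta i * xh K i) ≤ (kap i)⁻¹ * (sta i * xh K i) :=
        mul_le_mul_of_nonneg_right h1 h2
    _ = sta i * (kap i)⁻¹ * xh K i := by ring

/-- many leaves: `(kap i)⁻¹ ≥ 1 / 47`, `E_ge_off2` and `lv_le` -/
theorem many_leaves : ∃ L0 : ℕ, ∀ K : RT, L0 ≤ K.lv →
    2 ≤ ∑ i, sta i * (kap i)⁻¹ * xh K i := by
  obtain ⟨g, hg⟩ := pow_unbounded_of_one_lt (94 : ℝ) (by norm_num : (1 : ℝ) < 10001 / 10000)
  refine ⟨4 * (g + 2), fun K hK => ?_⟩
  have h1 := lv_le K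
  have h2 : g + 1 ≤ gn K := by omega
  have h3 : K.ht + 3 ≤ K.size := by
    by_contra hne
    have := gn_eq_zero K (by omega)
    omega
  have h4 := E_ge_off2 K h3
  have h5 : (10001 / 10000 : ℝ) ^ g ≤ (10001 / 10000 : ℝ) ^ gn K :=
    pow_le_pow_right₀ (by norm_num) (by omega)
  have h6 := Lower_sum_ge K
  linarith

private theorem Lower_off2 (K : RT) (h : K.ht + 3 ≤ K.size) :
    1.0012 ≤ ∑ i, sta i * xh K i := by
  have h1 := E_ge_off2 K h
  have h2 : (1 : ℝ) ≤ (10001 / 10000 : ℝ) ^ gn K := one_le_pow₀ (by norm_num)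
  linarith

/-- Few leaves and large size: `exists_join` and `doeblin_lower`.  If `K = K1 - segment - K2` with
`K1.ht + K2.ht + M + 1 ≤ K.dm ≤ K.size - 4` then one of `K1`, `K2` has two vertices off, and
`(1 - 1/10000) * 1.0012 * 0.9991 ≥ 1.00015`. -/
theorem few_leaves (L0 : ℕ) : ∃ n0 : ℕ, ∀ K : RT, K.lv < L0 → n0 ≤ K.size → K.dm + 4 ≤ K.size →
    1.00015 ≤ ∑ i, sta i * (kap i)⁻¹ * xh K i := by
  obtain ⟨M, hM⟩ := doeblin_lower (η := 1 / 10000) (by norm_num)
  refine ⟨(2 * (M + 1) + 2) * L0 + 1, fun K hl hn hd => ?_⟩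
  obtain ⟨K1, K2, h1, h2, h3⟩ := exists_join M K (by
    have : (2 * (M + 1) + 2) * K.lv ≤ (2 * (M + 1) + 2) * L0 := Nat.mul_le_mul_left _ hl.le
    omega)
  have h4 := homK_eq K
  have h5 := homK_join K1 K2 M
  rw [h1, h5, ← h2] at h4
  have h6 : 0 < lam ^ (K.size - 1) * Zc := mul_pos (pow_pos lam_pos _) Zc_pos
  have h7 := mul_left_cancel₀ h6.ne' h4
  rw [← h7]
  set E1 := ∑ i, sta i * xh K1 i with hE1
  set E2 := ∑ i, sta i * xh K2 i with hE2
  have h8 : (1 - 1 / 10000) * E2 * E1 ≤ ∑ i, sta i * xh K1 i * (P ^ (M + 1) *ᵥ xh K2) i := by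
    rw [hE1, Finset.mul_sum]
    refine Finset.sum_le_sum fun i _ => ?_
    have h9 := hM (M + 1) (by omega) (xh K2) (Lower_xh_nonneg K2) i
    have h10 : 0 ≤ sta i * xh K1 i := mul_nonneg (sta_pos i).le (Lower_xh_nonneg K1 i)
    rw [mul_comm]
    exact mul_le_mul_of_nonneg_left h9 h10
  refine le_trans ?_ h8
  have h11 := E_ge K1
  have h12 := E_ge K2
  rw [← hE1] at h11
  rw [← hE2] at h12
  have h13 : K1.ht + 3 ≤ K1.size ∨ K2.ht + 3 ≤ K2.size := by omega
  rcases h13 with h13 | h13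
  · have h14 := Lower_off2 K1 h13
    rw [← hE1] at h14
    have h15 : (0.9991 : ℝ) * 1.0012 ≤ E2 * E1 :=
      mul_le_mul h12 h14 (by norm_num) (le_trans (by norm_num) h12)
    norm_num at h15 ⊢
    linarith
  · have h14 := Lower_off2 K2 h13
    rw [← hE2] at h14
    have h15 : (1.0012 : ℝ) * 0.9991 ≤ E2 * E1 :=
      mul_le_mul h14 h11 (by norm_num) (le_trans (by norm_num) h14)
    norm_num at h15 ⊢
    linarith

/-- trees whose diameter is at most the number of vertices minus four -/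
theorem lower : ∃ n0 : ℕ, ∀ K : RT, n0 ≤ K.size → K.dm + 4 ≤ K.size →
    homK (ups (K.size - 1) .pt) ≤ homK K := by
  obtain ⟨L0, hL⟩ := many_leaves
  obtain ⟨n0, hn0⟩ := few_leaves L0
  obtain ⟨n1, hn1⟩ := eventually_atTop.1
    (path_tendsto.eventually_lt_const (show (1 : ℝ) < 1.0001 by norm_num))
  refine ⟨max n0 (n1 + 1), fun K hK hd => ?_⟩
  have h1 : n0 ≤ K.size := le_trans (le_max_left _ _) hK
  have h2 : n1 ≤ K.size - 1 := by
    have := le_trans (le_max_right n0 (n1 + 1)) hK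
    omega
  have h3 := hn1 _ h2
  have h4 : 1.00015 ≤ ∑ i, sta i * (kap i)⁻¹ * xh K i := by
    rcases lt_or_ge K.lv L0 with h | h
    · exact hn0 K h h1 hd
    · exact le_trans (by norm_num) (hL K h)
  have h5 : 0 < lam ^ (K.size - 1) * Zc := mul_pos (pow_pos lam_pos _) Zc_pos
  have h6 : (homK (ups (K.size - 1) .pt) : ℝ) ≤ homK K := by
    rw [homK_path, homK_eq K]
    refine mul_le_mul_of_nonneg_left ?_ h5.le
    norm_num at h3 h4
    linarith
  exact_mod_cast h6

/-- the tree with end gadgets at both ends -/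
def DE (m : ℕ) : RT := RT.graft Eg (ups m Eg)

theorem size_DE (m : ℕ) : (DE m).size = m + 8 := by
  rw [DE, RT.size, size_ups]
  simp only [Eg, RT.size]
  omega

private theorem Lower_dm_ups_Eg (m : ℕ) : (ups m Eg).dm = max 3 (m + 2) := by
  induction m with
  | zero => rfl
  | succ m ih =>
    rw [ups, up, RT.dm, ih, ht_ups]
    simp only [Eg, RT.ht, RT.dm]
    omega

theorem dm_DE (m : ℕ) : (DE m).dm = m + 5 := by
  rw [DE, RT.dm, Lower_dm_ups_Eg, ht_ups]
  simp only [Eg, RT.ht, RT.dm]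
  omega

/-- the double gadget has fewer colourings than the path: the normalised number tends to
`(∑ sta i * xh Eg i) ^ 2 < 1` -/
theorem upper : ∃ m0 : ℕ, ∀ m, m0 ≤ m → homK (DE m) < homK (ups (m + 7) .pt) := by
  set e := ∑ i, sta i * xh Eg i with he
  have he1 : e < 0.99995 := Eg_lt
  have he0 : 0 < e := Eg_pos
  have hlim : Tendsto (fun m => ∑ i, sta i * xh Eg i * (P ^ (m + 1) *ᵥ xh Eg) i) atTop
      (nhds (e * e)) := by
    have h : Tendsto (fun m => ∑ i, sta i * xh Eg i * (P ^ (m + 1) *ᵥ xh Eg) i) atTop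
        (nhds (∑ i, sta i * xh Eg i * e)) :=
      tendsto_finsetSum _ fun i _ =>
        ((doeblin_tendsto (xh Eg) i).comp (tendsto_add_atTop_nat 1)).const_mul _
    rwa [← Finset.sum_mul] at h
  have he2 : e * e < 0.99991 := by
    have : e * e ≤ 0.99995 * 0.99995 := mul_le_mul he1.le he1.le he0.le (by norm_num)
    norm_num at this ⊢
    linarith
  obtain ⟨m1, hm1⟩ := eventually_atTop.1 (hlim.eventually_lt_const he2)
  obtain ⟨n1, hn1⟩ := eventually_atTop.1
    (path_tendsto.eventually_const_lt (show (0.99991 : ℝ) < 1 by norm_num))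
  refine ⟨max m1 n1, fun m hm => ?_⟩
  have h1 := hm1 m (le_trans (le_max_left _ _) hm)
  have h2 := hn1 (m + 7) (by
    have := le_trans (le_max_right m1 n1) hm
    omega)
  have h3 : 0 < lam ^ (m + 7) * Zc := mul_pos (pow_pos lam_pos _) Zc_pos
  have h4 : (homK (DE m) : ℝ) < homK (ups (m + 7) .pt) := by
    have hs : Eg.size + Eg.size + m - 1 = m + 7 := by
      simp only [Eg, RT.size]
      omega
    rw [DE, homK_join, hs, homK_path]
    exact mul_lt_mul_of_pos_left (h1.trans h2) h3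
  exact_mod_cast h4

end Pool.Agent.Lib.MP_dbb03c_co.Cone
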