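import Pool.Agent.Lib.MP_dbb03c_co.Cone.Perron

/-!
# Numerical enclosures

All numbers are explicit functions of `lam`, which is enclosed up to `10^-16`.
True values: `psi 0 = 90.1890217242412`, `psi 1 = 6.17642517330676015`,
`S1 = 996632.654433830002`, `S2 = 1950805.06101612675`, kap = `46.0760154451320807`,
`3.15542907817674463`, `14.5056196608483227`, `0.510882750075862719`, sta = `0.00416959121242941`,
`0.00782204817565666`, `0.495903834545142590`, `0.492104526066771341`, `P 0 0 = 0.0352196432845107`,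
`P 1 0 = 0.514282142854189628`, `P 2 1 = 0.00766138152945739`.
-/

namespace Pool.Agent.Lib.MP_dbb03c_co.Cone

open RT Matrix

private theorem psi_0 : psi 0 = lam * (lam ^ 2 - 803) := by
  have h : psi 0 = lam ^ 3 - 803 * lam := rfl
  rw [h]; ring

private theorem psi_1 : psi 1 = lam ^ 2 - 800 := rfl

private theorem psi_2 : psi 2 = lam := rfl

private theorem psi_3 : psi 3 = 1 := rfl

private theorem lamsq_lo : (28.3932461189858804 : ℝ) ^ 2 ≤ lam ^ 2 :=
  pow_le_pow_left₀ (by norm_num) lam_lo 2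

private theorem lamsq_hi : lam ^ 2 ≤ (28.3932461189858805 : ℝ) ^ 2 :=
  pow_le_pow_left₀ lam_pos.le lam_hi 2

theorem psi0_lo : 90.1890217242410 ≤ psi 0 := by
  rw [psi_0]
  have h1 := lamsq_lo
  have h2 := lam_lo
  have h3 : (28.3932461189858804 : ℝ) * ((28.3932461189858804 : ℝ) ^ 2 - 803) ≤
      lam * (lam ^ 2 - 803) :=
    mul_le_mul h2 (by linarith) (by norm_num) lam_pos.le
  exact le_trans (by norm_num) h3

theorem psi0_hi : psi 0 ≤ 90.1890217242414 := by
  rw [psi_0]
  have h1 := lamsq_hi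
  have h0 := lamsq_lo
  have h2 := lam_hi
  have h3 : lam * (lam ^ 2 - 803) ≤
      (28.3932461189858805 : ℝ) * ((28.3932461189858805 : ℝ) ^ 2 - 803) :=
    mul_le_mul h2 (by linarith) (by norm_num at h0 ⊢; linarith) (by norm_num)
  exact le_trans h3 (by norm_num)

theorem psi1_lo : 6.1764251733067 ≤ psi 1 := by
  rw [psi_1]
  have h1 := lamsq_lo
  norm_num at h1 ⊢
  linarith

theorem psi1_hi : psi 1 ≤ 6.1764251733068 := by
  rw [psi_1]
  have h1 := lamsq_hi
  norm_num at h1 ⊢
  linarith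

private theorem S1_eq : S1 = psi 0 + 400 * psi 1 + 1200 * lam + 960000 := by
  simp only [S1, Fin.sum_univ_four, psi_2, psi_3, N]
  simp

private theorem S2_eq : S2 = psi 0 ^ 2 + 400 * psi 1 ^ 2 + 1200 * lam ^ 2 + 960000 := by
  simp only [S2, Fin.sum_univ_four, psi_2, psi_3, N]
  simp

theorem S1_lo : 996632.6544338 ≤ S1 := by
  rw [S1_eq]
  have h1 := psi0_lo
  have h2 := psi1_lo
  have h3 := lam_lo
  norm_num at h1 h2 h3 ⊢
  linarith

theorem S1_hi : S1 ≤ 996632.6544339 := by
  rw [S1_eq]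
  have h1 := psi0_hi
  have h2 := psi1_hi
  have h3 := lam_hi
  norm_num at h1 h2 h3 ⊢
  linarith

theorem S2_lo : 1950805.0610161 ≤ S2 := by
  rw [S2_eq]
  have h1 := pow_le_pow_left₀ (by norm_num) psi0_lo 2
  have h2 := pow_le_pow_left₀ (by norm_num) psi1_lo 2
  have h3 := lamsq_lo
  norm_num at h1 h2 h3 ⊢
  linarith

theorem S2_hi : S2 ≤ 1950805.0610162 := by
  rw [S2_eq]
  have h1 := pow_le_pow_left₀ (psi_pos 0).le psi0_hi 2
  have h2 := pow_le_pow_left₀ (psi_pos 1).le psi1_hi 2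
  have h3 := lamsq_hi
  norm_num at h1 h2 h3 ⊢
  linarith

/-- lower bounds for `kap` -/
noncomputable def kapL : Fin 4 → ℝ := ![46.0760154451, 3.1554290781, 14.5056196608, 0.5108827500]

private theorem kap_aux {i : Fin 4} {c x : ℝ} (hx : 0 ≤ x) (hp : x ≤ psi i)
    (h : c * 1950805.0610162 ≤ x * 996632.6544338) (hc : 0 ≤ c) : c ≤ kap i := by
  rw [kap, le_div_iff₀ S2_pos]
  calc c * S2 ≤ c * 1950805.0610162 := mul_le_mul_of_nonneg_left S2_hi hc
    _ ≤ x * 996632.6544338 := h
    _ ≤ psi i * S1 := mul_le_mul hp S1_lo (by norm_num) (psi_pos i).le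

theorem kapL_le (i : Fin 4) : kapL i ≤ kap i := by
  fin_cases i
  · exact kap_aux (x := 90.1890217242410) (by norm_num) psi0_lo
      (by simp only [kapL]; norm_num) (by simp only [kapL]; norm_num)
  · exact kap_aux (x := 6.1764251733067) (by norm_num) psi1_lo
      (by simp only [kapL]; norm_num) (by simp only [kapL]; norm_num)
  · exact kap_aux (x := 28.3932461189858804) (by norm_num) lam_lo
      (by simp only [kapL]; norm_num) (by simp only [kapL]; norm_num)
  · exact kap_aux (x := 1) (by norm_num) le_rfl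
      (by simp only [kapL]; norm_num) (by simp only [kapL]; norm_num)

/-- lower bounds for `sta` -/
noncomputable def staL : Fin 4 → ℝ := ![0.0041695912, 0.0078220481, 0.4959038345, 0.4921045260]

private theorem sta_aux {i : Fin 4} {c x : ℝ} (hx : 0 ≤ x) (hp : x ≤ psi i)
    (h : c * 1950805.0610162 ≤ N i * x ^ 2) (hc : 0 ≤ c) : c ≤ sta i := by
  rw [sta, le_div_iff₀ S2_pos]
  calc c * S2 ≤ c * 1950805.0610162 := mul_le_mul_of_nonneg_left S2_hi hc
    _ ≤ N i * x ^ 2 := h
    _ ≤ N i * psi i ^ 2 := mul_le_mul_of_nonneg_left (pow_le_pow_left₀ hx hp 2) (Nat.cast_nonneg _)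

theorem staL_le (i : Fin 4) : staL i ≤ sta i := by
  fin_cases i
  · exact sta_aux (x := 90.1890217242410) (by norm_num) psi0_lo
      (by simp only [staL, N]; norm_num) (by simp only [staL]; norm_num)
  · exact sta_aux (x := 6.1764251733067) (by norm_num) psi1_lo
      (by simp only [staL, N]; norm_num) (by simp only [staL]; norm_num)
  · exact sta_aux (x := 28.3932461189858804) (by norm_num) lam_lo
      (by simp only [staL, N]; norm_num) (by simp only [staL]; norm_num)
  · exact sta_aux (x := 1) (by norm_num) le_rfl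
      (by simp only [staL, N]; norm_num) (by simp only [staL]; norm_num)

private theorem P_00 : P 0 0 = 1 / lam := by
  have h : P 0 0 = ((1 : ℕ) : ℝ) * psi 0 / (lam * psi 0) := rfl
  have h0 := psi_pos 0
  have h1 := lam_pos
  rw [h]
  field_simp
  simp

private theorem P_10 : P 1 0 = psi 0 / (lam * psi 1) := by
  have h : P 1 0 = ((1 : ℕ) : ℝ) * psi 0 / (lam * psi 1) := rfl
  rw [h, Nat.cast_one, one_mul]

private theorem P_21 : P 2 1 = psi 1 / (lam * lam) := by
  have h : P 2 1 = ((1 : ℕ) : ℝ) * psi 1 / (lam * lam) := rfl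
  rw [h, Nat.cast_one, one_mul]

theorem P00_lo : 0.0352196432 ≤ P 0 0 := by
  rw [P_00, le_div_iff₀ lam_pos]
  have h := lam_hi
  norm_num at h ⊢
  linarith

theorem P00_hi : P 0 0 ≤ 0.0352196433 := by
  rw [P_00, div_le_iff₀ lam_pos]
  have h := lam_lo
  norm_num at h ⊢
  linarith

private theorem lp_hi {x : ℝ} {i : Fin 4} (h : psi i ≤ x) :
    lam * psi i ≤ 28.3932461189858805 * x :=
  mul_le_mul lam_hi h (psi_pos i).le (by norm_num)

private theorem lp_lo {x : ℝ} {i : Fin 4} (h0 : 0 ≤ x) (h : x ≤ psi i) :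
    28.3932461189858804 * x ≤ lam * psi i :=
  mul_le_mul lam_lo h h0 lam_pos.le

theorem P10_lo : 0.5142821428 ≤ P 1 0 := by
  rw [P_10, le_div_iff₀ (mul_pos lam_pos (psi_pos 1))]
  have h := lp_hi psi1_hi
  have h0 := psi0_lo
  norm_num at h h0 ⊢
  linarith

theorem P10_hi : P 1 0 ≤ 0.5142821429 := by
  rw [P_10, div_le_iff₀ (mul_pos lam_pos (psi_pos 1))]
  have h := lp_lo (by norm_num) psi1_lo
  have h0 := psi0_hi
  norm_num at h h0 ⊢
  linarith

theorem P21_lo : 0.0076613815 ≤ P 2 1 := by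
  rw [P_21, le_div_iff₀ (mul_pos lam_pos lam_pos)]
  have h := lamsq_hi
  have h0 := psi1_lo
  norm_num at h h0 ⊢
  nlinarith

theorem P21_hi : P 2 1 ≤ 0.0076613816 := by
  rw [P_21, div_le_iff₀ (mul_pos lam_pos lam_pos)]
  have h := lamsq_lo
  have h0 := psi1_hi
  norm_num at h h0 ⊢
  nlinarith

private theorem row (i : Fin 4) : P i 0 + P i 1 + P i 2 + P i 3 = 1 := by
  have h := congrFun P_one i
  simpa [Matrix.mulVec, dotProduct, Fin.sum_univ_four] using h

private theorem mv (z : Fin 4 → ℝ) (i : Fin 4) :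
    (P *ᵥ z) i = P i 0 * z 0 + P i 1 * z 1 + P i 2 * z 2 + P i 3 * z 3 := by
  simp [Matrix.mulVec, dotProduct, Fin.sum_univ_four]

private theorem P_zero {i j : Fin 4} (h : W i j = 0) : P i j = 0 := by
  simp [P, h]

/-- the four coordinates of `P z` (row sums are one, the other entries vanish) -/
theorem P_mulVec0 (z : Fin 4 → ℝ) : (P *ᵥ z) 0 = P 0 0 * z 0 + (1 - P 0 0) * z 1 := by
  have h := row 0
  have h2 : P 0 2 = 0 := P_zero rfl
  have h3 : P 0 3 = 0 := P_zero rfl
  rw [mv, h2, h3]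
  rw [h2, h3] at h
  have h1 : P 0 1 = 1 - P 0 0 := by linarith
  rw [h1]; ring

theorem P_mulVec1 (z : Fin 4 → ℝ) : (P *ᵥ z) 1 = P 1 0 * z 0 + (1 - P 1 0) * z 2 := by
  have h := row 1
  have h2 : P 1 1 = 0 := P_zero rfl
  have h3 : P 1 3 = 0 := P_zero rfl
  rw [mv, h2, h3]
  rw [h2, h3] at h
  have h1 : P 1 2 = 1 - P 1 0 := by linarith
  rw [h1]; ring

theorem P_mulVec2 (z : Fin 4 → ℝ) : (P *ᵥ z) 2 = P 2 1 * z 1 + (1 - P 2 1) * z 3 := by
  have h := row 2
  have h2 : P 2 0 = 0 := P_zero rfl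
  have h3 : P 2 2 = 0 := P_zero rfl
  rw [mv, h2, h3]
  rw [h2, h3] at h
  have h1 : P 2 3 = 1 - P 2 1 := by linarith
  rw [h1]; ring

theorem P_mulVec3 (z : Fin 4 → ℝ) : (P *ᵥ z) 3 = z 2 := by
  have h := row 3
  have h0 : P 3 0 = 0 := P_zero rfl
  have h2 : P 3 1 = 0 := P_zero rfl
  have h3 : P 3 3 = 0 := P_zero rfl
  rw [mv, h0, h2, h3]
  rw [h0, h2, h3] at h
  have h1 : P 3 2 = 1 := by linarith
  rw [h1]; ring

/-- lower bounds for the vector of the two vertex tree: `xh (up pt) i = (W 1) i / (lam kap i)`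
with `W 1 = (401, 4, 801, 1)` -/
noncomputable def p1L : Fin 4 → ℝ := ![0.3065168898, 0.0446464076, 1.9448279308, 0.0689387990]

private theorem xh_up_pt (i : Fin 4) :
    xh (up .pt) i = (xv (up .pt) i : ℝ) * S2 / (lam * psi i * S1) := by
  have h := xv_eq (up .pt) i
  have hs : (up .pt).size - 1 = 1 := rfl
  rw [hs, pow_one, kap] at h
  have h1 := S1_pos
  have h2 := S2_pos
  have h3 := lam_pos
  have h4 := psi_pos i
  rw [h]
  field_simp

private theorem p1_aux {i : Fin 4} {c x w : ℝ} (hp : psi i ≤ x) (hc : 0 ≤ c)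
    (hw : (xv (up .pt) i : ℝ) = w)
    (h : c * (28.3932461189858805 * x * 996632.6544339) ≤ w * 1950805.0610161) :
    c ≤ xh (up .pt) i := by
  rw [xh_up_pt, le_div_iff₀ (mul_pos (mul_pos lam_pos (psi_pos i)) S1_pos), hw]
  have hw0 : 0 ≤ w := by rw [← hw]; exact Nat.cast_nonneg _
  calc c * (lam * psi i * S1) ≤ c * (28.3932461189858805 * x * 996632.6544339) := by
        refine mul_le_mul_of_nonneg_left ?_ hc
        refine mul_le_mul (lp_hi hp) S1_hi S1_pos.le ?_
        exact (mul_pos lam_pos (psi_pos i)).le.trans (lp_hi hp)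
    _ ≤ w * 1950805.0610161 := h
    _ ≤ w * S2 := mul_le_mul_of_nonneg_left S2_lo hw0

theorem p1L_le (i : Fin 4) : p1L i ≤ xh (up .pt) i := by
  fin_cases i
  · refine p1_aux (x := 90.1890217242414) (w := 401) psi0_hi (by simp only [p1L]; norm_num) ?_
      (by simp only [p1L]; norm_num)
    have : xv (up .pt) 0 = 401 := by decide
    exact_mod_cast this
  · refine p1_aux (x := 6.1764251733068) (w := 4) psi1_hi (by simp only [p1L]; norm_num) ?_
      (by simp only [p1L]; norm_num)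
    have : xv (up .pt) 1 = 4 := by decide
    exact_mod_cast this
  · refine p1_aux (x := 28.3932461189858805) (w := 801) lam_hi (by simp only [p1L]; norm_num) ?_
      (by simp only [p1L]; norm_num)
    have : xv (up .pt) 2 = 801 := by decide
    exact_mod_cast this
  · refine p1_aux (x := 1) (w := 1) le_rfl (by simp only [p1L]; norm_num) ?_
      (by simp only [p1L]; norm_num)
    have : xv (up .pt) 3 = 1 := by decide
    exact_mod_cast this

/-- the end gadget: the root has one leaf and one leg with two vertices -/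
def Eg : RT := .graft (.graft .pt .pt) (.graft .pt .pt)

/-- `∑ i, sta i * xh K i = (∑ i, N i * psi i * xv K i) / (S1 * lam ^ (|K| - 1))`; for `Eg` the
numbers `xv Eg` are `401 * 2001, 4 * 2804, 801 * 804, 801`.  True value `0.999938...`. -/
private theorem sum_Eg : ∑ i, sta i * xh Eg i =
    (psi 0 * 802401 + 400 * psi 1 * 11216 + 1200 * lam * 644004 + 960000 * 801) /
      (S1 * lam ^ 3) := by
  have hx : ∀ i, sta i * xh Eg i = N i * psi i * xv Eg i / (S1 * lam ^ 3) := by
    intro i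
    have h := xv_eq Eg i
    have hs : Eg.size - 1 = 3 := rfl
    rw [hs, kap] at h
    have h1 := S1_pos
    have h2 := S2_pos
    have h3 := lam_pos
    have h4 := psi_pos i
    rw [h, sta]
    field_simp
  rw [Finset.sum_congr rfl fun i _ => hx i, ← Finset.sum_div, Fin.sum_univ_four]
  have e0 : xv Eg 0 = 802401 := by decide
  have e1 : xv Eg 1 = 11216 := by decide
  have e2 : xv Eg 2 = 644004 := by decide
  have e3 : xv Eg 3 = 801 := by decide
  have n0 : N 0 = 1 := rfl
  have n1 : N 1 = 400 := rfl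
  have n2 : N 2 = 1200 := rfl
  have n3 : N 3 = 960000 := rfl
  rw [e0, e1, e2, e3, n0, n1, n2, n3, psi_2, psi_3]
  norm_num

theorem Eg_lt : ∑ i, sta i * xh Eg i < 0.99995 := by
  rw [sum_Eg, div_lt_iff₀ (mul_pos S1_pos (pow_pos lam_pos 3))]
  have h1 : (996632.6544338 : ℝ) * (28.3932461189858804 : ℝ) ^ 3 ≤ S1 * lam ^ 3 :=
    mul_le_mul S1_lo (pow_le_pow_left₀ (by norm_num) lam_lo 3) (by norm_num) S1_pos.le
  have h2 := psi0_hi
  have h3 := psi1_hi
  have h4 := lam_hi
  norm_num at h1 h2 h3 h4 ⊢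
  linarith

theorem Eg_pos : 0 < ∑ i, sta i * xh Eg i := by
  rw [sum_Eg]
  have h1 := S1_pos
  have h2 := psi_pos 0
  have h3 := lam_pos
  have h4 := psi_pos 1
  positivity

end Pool.Agent.Lib.MP_dbb03c_co.Cone
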