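import Pool.Agent.Lib.MP_dbb03c_co.Cone.RTree

/-!
# The Perron eigenvector of the level matrix and the normalised recursion

`lam` is the Perron root of `W`, `psi` its eigenvector, `P i j = W i j psi j / (lam psi i)` the
corresponding stochastic matrix with stationary law `sta i = N i psi i ^ 2 / S2`, and
`xh K i = xv K i / (kap i * lam ^ (|K| - 1))`, `kap i = psi i * S1 / S2`.
-/

namespace Pool.Agent.Lib.MP_dbb03c_co.Cone

open RT Matrix

theorem exists_lam : ∃ l : ℝ, 28.3932461189858804 ≤ l ∧ l ≤ 28.3932461189858805 ∧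
    l ^ 4 - l ^ 3 - 1203 * l ^ 2 + 803 * l + 320000 = 0 := by
  have hc : ContinuousOn (fun l : ℝ => l ^ 4 - l ^ 3 - 1203 * l ^ 2 + 803 * l + 320000)
      (Set.Icc 28.3932461189858804 28.3932461189858805) := by fun_prop
  obtain ⟨l, hl, h⟩ := intermediate_value_Icc (by norm_num) hc
    (show (0 : ℝ) ∈ Set.Icc _ _ by constructor <;> norm_num)
  exact ⟨l, hl.1, hl.2, h⟩

/-- the Perron root -/
noncomputable def lam : ℝ := exists_lam.choose

theorem lam_lo : 28.3932461189858804 ≤ lam := exists_lam.choose_spec.1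

theorem lam_hi : lam ≤ 28.3932461189858805 := exists_lam.choose_spec.2.1

theorem lam_eq : lam ^ 4 - lam ^ 3 - 1203 * lam ^ 2 + 803 * lam + 320000 = 0 :=
  exists_lam.choose_spec.2.2

theorem lam_pos : 0 < lam := by have := lam_lo; linarith

/-- the eigenvector -/
noncomputable def psi : Fin 4 → ℝ := ![lam ^ 3 - 803 * lam, lam ^ 2 - 800, lam, 1]

/-- normalising sums -/
noncomputable def S1 : ℝ := ∑ i, (N i : ℝ) * psi i

noncomputable def S2 : ℝ := ∑ i, (N i : ℝ) * psi i ^ 2

noncomputable def kap (i : Fin 4) : ℝ := psi i * S1 / S2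

/-- the stationary law -/
noncomputable def sta (i : Fin 4) : ℝ := N i * psi i ^ 2 / S2

/-- the stochastic matrix -/
noncomputable def P : Matrix (Fin 4) (Fin 4) ℝ :=
  Matrix.of fun i j => (W i j : ℝ) * psi j / (lam * psi i)

noncomputable def Zc : ℝ := S1 ^ 2 / S2

private theorem lam_sq : 806 < lam ^ 2 := by
  have := lam_lo
  nlinarith

theorem psi_pos (i : Fin 4) : 0 < psi i := by
  have h1 := lam_pos
  have h2 := lam_sq
  have h3 : 0 < lam ^ 3 - 803 * lam := by
    have : lam ^ 3 - 803 * lam = lam * (lam ^ 2 - 803) := by ring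
    rw [this]
    exact mul_pos h1 (by linarith)
  have h4 : 0 < lam ^ 2 - 800 := by linarith
  fin_cases i
  · exact h3
  · exact h4
  · exact h1
  · exact one_pos

theorem eigen (i : Fin 4) : ∑ j, (W i j : ℝ) * psi j = lam * psi i := by
  have h := lam_eq
  fin_cases i <;> simp [W, psi, Fin.sum_univ_four]
  · linear_combination -h
  · ring
  · ring

private theorem N_pos (i : Fin 4) : (0 : ℝ) < N i := by
  fin_cases i <;> simp [N]

private theorem N_W (i j : Fin 4) : (N i : ℝ) * W i j = N j * W j i := by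
  fin_cases i <;> fin_cases j <;> simp [N, W] <;> norm_num

theorem S1_pos : 0 < S1 :=
  Finset.sum_pos (fun i _ => mul_pos (N_pos i) (psi_pos i)) Finset.univ_nonempty

theorem S2_pos : 0 < S2 :=
  Finset.sum_pos (fun i _ => mul_pos (N_pos i) (pow_pos (psi_pos i) 2)) Finset.univ_nonempty

theorem kap_pos (i : Fin 4) : 0 < kap i :=
  div_pos (mul_pos (psi_pos i) S1_pos) S2_pos

theorem sta_pos (i : Fin 4) : 0 < sta i :=
  div_pos (mul_pos (N_pos i) (pow_pos (psi_pos i) 2)) S2_pos

theorem Zc_pos : 0 < Zc := div_pos (pow_pos S1_pos 2) S2_pos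

theorem sum_sta : ∑ i, sta i = 1 := by
  have h : ∑ i, sta i = (∑ i, (N i : ℝ) * psi i ^ 2) / S2 := by
    rw [Finset.sum_div]
    rfl
  rw [h]
  exact div_self S2_pos.ne'

theorem P_nonneg (i j : Fin 4) : 0 ≤ P i j :=
  div_nonneg (mul_nonneg (Nat.cast_nonneg _) (psi_pos j).le) (mul_pos lam_pos (psi_pos i)).le

private theorem P_mul (z : Fin 4 → ℝ) (i : Fin 4) :
    lam * psi i * (P *ᵥ z) i = ∑ j, (W i j : ℝ) * psi j * z j := by
  have h1 := lam_pos.ne'
  have h2 := (psi_pos i).ne'
  rw [Matrix.mulVec, dotProduct, Finset.mul_sum]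
  refine Finset.sum_congr rfl fun j _ => ?_
  simp only [P, Matrix.of_apply]
  field_simp

theorem P_one : P *ᵥ (fun _ => 1) = fun _ => (1 : ℝ) := by
  funext i
  have h := P_mul (fun _ => 1) i
  simp only [mul_one] at h
  rw [eigen] at h
  exact mul_left_cancel₀ (mul_pos lam_pos (psi_pos i)).ne' (h.trans (mul_one _).symm)

/-- stationarity, from `N i * W i j = N j * W j i` -/
theorem sta_P (z : Fin 4 → ℝ) : ∑ i, sta i * (P *ᵥ z) i = ∑ i, sta i * z i := by
  have h1 := lam_pos.ne'
  have h2 := S2_pos.ne'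
  have e1 : ∀ i, sta i * (P *ᵥ z) i = (∑ j, (N i : ℝ) * W i j * psi i * psi j * z j) / (lam * S2) := by
    intro i
    have e : sta i * (P *ᵥ z) i = N i * psi i * (lam * psi i * (P *ᵥ z) i) / (lam * S2) := by
      rw [sta]
      field_simp
    rw [e, P_mul, Finset.mul_sum]
    congr 1
    refine Finset.sum_congr rfl fun j _ => ?_
    ring
  have e2 : ∀ j, sta j * z j = (∑ i, (N i : ℝ) * W i j * psi i * psi j * z j) / (lam * S2) := by
    intro j
    have e : ∑ i, (N i : ℝ) * W i j * psi i * psi j * z j =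
        N j * psi j * z j * ∑ i, (W j i : ℝ) * psi i := by
      rw [Finset.mul_sum]
      refine Finset.sum_congr rfl fun i _ => ?_
      rw [N_W i j]
      ring
    rw [e, eigen, sta]
    field_simp
  rw [Finset.sum_congr rfl (fun i _ => e1 i), Finset.sum_congr rfl (fun i _ => e2 i),
    ← Finset.sum_div, ← Finset.sum_div, Finset.sum_comm]

private theorem sta_kap (i : Fin 4) : sta i * (kap i)⁻¹ = N i * psi i / S1 := by
  have h1 := S1_pos.ne'
  have h2 := S2_pos.ne'
  have h3 := (psi_pos i).ne'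
  rw [sta, kap]
  field_simp

theorem sum_sta_div_kap : ∑ i, sta i * (kap i)⁻¹ = 1 := by
  rw [Finset.sum_congr rfl (fun i _ => sta_kap i), ← Finset.sum_div]
  exact div_self S1_pos.ne'

/-- normalised numbers of colourings -/
noncomputable def xh : RT → Fin 4 → ℝ
  | .pt => fun i => (kap i)⁻¹
  | .graft t c => fun i => kap i * xh t i * (P *ᵥ xh c) i

theorem one_le_size (K : RT) : 1 ≤ K.size := by
  induction K with
  | pt => exact le_rfl
  | graft t c iht _ =>
    rw [RT.size]
    omega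

private theorem W_kap (z : Fin 4 → ℝ) (i : Fin 4) :
    ∑ j, (W i j : ℝ) * (kap j * z j) = lam * kap i * (P *ᵥ z) i := by
  have h2 := S2_pos.ne'
  have e : lam * kap i * (P *ᵥ z) i = S1 / S2 * (lam * psi i * (P *ᵥ z) i) := by
    rw [kap]
    ring
  rw [e, P_mul, Finset.mul_sum]
  refine Finset.sum_congr rfl fun j _ => ?_
  rw [kap]
  ring

theorem xv_eq (K : RT) (i : Fin 4) : (xv K i : ℝ) = kap i * lam ^ (K.size - 1) * xh K i := by
  induction K generalizing i with
  | pt =>
    simp only [xv, xh, RT.size, Nat.sub_self, pow_zero, mul_one, Nat.cast_one]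
    exact (mul_inv_cancel₀ (kap_pos i).ne').symm
  | graft t c iht ihc =>
    have hs : (RT.graft t c).size - 1 = (t.size - 1) + (c.size - 1) + 1 := by
      have h1 := one_le_size t
      have h2 := one_le_size c
      rw [RT.size]
      omega
    have e1 : (∑ j, (W i j : ℝ) * (xv c j : ℝ)) =
        lam ^ (c.size - 1) * (lam * kap i * (P *ᵥ xh c) i) := by
      rw [← W_kap, Finset.mul_sum]
      refine Finset.sum_congr rfl fun j _ => ?_
      rw [ihc j]
      ring
    rw [hs]
    simp only [xv, xh]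
    push_cast
    rw [e1, iht i, pow_succ, pow_add]
    ring

theorem homK_eq (K : RT) :
    (homK K : ℝ) = lam ^ (K.size - 1) * Zc * ∑ i, sta i * (kap i)⁻¹ * xh K i := by
  rw [homK, Finset.mul_sum]
  push_cast
  refine Finset.sum_congr rfl fun i _ => ?_
  have h1 := S1_pos.ne'
  have h2 := S2_pos.ne'
  rw [sta_kap, xv_eq, Zc, kap]
  field_simp

theorem xh_up (K : RT) : xh (up K) = P *ᵥ xh K := by
  funext i
  rw [up]
  simp only [xh]
  rw [mul_inv_cancel₀ (kap_pos i).ne', one_mul]

theorem xh_ups (m : ℕ) (K : RT) : xh (ups m K) = P ^ m *ᵥ xh K := by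
  induction m with
  | zero => simp [ups]
  | succ m ih => rw [ups, xh_up, ih, Matrix.mulVec_mulVec, pow_succ']

theorem homK_join (K1 K2 : RT) (M : ℕ) :
    (homK (RT.graft K1 (ups M K2)) : ℝ) = lam ^ (K1.size + K2.size + M - 1) * Zc *
      ∑ i, sta i * xh K1 i * (P ^ (M + 1) *ᵥ xh K2) i := by
  have hs : (RT.graft K1 (ups M K2)).size - 1 = K1.size + K2.size + M - 1 := by
    rw [RT.size, size_ups]
    omega
  rw [homK_eq, hs]
  congr 1
  refine Finset.sum_congr rfl fun i _ => ?_
  have hk := (kap_pos i).ne'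
  simp only [xh]
  rw [xh_ups, Matrix.mulVec_mulVec, ← pow_succ']
  field_simp

theorem homK_path (n : ℕ) :
    (homK (ups n .pt) : ℝ) = lam ^ n * Zc *
      ∑ i, sta i * (kap i)⁻¹ * (P ^ n *ᵥ fun i => (kap i)⁻¹) i := by
  rw [homK_eq, size_ups, xh_ups]
  rfl

end Pool.Agent.Lib.MP_dbb03c_co.Cone
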