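import Pool.Agent.Lib.MP_dbb03c_co.Cone.Data

/-! # The value `sta . e` of the extreme vectors -/

namespace Pool.Agent.Lib.MP_dbb03c_co.Cone

open RT Matrix

/-- `m / 10^4 ≤ staL . e` for all `e` of the list -/
def chkPi (m : ℕ) (E : List Q) : Bool :=
  E.all fun e => Nat.ble (m * 10000000000000000)
    (41695912 * e.1 + 78220481 * e.2.1 + 4959038345 * e.2.2.1 + 4921045260 * e.2.2.2)

theorem chkPi_sound {m : ℕ} {E : List Q} (h : chkPi m E = true) :
    ∀ e ∈ E, (m : ℝ) / 10 ^ 4 ≤ ∑ i, sta i * q e i := by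
  intro e he
  have h1 := List.all_eq_true.1 h e he
  simp only [Nat.ble_eq] at h1
  have h2 : (m : ℝ) * 10 ^ 16 ≤
      41695912 * e.1 + 78220481 * e.2.1 + 4959038345 * e.2.2.1 + 4921045260 * e.2.2.2 := by
    have : ((m * 10000000000000000 : ℕ) : ℝ) ≤ ((41695912 * e.1 + 78220481 * e.2.1 +
      4959038345 * e.2.2.1 + 4921045260 * e.2.2.2 : ℕ) : ℝ) := by exact_mod_cast h1
    push_cast at this
    linarith
  have h3 : ∑ i, staL i * q e i ≤ ∑ i, sta i * q e i :=
    Finset.sum_le_sum fun i _ => mul_le_mul_of_nonneg_right (staL_le i) (q_nonneg e i)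
  refine le_trans ?_ h3
  simp only [Fin.sum_univ_four, staL, q, Matrix.cons_val_zero, Matrix.cons_val_one, Matrix.cons_val]
  rw [div_le_iff₀ (by positivity)]
  linarith

theorem pi2 : ∀ e ∈ L2, (0.9991 : ℝ) ≤ ∑ i, sta i * q e i := by
  have := chkPi_sound (m := 9991) (E := L2) (by decide +kernel)
  norm_num at this ⊢
  exact this

theorem piA : ∀ e ∈ LA, (0.9991 : ℝ) ≤ ∑ i, sta i * q e i := by
  have := chkPi_sound (m := 9991) (E := LA) (by decide +kernel)
  norm_num at this ⊢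
  exact this

theorem pi1 : ∀ e ∈ [v1], (0.9991 : ℝ) ≤ ∑ i, sta i * q e i := by
  have := chkPi_sound (m := 9991) (E := [v1]) (by decide +kernel)
  norm_num at this ⊢
  exact this

theorem piB : ∀ e ∈ LB, (1.0012 : ℝ) ≤ ∑ i, sta i * q e i := by
  have := chkPi_sound (m := 10012) (E := LB) (by decide +kernel)
  norm_num at this ⊢
  exact this

end Pool.Agent.Lib.MP_dbb03c_co.Cone
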