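import Pool.Agent.Lib.MP_dbb03c_co.Cone.Defs

/-!
# Combinatorics of the rooted tree model: moving the root, long segments
-/

namespace Pool.Agent.Lib.MP_dbb03c_co.Cone

open RT

/-- `K` and `K'` are rooted trees with the same invariants -/
structure RE (K K' : RT) : Prop where
  x : xv K = xv K'
  size : K.size = K'.size
  ht : K.ht = K'.ht
  dm : K.dm = K'.dm

theorem RE.refl (K : RT) : RE K K := ⟨rfl, rfl, rfl, rfl⟩

theorem RE.trans {K K' K'' : RT} (h : RE K K') (h' : RE K' K'') : RE K K'' :=
  ⟨h.x.trans h'.x, h.size.trans h'.size, h.ht.trans h'.ht, h.dm.trans h'.dm⟩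

theorem RE.graft {t t' c c' : RT} (h : RE t t') (h' : RE c c') :
    RE (RT.graft t c) (RT.graft t' c') := by
  refine ⟨?_, ?_, ?_, ?_⟩
  · funext i
    simp only [xv, h.x, h'.x]
  · simp only [RT.size, h.size, h'.size]
  · simp only [RT.ht, h.ht, h'.ht]
  · simp only [RT.dm, h.dm, h'.dm, h.ht, h'.ht]

/-- two children can be exchanged -/
theorem RE.comm (t c d : RT) : RE (RT.graft (RT.graft t c) d) (RT.graft (RT.graft t d) c) := by
  refine ⟨?_, ?_, ?_, ?_⟩
  · funext i
    simp only [xv]
    ring
  · simp only [RT.size]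
    omega
  · simp only [RT.ht]
    omega
  · simp only [RT.dm, RT.ht]
    omega

/-- unrooted equality of invariants -/
structure UE (K K' : RT) : Prop where
  h : homK K = homK K'
  size : K.size = K'.size
  dm : K.dm = K'.dm

theorem UE.trans {K K' K'' : RT} (h : UE K K') (h' : UE K' K'') : UE K K'' :=
  ⟨h.h.trans h'.h, h.size.trans h'.size, h.dm.trans h'.dm⟩

theorem RE.ue {K K' : RT} (h : RE K K') : UE K K' := by
  exact ⟨by rw [homK, homK, h.x], h.size, h.dm⟩

/-- the root can be moved along an edge: `N i * W i j` is symmetric in `i, j` -/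
theorem UE.swap (t c : RT) : UE (RT.graft t c) (RT.graft c t) := by
  refine ⟨?_, ?_, ?_⟩
  · simp only [homK, xv, Fin.sum_univ_four]
    simp [W, N]
    ring
  · simp only [RT.size]
    omega
  · simp only [RT.dm]
    omega

/-- `d` is the subtree of a child of the root of `K` -/
def Br : RT → RT → Prop
  | .pt, _ => False
  | .graft t c, d => d = c ∨ Br t d

/-- `d` is a full subtree of `K` (reflexive transitive closure of `Br`) -/
inductive Sub : RT → RT → Prop
  | refl (K : RT) : Sub K K
  | step {K d e : RT} : Br K d → Sub d e → Sub K e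

theorem Br.exists_re {c d : RT} (h : Br c d) : ∃ c', RE c (RT.graft c' d) := by
  induction c with
  | pt => exact h.elim
  | graft t c0 iht _ =>
    rcases h with h | h
    · subst h
      exact ⟨t, RE.refl _⟩
    · obtain ⟨c', hc'⟩ := iht h
      exact ⟨RT.graft c' c0, (RE.graft hc' (RE.refl c0)).trans (RE.comm c' d c0)⟩

/-- Moving the root down to a full subtree `b` of `c`; `t` is the part above.
Induction on `Sub`: with `c ~ graft c' d`,
`graft t (graft c' d) ~ graft (graft c' d) t ~ graft (graft c' t) d` and go on with `d`. -/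
theorem Sub.exists_ue {c b : RT} (h : Sub c b) :
    ∀ t, ∃ K1, UE (RT.graft t c) (RT.graft K1 b) := by
  induction h with
  | refl K => exact fun t => ⟨t, (RE.refl _).ue⟩
  | step hb _ ih =>
    intro t
    obtain ⟨c', hc'⟩ := hb.exists_re
    obtain ⟨K1, hK1⟩ := ih (RT.graft c' t)
    exact ⟨K1, (((RE.graft (RE.refl t) hc').ue.trans (UE.swap _ _)).trans
      (RE.comm c' _ t).ue).trans hK1⟩

/-- length of the chain at the top -/
def top : RT → ℕ
  | .pt => 0
  | .graft .pt c => top c + 1
  | .graft (.graft _ _) _ => 0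

theorem exists_ups_of_le_top {K : RT} {m : ℕ} (h : m ≤ top K) : ∃ K2, K = ups m K2 := by
  induction m generalizing K with
  | zero => exact ⟨K, rfl⟩
  | succ m ih =>
    match K, h with
    | .pt, h => simp [top] at h
    | .graft (.graft _ _) _, h => simp [top] at h
    | .graft .pt c, h =>
      obtain ⟨K2, hK2⟩ := ih (K := c) (by simpa [top] using h)
      exact ⟨K2, by rw [hK2]; rfl⟩

private theorem RTree_size_ups (m : ℕ) (K : RT) : (ups m K).size = m + K.size := by
  induction m with
  | zero => rw [ups, Nat.zero_add]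
  | succ m ih =>
    rw [ups, up, RT.size, ih, RT.size]
    omega

private theorem RTree_ht_ups (m : ℕ) (K : RT) : (ups m K).ht = m + K.ht := by
  induction m with
  | zero => rw [ups, Nat.zero_add]
  | succ m ih =>
    rw [ups, up, RT.ht, ih, RT.ht]
    omega

private theorem RTree_top_le (M : ℕ) (t : RT) (h : ∀ d b, Br t d → Sub d b → top b < M) :
    top t ≤ M := by
  match t, h with
  | .pt, _ => simp [top]
  | .graft (.graft _ _) _, _ => simp [top]
  | .graft .pt c, h =>
    have h1 := h c c (Or.inl rfl) (Sub.refl c)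
    simp only [top]
    omega

private theorem RTree_aux (M : ℕ) (K : RT) (h : ∀ d b, Br K d → Sub d b → top b < M) :
    K.size ≤ top K + 1 + (2 * M + 2) * (K.lv - 1) ∧ 1 ≤ K.lv := by
  induction K with
  | pt => simp [RT.size, RT.lv, top]
  | graft t c iht ihc =>
    have hc := ihc fun d b hd hb => h c b (Or.inl rfl) (Sub.step hd hb)
    have ht := iht fun d b hd hb => h d b (Or.inr hd) hb
    have htc := h c c (Or.inl rfl) (Sub.refl c)
    cases t with
    | pt =>
      simp only [RT.size, RT.lv, top]
      omega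
    | graft a b =>
      have htt := RTree_top_le M (RT.graft a b) fun d b hd hb => h d b (Or.inr hd) hb
      obtain ⟨ht1, ht2⟩ := ht
      obtain ⟨hc1, hc2⟩ := hc
      obtain ⟨l, hl⟩ : ∃ l, (RT.graft a b).lv = l + 1 := ⟨(RT.graft a b).lv - 1, by omega⟩
      obtain ⟨l', hl'⟩ : ∃ l', c.lv = l' + 1 := ⟨c.lv - 1, by omega⟩
      have e1 : (RT.graft (RT.graft a b) c).size = (RT.graft a b).size + c.size := rfl
      have e2 : (RT.graft (RT.graft a b) c).lv = (RT.graft a b).lv + c.lv := rfl
      have e3 : top (RT.graft (RT.graft a b) c) = 0 := rfl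
      rw [e1, e2, e3]
      rw [hl, Nat.add_sub_cancel] at ht1
      rw [hl', Nat.add_sub_cancel] at hc1
      refine ⟨?_, by omega⟩
      have e4 : (RT.graft a b).lv + c.lv - 1 = l + l' + 1 := by omega
      rw [e4]
      nlinarith

/-- if no full subtree of `K` has a long chain at its top then `K` is small.
Hint: show `K.size ≤ top K + 1 + (2 * M + 2) * (K.lv - 1)` (and `1 ≤ K.lv`) by induction, assuming
`top b < M` only for the full subtrees `b` of the children of the root of `K`; then the top chain
of `t` in `graft t c` has length at most `M`, that of `c` at most `M - 1`. -/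
theorem size_le_of_no_chain (M : ℕ) (K : RT) (h : ∀ b, Sub K b → top b < M) :
    K.size ≤ (2 * M + 2) * K.lv := by
  have h1 := (RTree_aux M K fun d b hd hb => h b (Sub.step hd hb))
  have h2 := h K (Sub.refl K)
  obtain ⟨h3, h4⟩ := h1
  obtain ⟨l, hl⟩ : ∃ l, K.lv = l + 1 := ⟨K.lv - 1, by omega⟩
  rw [hl, Nat.add_sub_cancel] at h3
  rw [hl]
  nlinarith

/-- a large tree with few leaves has a long segment.  Apply `size_le_of_no_chain` with `M + 1`:
some full subtree `b` of `K` has `M + 1 ≤ top b`.  If `b = K` then `K = graft pt (ups M K2)`; if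
`b` is proper use `Br.exists_re` and `Sub.exists_ue`. -/
theorem exists_join (M : ℕ) (K : RT) (h : (2 * (M + 1) + 2) * K.lv < K.size) :
    ∃ K1 K2 : RT, homK K = homK (RT.graft K1 (ups M K2)) ∧ K.size = K1.size + K2.size + M ∧
      K1.ht + K2.ht + M + 1 ≤ K.dm := by
  have h1 : ∃ b, Sub K b ∧ M + 1 ≤ top b := by
    by_contra hne
    push Not at hne
    exact absurd (size_le_of_no_chain (M + 1) K hne) (not_le.2 h)
  obtain ⟨b, hb, hM⟩ := h1
  obtain ⟨K2, hK2⟩ := exists_ups_of_le_top hM
  have hs := RTree_size_ups M K2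
  have ht := RTree_ht_ups M K2
  cases hb with
  | refl =>
    refine ⟨.pt, K2, by rw [hK2]; rfl, ?_, ?_⟩
    · rw [hK2, ups, up]
      simp only [RT.size, hs]
      omega
    · rw [hK2, ups, up]
      simp only [RT.dm, RT.ht, ht]
      omega
  | step hd hdb =>
    obtain ⟨c', hc'⟩ := hd.exists_re
    obtain ⟨K1, hK1⟩ := hdb.exists_ue c'
    have h2 : UE K (RT.graft (RT.graft .pt K1) (ups M K2)) := by
      have h3 := hc'.ue.trans hK1
      rw [hK2, ups, up] at h3
      exact (h3.trans (UE.swap _ _)).trans (RE.comm _ _ _).ue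
    refine ⟨RT.graft .pt K1, K2, h2.h, ?_, ?_⟩
    · rw [h2.size]
      simp only [RT.size, hs]
      omega
    · rw [h2.dm]
      simp only [RT.dm, RT.ht, ht]
      omega

theorem size_ups (m : ℕ) (K : RT) : (ups m K).size = m + K.size := by
  exact RTree_size_ups m K

theorem ht_ups (m : ℕ) (K : RT) : (ups m K).ht = m + K.ht := by
  exact RTree_ht_ups m K

end Pool.Agent.Lib.MP_dbb03c_co.Cone
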